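import Pool.Agent.GSC.Ex

/-! # GSC Cmp: weighted bounds and comparison of two resolvents.

`G = (H0 + diag b)⁻¹`, `0 ≤ w_y ≤ -Im b_y`.
* `wrow`: `∑ w_y |G_xy|² ≤ |G_xx|` (Ward).
* `wop`: `∑_y w_y |∑_z G_yz √w_z u_z|² ≤ ∑ |u_z|²` (contraction `√w G √w`).
* `cmp_ent`, `cmp_row`: if `|b'_y - b_y| ≤ r w_y`, `w ≤ -Im b, -Im b'`:
  `|G_xz - G'_xz| ≤ r √(|G_xx| |G'_zz|)`, `∑_z w_z |G_xz - G'_xz|² ≤ r² |G_xx|`.
* `cmp_tri`: `|∑ G_xz d_z G'_zy f_y G''_yx| ≤ r s √(|G_xx| |G''_xx|)` for `|d| ≤ r w`, `|f| ≤ s w`.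
-/

open Matrix Finset

noncomputable section

namespace Pool.Agent.GSC

open Pool.Agent.Kin Pool.Agent.APS

variable {ι : Type} [Fintype ι] [DecidableEq ι]
variable {H0 : Matrix ι ι ℂ} {b b' b'' : ι → ℂ} {w : ι → ℝ}

theorem wrow (hH : RealSym H0) (hb : ∀ x, (b x).im < 0) (hw : ∀ x, w x ≤ -(b x).im) (x : ι) :
    ∑ y, w y * ‖rsc H0 b x y‖ ^ 2 ≤ ‖rsc H0 b x x‖ := by
  refine le_trans ?_ ((le_abs_self _).trans (Complex.abs_im_le_norm (rsc H0 b x x)))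
  rw [rsc_ward hH hb]
  refine Finset.sum_le_sum fun y _ => ?_
  rw [mul_comm]
  exact mul_le_mul_of_nonneg_left (hw y) (sq_nonneg _)

private lemma form_im (hH : RealSym H0) (b u : ι → ℂ) :
    (∑ x, star (u x) * ((H0 + diagonal b) *ᵥ u) x).im = ∑ x, ‖u x‖ ^ 2 * (b x).im := by
  have h1 : ∀ x, ((H0 + diagonal b) *ᵥ u) x = (∑ y, H0 x y * u y) + b x * u x := by
    intro x
    rw [Matrix.add_mulVec, Pi.add_apply, Matrix.mulVec_diagonal]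
    rfl
  have h2 : ∑ x, star (u x) * ((H0 + diagonal b) *ᵥ u) x =
      (∑ x, ∑ y, star (u x) * H0 x y * u y) + ∑ x, b x * (star (u x) * u x) := by
    rw [← Finset.sum_add_distrib]
    refine Finset.sum_congr rfl fun x _ => ?_
    rw [h1, mul_add, Finset.mul_sum]
    congr 1
    · refine Finset.sum_congr rfl fun y _ => ?_
      ring
    · ring
  have h3 : (∑ x, ∑ y, star (u x) * H0 x y * u y).im = 0 := by
    rw [← Complex.conj_eq_iff_im, map_sum]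
    have e1 : ∀ x, (starRingEnd ℂ) (∑ y, star (u x) * H0 x y * u y) =
        ∑ y, star (u y) * H0 y x * u x := by
      intro x
      rw [map_sum]
      refine Finset.sum_congr rfl fun y _ => ?_
      have e2 : (starRingEnd ℂ) (H0 x y) = H0 x y := Complex.conj_eq_iff_im.2 (hH.real x y)
      rw [map_mul, map_mul, e2, hH.symm y x]
      simp only [RCLike.star_def, RingHomCompTriple.comp_apply, RingHom.id_apply]
      ring
    rw [Finset.sum_congr rfl fun x _ => e1 x, Finset.sum_comm]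
  rw [h2, Complex.add_im, h3, zero_add, Complex.im_sum]
  refine Finset.sum_congr rfl fun x _ => ?_
  have e3 : star (u x) * u x = ((‖u x‖ ^ 2 : ℝ) : ℂ) := by
    rw [RCLike.star_def, Complex.conj_mul']
    push_cast
    rfl
  rw [e3, Complex.im_mul_ofReal]
  ring

theorem wop (hH : RealSym H0) (hb : ∀ x, (b x).im < 0) (hw0 : ∀ x, 0 ≤ w x)
    (hw : ∀ x, w x ≤ -(b x).im) (u : ι → ℂ) :
    ∑ y, w y * ‖∑ z, rsc H0 b y z * ((√(w z) : ℂ) * u z)‖ ^ 2 ≤ ∑ z, ‖u z‖ ^ 2 := by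
  set f : ι → ℂ := fun z => (√(w z) : ℂ) * u z with hf
  set v : ι → ℂ := rsc H0 b *ᵥ f with hv
  have h1 : (H0 + diagonal b) *ᵥ v = f := by
    rw [hv, Matrix.mulVec_mulVec]
    unfold rsc
    rw [Matrix.mul_nonsing_inv _ (rsc_unit hH hb), Matrix.one_mulVec]
  have h2 := form_im hH b v
  rw [h1] at h2
  have h3 : ∑ x, w x * ‖v x‖ ^ 2 ≤ -(∑ x, star (v x) * f x).im := by
    rw [h2, ← Finset.sum_neg_distrib]
    refine Finset.sum_le_sum fun x _ => ?_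
    have h4 := mul_le_mul_of_nonneg_left (hw x) (show 0 ≤ ‖v x‖ ^ 2 by positivity)
    linarith
  have h5 : -(∑ x, star (v x) * f x).im ≤ ∑ x, (√(w x) * ‖v x‖) * ‖u x‖ := by
    calc -(∑ x, star (v x) * f x).im ≤ |(∑ x, star (v x) * f x).im| := neg_le_abs _
      _ ≤ ‖∑ x, star (v x) * f x‖ := Complex.abs_im_le_norm _
      _ ≤ ∑ x, ‖star (v x) * f x‖ := norm_sum_le _ _
      _ = ∑ x, (√(w x) * ‖v x‖) * ‖u x‖ := by
          refine Finset.sum_congr rfl fun x _ => ?_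
          rw [norm_mul, norm_star, hf]
          simp only [norm_mul, Complex.norm_real, Real.norm_of_nonneg (Real.sqrt_nonneg _)]
          ring
  have h6 : ∑ x, (√(w x) * ‖v x‖) * ‖u x‖ ≤
      √(∑ x, (√(w x) * ‖v x‖) ^ 2) * √(∑ x, ‖u x‖ ^ 2) :=
    Real.sum_mul_le_sqrt_mul_sqrt _ _ _
  have h7 : ∑ x, (√(w x) * ‖v x‖) ^ 2 = ∑ x, w x * ‖v x‖ ^ 2 := by
    refine Finset.sum_congr rfl fun x _ => ?_
    rw [mul_pow, Real.sq_sqrt (hw0 x)]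
  set A := ∑ x, w x * ‖v x‖ ^ 2 with hA
  set B := ∑ x, ‖u x‖ ^ 2 with hB
  have hA0 : 0 ≤ A := Finset.sum_nonneg fun x _ => mul_nonneg (hw0 x) (sq_nonneg _)
  have hB0 : 0 ≤ B := Finset.sum_nonneg fun x _ => sq_nonneg _
  have h8 : A ≤ √A * √B := by
    rw [h7] at h6
    linarith
  have h9 : √A * √A = A := Real.mul_self_sqrt hA0
  have h10 : √B * √B = B := Real.mul_self_sqrt hB0
  have h11 : √A ≤ √B := by
    rcases (Real.sqrt_nonneg A).eq_or_lt with h12 | h12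
    · rw [← h12]
      exact Real.sqrt_nonneg _
    · refine le_of_mul_le_mul_left ?_ h12
      linarith
  have h12 : A ≤ B := by
    rw [← h9, ← h10]
    exact mul_self_le_mul_self (Real.sqrt_nonneg _) h11
  exact h12

omit [DecidableEq ι] in
/-- the vector `(d_z/√w_z) G_xz` -/
private lemma vec_sq (hw0 : ∀ x, 0 ≤ w x) {d : ι → ℂ} {r : ℝ}
    (hd : ∀ y, ‖d y‖ ≤ r * w y) (G : ι → ℂ) :
    ∑ z, ‖((√(w z))⁻¹ : ℂ) * d z * G z‖ ^ 2 ≤ r ^ 2 * ∑ z, w z * ‖G z‖ ^ 2 := by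
  rw [Finset.mul_sum]
  refine Finset.sum_le_sum fun z _ => ?_
  rcases (hw0 z).eq_or_lt with h | h
  · have h1 : d z = 0 := by
      have := hd z
      rw [← h, mul_zero] at this
      exact norm_le_zero_iff.1 this
    rw [h1, ← h]
    simp
  · have h1 : 0 < √(w z) := Real.sqrt_pos.2 h
    rw [norm_mul, norm_mul, norm_inv, Complex.norm_real, Real.norm_of_nonneg h1.le, mul_pow, mul_pow,
      inv_pow, Real.sq_sqrt h.le]
    have h2 : ‖d z‖ ^ 2 ≤ (r * w z) ^ 2 := pow_le_pow_left₀ (norm_nonneg _) (hd z) 2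
    calc (w z)⁻¹ * ‖d z‖ ^ 2 * ‖G z‖ ^ 2 ≤ (w z)⁻¹ * (r * w z) ^ 2 * ‖G z‖ ^ 2 := by
          gcongr
      _ = r ^ 2 * (w z * ‖G z‖ ^ 2) := by
          field_simp

omit [Fintype ι] [DecidableEq ι] in
private lemma sw_eq (hw0 : ∀ x, 0 ≤ w x) {d : ι → ℂ} {r : ℝ}
    (hd : ∀ y, ‖d y‖ ≤ r * w y) (z : ι) (a : ℂ) :
    d z * a = (√(w z) : ℂ) * (((√(w z))⁻¹ : ℂ) * d z * a) := by
  rcases (hw0 z).eq_or_lt with h | h
  · have h1 : d z = 0 := by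
      have := hd z
      rw [← h, mul_zero] at this
      exact norm_le_zero_iff.1 this
    rw [h1]
    simp
  · have h1 : (√(w z) : ℂ) ≠ 0 := by
      rw [Ne, Complex.ofReal_eq_zero]
      exact (Real.sqrt_pos.2 h).ne'
    field_simp

theorem cmp_row (hH : RealSym H0) (hb : ∀ x, (b x).im < 0) (hb' : ∀ x, (b' x).im < 0)
    (hw0 : ∀ x, 0 ≤ w x) (hw : ∀ x, w x ≤ -(b x).im) (hw' : ∀ x, w x ≤ -(b' x).im)
    {r : ℝ} (hd : ∀ y, ‖b' y - b y‖ ≤ r * w y) (x : ι) :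
    ∑ z, w z * ‖rsc H0 b x z - rsc H0 b' x z‖ ^ 2 ≤ r ^ 2 * ‖rsc H0 b x x‖ := by
  set d : ι → ℂ := fun y => b' y - b y with hdd
  have h1 : ∀ z, rsc H0 b x z - rsc H0 b' x z = ∑ y, rsc H0 b' z y *
      ((√(w y) : ℂ) * (((√(w y))⁻¹ : ℂ) * d y * rsc H0 b x y)) := by
    intro z
    have e1 := congrFun (congrFun (rsc_sub hH hb hb') x) z
    rw [Matrix.sub_apply, Matrix.mul_apply] at e1
    rw [e1]
    refine Finset.sum_congr rfl fun y _ => ?_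
    rw [Matrix.mul_diagonal, rsc_symm hH b' y z, ← sw_eq hw0 hd y (rsc H0 b x y)]
    ring
  calc ∑ z, w z * ‖rsc H0 b x z - rsc H0 b' x z‖ ^ 2
      = ∑ z, w z * ‖∑ y, rsc H0 b' z y *
          ((√(w y) : ℂ) * (((√(w y))⁻¹ : ℂ) * d y * rsc H0 b x y))‖ ^ 2 := by
        refine Finset.sum_congr rfl fun z _ => ?_
        rw [h1 z]
    _ ≤ ∑ y, ‖((√(w y))⁻¹ : ℂ) * d y * rsc H0 b x y‖ ^ 2 := wop hH hb' hw0 hw' _
    _ ≤ r ^ 2 * ∑ y, w y * ‖rsc H0 b x y‖ ^ 2 := vec_sq hw0 hd _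
    _ ≤ r ^ 2 * ‖rsc H0 b x x‖ := mul_le_mul_of_nonneg_left (wrow hH hb hw x) (sq_nonneg _)

omit [DecidableEq ι] in
private lemma cs2 (hw0 : ∀ x, 0 ≤ w x) (f g : ι → ℝ)
    {A B : ℝ} (hA : ∑ y, w y * f y ^ 2 ≤ A) (hB : ∑ y, w y * g y ^ 2 ≤ B) :
    ∑ y, w y * (f y * g y) ≤ √(A * B) := by
  have h1 : ∑ y, w y * (f y * g y) = ∑ y, (√(w y) * f y) * (√(w y) * g y) := by
    refine Finset.sum_congr rfl fun y _ => ?_
    have := Real.mul_self_sqrt (hw0 y)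
    calc w y * (f y * g y) = (√(w y) * √(w y)) * (f y * g y) := by rw [this]
      _ = _ := by ring
  rw [h1]
  refine (Real.sum_mul_le_sqrt_mul_sqrt _ _ _).trans ?_
  have h2 : ∑ y, (√(w y) * f y) ^ 2 = ∑ y, w y * f y ^ 2 :=
    Finset.sum_congr rfl fun y _ => by rw [mul_pow, Real.sq_sqrt (hw0 y)]
  have h3 : ∑ y, (√(w y) * g y) ^ 2 = ∑ y, w y * g y ^ 2 :=
    Finset.sum_congr rfl fun y _ => by rw [mul_pow, Real.sq_sqrt (hw0 y)]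
  rw [h2, h3, ← Real.sqrt_mul (Finset.sum_nonneg fun y _ => mul_nonneg (hw0 y) (sq_nonneg _))]
  have h4 : 0 ≤ ∑ y, w y * f y ^ 2 := Finset.sum_nonneg fun y _ => mul_nonneg (hw0 y) (sq_nonneg _)
  have h5 : 0 ≤ ∑ y, w y * g y ^ 2 := Finset.sum_nonneg fun y _ => mul_nonneg (hw0 y) (sq_nonneg _)
  exact Real.sqrt_le_sqrt (mul_le_mul hA hB h5 (h4.trans hA))

theorem cmp_ent (hH : RealSym H0) (hb : ∀ x, (b x).im < 0) (hb' : ∀ x, (b' x).im < 0)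
    (hw0 : ∀ x, 0 ≤ w x) (hw : ∀ x, w x ≤ -(b x).im) (hw' : ∀ x, w x ≤ -(b' x).im)
    {r : ℝ} (hr : 0 ≤ r) (hd : ∀ y, ‖b' y - b y‖ ≤ r * w y) (x z : ι) :
    ‖rsc H0 b x z - rsc H0 b' x z‖ ≤ r * √(‖rsc H0 b x x‖ * ‖rsc H0 b' z z‖) := by
  have e1 := congrFun (congrFun (rsc_sub hH hb hb') x) z
  rw [Matrix.sub_apply, Matrix.mul_apply] at e1
  rw [e1]
  have h1 : ‖∑ y, (rsc H0 b * diagonal fun x => b' x - b x) x y * rsc H0 b' y z‖ ≤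
      r * ∑ y, w y * (‖rsc H0 b x y‖ * ‖rsc H0 b' z y‖) := by
    rw [Finset.mul_sum]
    refine (norm_sum_le _ _).trans (Finset.sum_le_sum fun y _ => ?_)
    rw [Matrix.mul_diagonal, norm_mul, norm_mul, rsc_symm hH b' y z]
    calc ‖rsc H0 b x y‖ * ‖b' y - b y‖ * ‖rsc H0 b' z y‖
        ≤ ‖rsc H0 b x y‖ * (r * w y) * ‖rsc H0 b' z y‖ := by
          gcongr
          exact hd y
      _ = _ := by ring
  refine h1.trans (mul_le_mul_of_nonneg_left ?_ hr)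
  exact cs2 hw0 _ _ (wrow hH hb hw x)
    (wrow hH hb' hw' z)

theorem cmp_tri (hH : RealSym H0) (hb : ∀ x, (b x).im < 0) (hb' : ∀ x, (b' x).im < 0)
    (hb'' : ∀ x, (b'' x).im < 0) (hw0 : ∀ x, 0 ≤ w x) (hw : ∀ x, w x ≤ -(b x).im)
    (hw' : ∀ x, w x ≤ -(b' x).im) (hw'' : ∀ x, w x ≤ -(b'' x).im) {d f : ι → ℂ} {r s : ℝ}
    (hr : 0 ≤ r) (hs : 0 ≤ s) (hd : ∀ y, ‖d y‖ ≤ r * w y) (hf : ∀ y, ‖f y‖ ≤ s * w y) (x : ι) :
    ‖(rsc H0 b * diagonal d * rsc H0 b' * diagonal f * rsc H0 b'') x x‖ ≤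
      r * s * √(‖rsc H0 b x x‖ * ‖rsc H0 b'' x x‖) := by
  set V : ι → ℂ := fun y => (rsc H0 b * diagonal d * rsc H0 b') x y with hV
  have h1 : ∀ y, V y = ∑ z, rsc H0 b' y z *
      ((√(w z) : ℂ) * (((√(w z))⁻¹ : ℂ) * d z * rsc H0 b x z)) := by
    intro y
    rw [hV]
    simp only []
    rw [Matrix.mul_apply]
    refine Finset.sum_congr rfl fun z _ => ?_
    rw [Matrix.mul_diagonal, rsc_symm hH b' z y, ← sw_eq hw0 hd z (rsc H0 b x z)]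
    ring
  have h2 : ∑ y, w y * ‖V y‖ ^ 2 ≤ r ^ 2 * ‖rsc H0 b x x‖ := by
    calc ∑ y, w y * ‖V y‖ ^ 2 = ∑ y, w y * ‖∑ z, rsc H0 b' y z *
          ((√(w z) : ℂ) * (((√(w z))⁻¹ : ℂ) * d z * rsc H0 b x z))‖ ^ 2 :=
          Finset.sum_congr rfl fun y _ => by rw [h1 y]
      _ ≤ ∑ z, ‖((√(w z))⁻¹ : ℂ) * d z * rsc H0 b x z‖ ^ 2 := wop hH hb' hw0 hw' _
      _ ≤ r ^ 2 * ∑ z, w z * ‖rsc H0 b x z‖ ^ 2 := vec_sq hw0 hd _
      _ ≤ r ^ 2 * ‖rsc H0 b x x‖ := mul_le_mul_of_nonneg_left (wrow hH hb hw x) (sq_nonneg _)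
  have h3 : ‖(rsc H0 b * diagonal d * rsc H0 b' * diagonal f * rsc H0 b'') x x‖ ≤
      s * ∑ y, w y * (‖V y‖ * ‖rsc H0 b'' x y‖) := by
    rw [Matrix.mul_apply, Finset.mul_sum]
    refine (norm_sum_le _ _).trans (Finset.sum_le_sum fun y _ => ?_)
    rw [Matrix.mul_diagonal, norm_mul, norm_mul, rsc_symm hH b'' y x]
    calc ‖(rsc H0 b * diagonal d * rsc H0 b') x y‖ * ‖f y‖ * ‖rsc H0 b'' x y‖
        ≤ ‖V y‖ * (s * w y) * ‖rsc H0 b'' x y‖ := by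
          gcongr
          exact hf y
      _ = _ := by ring
  refine h3.trans ?_
  have h4 := cs2 hw0 (fun y => ‖V y‖) (fun y => ‖rsc H0 b'' x y‖) h2 (wrow hH hb'' hw'' x)
  have h5 : √(r ^ 2 * ‖rsc H0 b x x‖ * ‖rsc H0 b'' x x‖) =
      r * √(‖rsc H0 b x x‖ * ‖rsc H0 b'' x x‖) := by
    rw [mul_assoc, Real.sqrt_mul (sq_nonneg r), Real.sqrt_sq hr]
  rw [h5] at h4
  calc s * ∑ y, w y * (‖V y‖ * ‖rsc H0 b'' x y‖)
      ≤ s * (r * √(‖rsc H0 b x x‖ * ‖rsc H0 b'' x x‖)) := mul_le_mul_of_nonneg_left h4 hs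
    _ = _ := by ring

end Pool.Agent.GSC
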