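import Pool.Agent.GSC.Cmp

/-! # GSC Obs: change of observables between two media `b`, `b'` with `|b' - b| ≤ r w`.

`G = rsc H0 b`, `G' = rsc H0 b'`, `0 ≤ w ≤ -Im b, -Im b'`, `|b'_y - b_y| ≤ r w_y`, `0 ≤ om ≤ w`.
* `wD`: `∑_x w_x |∑_y G_xy d_y f_y|² ≤ r² ∑_y w_y |f_y|²` for `|d| ≤ r w`.
* `obs_abs`, `obs_sq`: `∑ om_y ||G'_xy|² - |G_xy|²|, ∑ om_y |G'_xy² - G_xy²| ≤ (2 r + r²) |G_xx|`.
* `obs_four`: `∑ om |G'_xy|⁴ ≤ (1+s)³ ∑ om |G_xy|⁴ + (1+1/s)³ r⁴ |G_xx|² Cm`, `Cm ≥ max |G'_zz|`,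
  for every `s > 0`.
* `form_w`: `F' ≤ ((1+r)/(1-r))² F` for `F = ∑ w_x |G_xy|² w_y (u_x - u_y)²`, `F'` the same with `G'`.
* `form_eta`: for `|b' - b| ≤ r (-Im b)`, `r ≤ 1/8`: `(1 - 6r) Q ≤ Q' ≤ (1 + 10 r) Q`,
  `Q = ∑ η_x |G_xy|² η_y (u_x - u_y)²`, `Q' = ∑ η'_x |G'_xy|² η'_y (u_x - u_y)²`, `η = -Im b`, `η' = -Im b'`.
-/

open Matrix Finset

noncomputable section

namespace Pool.Agent.GSC

open Pool.Agent.Kin Pool.Agent.APS

/-! ## weighted `ℓ²` and `ℓ⁴` inequalities -/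

section Mink

variable {κ : Type} {s : Finset κ} {w : κ → ℝ}

lemma cs_w (hw : ∀ i ∈ s, 0 ≤ w i) (f g : κ → ℝ) :
    ∑ i ∈ s, w i * (f i * g i) ≤ √(∑ i ∈ s, w i * f i ^ 2) * √(∑ i ∈ s, w i * g i ^ 2) := by
  have h1 : ∑ i ∈ s, w i * (f i * g i) = ∑ i ∈ s, (√(w i) * f i) * (√(w i) * g i) := by
    refine Finset.sum_congr rfl fun y hy => ?_
    have := Real.mul_self_sqrt (hw y hy)
    calc w y * (f y * g y) = (√(w y) * √(w y)) * (f y * g y) := by rw [this]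
      _ = _ := by ring
  rw [h1]
  refine (Real.sum_mul_le_sqrt_mul_sqrt _ _ _).trans (le_of_eq ?_)
  have h2 : ∀ f : κ → ℝ, ∑ y ∈ s, (√(w y) * f y) ^ 2 = ∑ y ∈ s, w y * f y ^ 2 := fun f =>
    Finset.sum_congr rfl fun y hy => by rw [mul_pow, Real.sq_sqrt (hw y hy)]
  rw [h2, h2]

/-- Minkowski in the form `√(∑ w |a + b|²) ≤ √(∑ w |a|²) + √(∑ w |b|²)` -/
lemma mink2 (hw : ∀ i ∈ s, 0 ≤ w i) (a b : κ → ℂ) :
    √(∑ i ∈ s, w i * ‖a i + b i‖ ^ 2) ≤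
      √(∑ i ∈ s, w i * ‖a i‖ ^ 2) + √(∑ i ∈ s, w i * ‖b i‖ ^ 2) := by
  set A := ∑ i ∈ s, w i * ‖a i‖ ^ 2 with hA
  set B := ∑ i ∈ s, w i * ‖b i‖ ^ 2 with hB
  have hA0 : 0 ≤ A := Finset.sum_nonneg fun i hi => mul_nonneg (hw i hi) (sq_nonneg _)
  have hB0 : 0 ≤ B := Finset.sum_nonneg fun i hi => mul_nonneg (hw i hi) (sq_nonneg _)
  rw [Real.sqrt_le_left (by positivity)]
  have h1 := cs_w hw (fun i => ‖a i‖) (fun i => ‖b i‖)
  have h2 : ∑ i ∈ s, w i * ‖a i + b i‖ ^ 2 ≤ A + 2 * ∑ i ∈ s, w i * (‖a i‖ * ‖b i‖) + B := by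
    rw [hA, hB, Finset.mul_sum, ← Finset.sum_add_distrib, ← Finset.sum_add_distrib]
    refine Finset.sum_le_sum fun i hi => ?_
    have h3 : ‖a i + b i‖ ^ 2 ≤ (‖a i‖ + ‖b i‖) ^ 2 :=
      pow_le_pow_left₀ (norm_nonneg _) (norm_add_le _ _) 2
    have h4 := mul_le_mul_of_nonneg_left h3 (hw i hi)
    linarith
  have h3 : (√A + √B) ^ 2 = A + 2 * (√A * √B) + B := by
    rw [add_sq, Real.sq_sqrt hA0, Real.sq_sqrt hB0]
    ring
  rw [h3]
  linarith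

/-- convexity of `t⁴` -/
lemma four_add {A B σ : ℝ} (hA : 0 ≤ A) (hB : 0 ≤ B) (hs : 0 < σ) :
    (A + B) ^ 4 ≤ (1 + σ) ^ 3 * A ^ 4 + (1 + 1 / σ) ^ 3 * B ^ 4 := by
  have h0 := (convexOn_pow (𝕜 := ℝ) 4).2
  have h1 := @h0 ((1 + σ) * A) (Set.mem_Ici.2 (by positivity)) ((1 + 1 / σ) * B)
    (Set.mem_Ici.2 (by positivity)) (1 / (1 + σ)) (σ / (1 + σ)) (by positivity) (by positivity)
    (by field_simp)
  simp only [smul_eq_mul] at h1
  have e1 : 1 / (1 + σ) * ((1 + σ) * A) + σ / (1 + σ) * ((1 + 1 / σ) * B) = A + B := by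
    field_simp
    ring
  have e2 : 1 / (1 + σ) * ((1 + σ) * A) ^ 4 + σ / (1 + σ) * ((1 + 1 / σ) * B) ^ 4 =
      (1 + σ) ^ 3 * A ^ 4 + (1 + 1 / σ) ^ 3 * B ^ 4 := by
    field_simp
    ring
  rw [e1, e2] at h1
  exact h1

end Mink

variable {ι : Type} [Fintype ι] [DecidableEq ι]
variable {H0 : Matrix ι ι ℂ} {b b' : ι → ℂ} {w om : ι → ℝ} {r : ℝ}

/-- `√w G d √w⁻¹` has norm `≤ r` -/
theorem wD (hH : RealSym H0) (hb : ∀ x, (b x).im < 0)
    (hw0 : ∀ x, 0 ≤ w x) (hw : ∀ x, w x ≤ -(b x).im) {d : ι → ℂ}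
    (hd : ∀ y, ‖d y‖ ≤ r * w y) (f : ι → ℂ) :
    ∑ x, w x * ‖∑ y, rsc H0 b x y * (d y * f y)‖ ^ 2 ≤ r ^ 2 * ∑ y, w y * ‖f y‖ ^ 2 := by
  have h0 : ∀ z, d z * f z = (√(w z) : ℂ) * (((√(w z))⁻¹ : ℂ) * d z * f z) := by
    intro z
    rcases (hw0 z).eq_or_lt with h | h
    · have h1 : d z = 0 := by
        have := hd z
        rw [← h, mul_zero] at this
        exact norm_le_zero_iff.1 this
      rw [h1]
      simp
    · have h1 : (√(w z) : ℂ) ≠ 0 := by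
        rw [Ne, Complex.ofReal_eq_zero]
        exact (Real.sqrt_pos.2 h).ne'
      field_simp
  calc ∑ x, w x * ‖∑ y, rsc H0 b x y * (d y * f y)‖ ^ 2
      = ∑ x, w x * ‖∑ y, rsc H0 b x y * ((√(w y) : ℂ) * (((√(w y))⁻¹ : ℂ) * d y * f y))‖ ^ 2 := by
        refine Finset.sum_congr rfl fun x _ => ?_
        congr 3
        refine Finset.sum_congr rfl fun y _ => ?_
        rw [h0 y]
    _ ≤ ∑ y, ‖((√(w y))⁻¹ : ℂ) * d y * f y‖ ^ 2 := wop hH hb hw0 hw _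
    _ ≤ r ^ 2 * ∑ y, w y * ‖f y‖ ^ 2 := by
        rw [Finset.mul_sum]
        refine Finset.sum_le_sum fun z _ => ?_
        rcases (hw0 z).eq_or_lt with h | h
        · have h1 : d z = 0 := by
            have := hd z
            rw [← h, mul_zero] at this
            exact norm_le_zero_iff.1 this
          rw [h1, ← h]
          simp
        · have h1 : 0 < √(w z) := Real.sqrt_pos.2 h
          rw [norm_mul, norm_mul, norm_inv, Complex.norm_real, Real.norm_of_nonneg h1.le, mul_pow,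
            mul_pow, inv_pow, Real.sq_sqrt h.le]
          have h2 : ‖d z‖ ^ 2 ≤ (r * w z) ^ 2 := pow_le_pow_left₀ (norm_nonneg _) (hd z) 2
          calc (w z)⁻¹ * ‖d z‖ ^ 2 * ‖f z‖ ^ 2 ≤ (w z)⁻¹ * (r * w z) ^ 2 * ‖f z‖ ^ 2 := by
                gcongr
            _ = r ^ 2 * (w z * ‖f z‖ ^ 2) := by
                field_simp

/-- weighted Hilbert-Schmidt norm -/
def Nw (w : ι → ℝ) (K : ι → ι → ℂ) : ℝ := √(∑ x, ∑ z, (w x * w z) * ‖K x z‖ ^ 2)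

omit [DecidableEq ι] in
lemma Nw_add (hw0 : ∀ x, 0 ≤ w x) (K L : ι → ι → ℂ) :
    Nw w (fun x z => K x z + L x z) ≤ Nw w K + Nw w L := by
  unfold Nw
  have h := mink2 (s := (Finset.univ : Finset (ι × ι))) (w := fun p => w p.1 * w p.2)
    (fun p _ => mul_nonneg (hw0 _) (hw0 _)) (fun p => K p.1 p.2) (fun p => L p.1 p.2)
  rw [Fintype.sum_prod_type, Fintype.sum_prod_type, Fintype.sum_prod_type] at h
  exact h

omit [DecidableEq ι] in
lemma Nw_le (_hw0 : ∀ x, 0 ≤ w x) (hr : 0 ≤ r) {K L : ι → ι → ℂ}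
    (h : ∑ x, ∑ z, (w x * w z) * ‖K x z‖ ^ 2 ≤ r ^ 2 * ∑ x, ∑ z, (w x * w z) * ‖L x z‖ ^ 2) :
    Nw w K ≤ r * Nw w L := by
  unfold Nw
  have e1 : r * √(∑ x, ∑ z, (w x * w z) * ‖L x z‖ ^ 2) =
      √(r ^ 2 * ∑ x, ∑ z, (w x * w z) * ‖L x z‖ ^ 2) := by
    rw [Real.sqrt_mul (sq_nonneg r), Real.sqrt_sq hr]
  rw [e1]
  exact Real.sqrt_le_sqrt h

omit [DecidableEq ι] in
lemma Nw_sq (hw0 : ∀ x, 0 ≤ w x) (g : ι → ι → ℂ) (u : ι → ℝ) :
    Nw w (fun x z => g x z * ((u z : ℂ) - u x)) ^ 2 =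
      ∑ x, ∑ z, w x * ‖g x z‖ ^ 2 * w z * (u x - u z) ^ 2 := by
  unfold Nw
  rw [Real.sq_sqrt (Finset.sum_nonneg fun x _ => Finset.sum_nonneg fun z _ =>
    mul_nonneg (mul_nonneg (hw0 _) (hw0 _)) (sq_nonneg _))]
  refine Finset.sum_congr rfl fun x _ => Finset.sum_congr rfl fun z _ => ?_
  rw [norm_mul, mul_pow]
  have e1 : ‖(u z : ℂ) - u x‖ ^ 2 = (u x - u z) ^ 2 := by
    rw [← Complex.ofReal_sub, Complex.norm_real, Real.norm_eq_abs, sq_abs]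
    ring
  rw [e1]
  ring

/-- commutator identity `[G', u] = [G, u] - [G, u] d G' - G d [G', u]`, `d = b' - b` -/
lemma com_id (hH : RealSym H0) (hb : ∀ x, (b x).im < 0) (hb' : ∀ x, (b' x).im < 0) (u : ι → ℝ)
    (x z : ι) :
    rsc H0 b' x z * ((u z : ℂ) - u x) = rsc H0 b x z * ((u z : ℂ) - u x) +
      (-(∑ y, rsc H0 b' z y * ((b' y - b y) * (rsc H0 b x y * ((u y : ℂ) - u x)))) +
        -(∑ y, rsc H0 b x y * ((b' y - b y) * (rsc H0 b' y z * ((u z : ℂ) - u y))))) := by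
  have hent : rsc H0 b x z - rsc H0 b' x z =
      ∑ y, rsc H0 b x y * (b' y - b y) * rsc H0 b' y z := by
    have e1 := congrFun (congrFun (rsc_sub hH hb hb') x) z
    rw [Matrix.sub_apply, Matrix.mul_apply] at e1
    rw [e1]
    refine Finset.sum_congr rfl fun y _ => ?_
    rw [Matrix.mul_diagonal]
  have e1 : rsc H0 b' x z * ((u z : ℂ) - u x) = rsc H0 b x z * ((u z : ℂ) - u x) -
      (∑ y, rsc H0 b x y * (b' y - b y) * rsc H0 b' y z) * ((u z : ℂ) - u x) := by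
    rw [← hent]
    ring
  rw [e1, sub_eq_add_neg]
  congr 1
  rw [← neg_add, Finset.sum_mul, ← Finset.sum_add_distrib]
  congr 1
  refine Finset.sum_congr rfl fun y _ => ?_
  rw [rsc_symm hH b' z y]
  ring

section Two

variable (hH : RealSym H0) (hb : ∀ x, (b x).im < 0) (hb' : ∀ x, (b' x).im < 0)
  (hw0 : ∀ x, 0 ≤ w x) (hw : ∀ x, w x ≤ -(b x).im) (hw' : ∀ x, w x ≤ -(b' x).im)
  (hr : 0 ≤ r) (hd : ∀ y, ‖b' y - b y‖ ≤ r * w y)
include hH hb hb' hw0 hw hw' hr hd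

private lemma dif_sum (hom0 : ∀ x, 0 ≤ om x) (hom : ∀ x, om x ≤ w x) (x : ι) :
    ∑ y, om y * (‖rsc H0 b' x y - rsc H0 b x y‖ *
      (2 * ‖rsc H0 b x y‖ + ‖rsc H0 b' x y - rsc H0 b x y‖)) ≤ (2 * r + r ^ 2) * ‖rsc H0 b x x‖ := by
  have h1 := cmp_row hH hb hb' hw0 hw hw' hd x
  have h2 := wrow hH hb hw x
  have h3 := cs_w (s := Finset.univ) (w := om) (fun i _ => hom0 i)
    (fun y => ‖rsc H0 b' x y - rsc H0 b x y‖) (fun y => ‖rsc H0 b x y‖)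
  have h4 : ∑ y, om y * ‖rsc H0 b' x y - rsc H0 b x y‖ ^ 2 ≤ r ^ 2 * ‖rsc H0 b x x‖ := by
    refine le_trans (Finset.sum_le_sum fun y _ => ?_) h1
    rw [norm_sub_rev]
    exact mul_le_mul_of_nonneg_right (hom y) (sq_nonneg _)
  have h5 : ∑ y, om y * ‖rsc H0 b x y‖ ^ 2 ≤ ‖rsc H0 b x x‖ := by
    refine le_trans (Finset.sum_le_sum fun y _ => ?_) h2
    exact mul_le_mul_of_nonneg_right (hom y) (sq_nonneg _)
  have h6 : √(∑ y, om y * ‖rsc H0 b' x y - rsc H0 b x y‖ ^ 2) *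
      √(∑ y, om y * ‖rsc H0 b x y‖ ^ 2) ≤ r * ‖rsc H0 b x x‖ := by
    calc _ ≤ √(r ^ 2 * ‖rsc H0 b x x‖) * √(‖rsc H0 b x x‖) :=
          mul_le_mul (Real.sqrt_le_sqrt h4) (Real.sqrt_le_sqrt h5) (Real.sqrt_nonneg _)
            (Real.sqrt_nonneg _)
      _ = r * ‖rsc H0 b x x‖ := by
          rw [Real.sqrt_mul (sq_nonneg r), Real.sqrt_sq hr, mul_assoc,
            Real.mul_self_sqrt (norm_nonneg _)]
  have h7 : ∑ y, om y * (‖rsc H0 b' x y - rsc H0 b x y‖ *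
      (2 * ‖rsc H0 b x y‖ + ‖rsc H0 b' x y - rsc H0 b x y‖)) =
      2 * ∑ y, om y * (‖rsc H0 b' x y - rsc H0 b x y‖ * ‖rsc H0 b x y‖) +
        ∑ y, om y * ‖rsc H0 b' x y - rsc H0 b x y‖ ^ 2 := by
    rw [Finset.mul_sum, ← Finset.sum_add_distrib]
    refine Finset.sum_congr rfl fun y _ => ?_
    ring
  rw [h7]
  linarith

/-- change of `∑ om |G_xy|²` -/
theorem obs_abs (hom0 : ∀ x, 0 ≤ om x) (hom : ∀ x, om x ≤ w x) (x : ι) :
    ∑ y, om y * |‖rsc H0 b' x y‖ ^ 2 - ‖rsc H0 b x y‖ ^ 2| ≤ (2 * r + r ^ 2) * ‖rsc H0 b x x‖ := by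
  refine le_trans (Finset.sum_le_sum fun y _ => ?_)
    (dif_sum hH hb hb' hw0 hw hw' hr hd hom0 hom x)
  refine mul_le_mul_of_nonneg_left ?_ (hom0 y)
  set g := rsc H0 b x y
  set g' := rsc H0 b' x y
  have h1 : ‖g'‖ ≤ ‖g‖ + ‖g' - g‖ := by
    calc ‖g'‖ = ‖g + (g' - g)‖ := by rw [add_sub_cancel]
      _ ≤ _ := norm_add_le _ _
  have h2 : |‖g'‖ - ‖g‖| ≤ ‖g' - g‖ := abs_norm_sub_norm_le _ _
  have h3 : ‖g'‖ ^ 2 - ‖g‖ ^ 2 = (‖g'‖ - ‖g‖) * (‖g'‖ + ‖g‖) := by ring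
  rw [h3, abs_mul, abs_of_nonneg (by positivity : 0 ≤ ‖g'‖ + ‖g‖)]
  refine mul_le_mul h2 (by linarith) (by positivity) (norm_nonneg _)

/-- change of `∑ om G_xy²` -/
theorem obs_sq (hom0 : ∀ x, 0 ≤ om x) (hom : ∀ x, om x ≤ w x) (x : ι) :
    ∑ y, om y * ‖rsc H0 b' x y ^ 2 - rsc H0 b x y ^ 2‖ ≤ (2 * r + r ^ 2) * ‖rsc H0 b x x‖ := by
  refine le_trans (Finset.sum_le_sum fun y _ => ?_)
    (dif_sum hH hb hb' hw0 hw hw' hr hd hom0 hom x)
  refine mul_le_mul_of_nonneg_left ?_ (hom0 y)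
  set g := rsc H0 b x y
  set g' := rsc H0 b' x y
  have h3 : g' ^ 2 - g ^ 2 = (g' - g) * (2 * g + (g' - g)) := by ring
  rw [h3, norm_mul]
  refine mul_le_mul_of_nonneg_left ?_ (norm_nonneg _)
  refine (norm_add_le _ _).trans (add_le_add (le_of_eq ?_) le_rfl)
  rw [norm_mul]
  norm_num

/-- the differences in `ℓ⁴` -/
theorem dif_four (hom : ∀ x, om x ≤ w x) {Cm : ℝ}
    (hCm : ∀ z, ‖rsc H0 b' z z‖ ≤ Cm) (x : ι) :
    ∑ y, om y * ‖rsc H0 b' x y - rsc H0 b x y‖ ^ 4 ≤ r ^ 4 * ‖rsc H0 b x x‖ ^ 2 * Cm := by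
  have h1 := cmp_row hH hb hb' hw0 hw hw' hd x
  have hCm0 : 0 ≤ Cm := (norm_nonneg _).trans (hCm x)
  have h2 : ∀ y, ‖rsc H0 b' x y - rsc H0 b x y‖ ^ 2 ≤ r ^ 2 * (‖rsc H0 b x x‖ * Cm) := by
    intro y
    have h3 := cmp_ent hH hb hb' hw0 hw hw' hr hd x y
    rw [norm_sub_rev]
    calc ‖rsc H0 b x y - rsc H0 b' x y‖ ^ 2 ≤ (r * √(‖rsc H0 b x x‖ * ‖rsc H0 b' y y‖)) ^ 2 :=
          pow_le_pow_left₀ (norm_nonneg _) h3 2
      _ = r ^ 2 * (‖rsc H0 b x x‖ * ‖rsc H0 b' y y‖) := by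
          rw [mul_pow, Real.sq_sqrt (by positivity)]
      _ ≤ _ := by
          have := hCm y
          gcongr
  calc ∑ y, om y * ‖rsc H0 b' x y - rsc H0 b x y‖ ^ 4
      ≤ ∑ y, (r ^ 2 * (‖rsc H0 b x x‖ * Cm)) *
          (w y * ‖rsc H0 b x y - rsc H0 b' x y‖ ^ 2) := by
        refine Finset.sum_le_sum fun y _ => ?_
        have h3 := h2 y
        have h4 : 0 ≤ ‖rsc H0 b' x y - rsc H0 b x y‖ ^ 2 := sq_nonneg _
        calc om y * ‖rsc H0 b' x y - rsc H0 b x y‖ ^ 4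
            = om y * (‖rsc H0 b' x y - rsc H0 b x y‖ ^ 2 * ‖rsc H0 b' x y - rsc H0 b x y‖ ^ 2) := by
              ring
          _ ≤ w y * (r ^ 2 * (‖rsc H0 b x x‖ * Cm) * ‖rsc H0 b' x y - rsc H0 b x y‖ ^ 2) := by
              refine mul_le_mul (hom y) (mul_le_mul_of_nonneg_right h3 h4) (by positivity) (hw0 y)
          _ = _ := by
              rw [norm_sub_rev (rsc H0 b' x y)]
              ring
    _ = (r ^ 2 * (‖rsc H0 b x x‖ * Cm)) * ∑ y, w y * ‖rsc H0 b x y - rsc H0 b' x y‖ ^ 2 := by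
        rw [Finset.mul_sum]
    _ ≤ (r ^ 2 * (‖rsc H0 b x x‖ * Cm)) * (r ^ 2 * ‖rsc H0 b x x‖) :=
        mul_le_mul_of_nonneg_left h1 (by positivity)
    _ = _ := by ring

/-- change of the quartic sums -/
theorem obs_four (hom0 : ∀ x, 0 ≤ om x) (hom : ∀ x, om x ≤ w x) {Cm σ : ℝ}
    (hCm : ∀ z, ‖rsc H0 b' z z‖ ≤ Cm) (hσ : 0 < σ) (x : ι) :
    ∑ y, om y * ‖rsc H0 b' x y‖ ^ 4 ≤
      (1 + σ) ^ 3 * ∑ y, om y * ‖rsc H0 b x y‖ ^ 4 +
        (1 + 1 / σ) ^ 3 * (r ^ 4 * ‖rsc H0 b x x‖ ^ 2 * Cm) := by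
  have h1 := dif_four hH hb hb' hw0 hw hw' hr hd hom hCm x
  calc ∑ y, om y * ‖rsc H0 b' x y‖ ^ 4
      ≤ ∑ y, ((1 + σ) ^ 3 * (om y * ‖rsc H0 b x y‖ ^ 4) +
          (1 + 1 / σ) ^ 3 * (om y * ‖rsc H0 b' x y - rsc H0 b x y‖ ^ 4)) := by
        refine Finset.sum_le_sum fun y _ => ?_
        have h2 : ‖rsc H0 b' x y‖ ≤ ‖rsc H0 b x y‖ + ‖rsc H0 b' x y - rsc H0 b x y‖ := by
          calc ‖rsc H0 b' x y‖ = ‖rsc H0 b x y + (rsc H0 b' x y - rsc H0 b x y)‖ := by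
                rw [add_sub_cancel]
            _ ≤ _ := norm_add_le _ _
        have h3 := (pow_le_pow_left₀ (norm_nonneg _) h2 4).trans
          (four_add (norm_nonneg _) (norm_nonneg _) hσ)
        have h4 := mul_le_mul_of_nonneg_left h3 (hom0 y)
        linarith
    _ = (1 + σ) ^ 3 * ∑ y, om y * ‖rsc H0 b x y‖ ^ 4 +
        (1 + 1 / σ) ^ 3 * ∑ y, om y * ‖rsc H0 b' x y - rsc H0 b x y‖ ^ 4 := by
        rw [Finset.sum_add_distrib, Finset.mul_sum, Finset.mul_sum]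
    _ ≤ _ := by
        have h5 : 0 ≤ (1 + 1 / σ) ^ 3 := by positivity
        have := mul_le_mul_of_nonneg_left h1 h5
        linarith

/-- one sided comparison of the forms with the same weight `w` -/
theorem form_w (hr1 : r < 1) (u : ι → ℝ) :
    ∑ x, ∑ z, w x * ‖rsc H0 b' x z‖ ^ 2 * w z * (u x - u z) ^ 2 ≤
      ((1 + r) / (1 - r)) ^ 2 * ∑ x, ∑ z, w x * ‖rsc H0 b x z‖ ^ 2 * w z * (u x - u z) ^ 2 := by
  have hcom := com_id hH hb hb' u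
  set M : ι → ι → ℂ := fun x z => rsc H0 b x z * ((u z : ℂ) - u x) with hM
  set M' : ι → ι → ℂ := fun x z => rsc H0 b' x z * ((u z : ℂ) - u x) with hM'
  set E1 : ι → ι → ℂ := fun x z => -(∑ y, rsc H0 b' z y * ((b' y - b y) * M x y)) with hE1d
  set E2 : ι → ι → ℂ := fun x z => -(∑ y, rsc H0 b x y * ((b' y - b y) * M' y z)) with hE2d
  have hE1 : Nw w E1 ≤ r * Nw w M := by
    refine Nw_le hw0 hr ?_
    rw [Finset.mul_sum]
    refine Finset.sum_le_sum fun x _ => ?_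
    have e2 := wD hH hb' hw0 hw' hd (fun y => M x y)
    calc ∑ z, (w x * w z) * ‖E1 x z‖ ^ 2
        = w x * ∑ z, w z * ‖∑ y, rsc H0 b' z y * ((b' y - b y) * M x y)‖ ^ 2 := by
          rw [Finset.mul_sum]
          refine Finset.sum_congr rfl fun z _ => ?_
          rw [hE1d]
          simp only [norm_neg]
          ring
      _ ≤ w x * (r ^ 2 * ∑ y, w y * ‖M x y‖ ^ 2) := mul_le_mul_of_nonneg_left e2 (hw0 x)
      _ = r ^ 2 * ∑ z, (w x * w z) * ‖M x z‖ ^ 2 := by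
          rw [Finset.mul_sum, Finset.mul_sum, Finset.mul_sum]
          refine Finset.sum_congr rfl fun z _ => ?_
          ring
  have hE2 : Nw w E2 ≤ r * Nw w M' := by
    refine Nw_le hw0 hr ?_
    rw [Finset.sum_comm, Finset.sum_comm (f := fun x z => w x * w z * ‖M' x z‖ ^ 2), Finset.mul_sum]
    refine Finset.sum_le_sum fun z _ => ?_
    have e2 := wD hH hb hw0 hw hd (fun y => M' y z)
    calc ∑ x, (w x * w z) * ‖E2 x z‖ ^ 2
        = w z * ∑ x, w x * ‖∑ y, rsc H0 b x y * ((b' y - b y) * M' y z)‖ ^ 2 := by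
          rw [Finset.mul_sum]
          refine Finset.sum_congr rfl fun x _ => ?_
          rw [hE2d]
          simp only [norm_neg]
          ring
      _ ≤ w z * (r ^ 2 * ∑ y, w y * ‖M' y z‖ ^ 2) := mul_le_mul_of_nonneg_left e2 (hw0 z)
      _ = r ^ 2 * ∑ x, (w x * w z) * ‖M' x z‖ ^ 2 := by
          rw [Finset.mul_sum, Finset.mul_sum, Finset.mul_sum]
          refine Finset.sum_congr rfl fun x _ => ?_
          ring
  have hM'eq : M' = fun x z => M x z + (E1 x z + E2 x z) := by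
    funext x z
    exact hcom x z
  have a1 := Nw_add hw0 M (fun x z => E1 x z + E2 x z)
  rw [← hM'eq] at a1
  have a2 := Nw_add hw0 E1 E2
  have hN0 : 0 ≤ Nw w M := Real.sqrt_nonneg _
  have hN0' : 0 ≤ Nw w M' := Real.sqrt_nonneg _
  have hfin : Nw w M' ≤ (1 + r) / (1 - r) * Nw w M := by
    rw [div_mul_eq_mul_div, le_div_iff₀ (by linarith)]
    linarith
  have hsq : Nw w M' ^ 2 ≤ ((1 + r) / (1 - r)) ^ 2 * Nw w M ^ 2 := by
    rw [← mul_pow]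
    exact pow_le_pow_left₀ hN0' hfin 2
  rw [hM', hM, Nw_sq hw0, Nw_sq hw0] at hsq
  exact hsq

end Two

section Eta

variable (hH : RealSym H0) (hb : ∀ x, (b x).im < 0) (hb' : ∀ x, (b' x).im < 0)
  (hr : 0 ≤ r) (hr1 : r ≤ 1 / 8) (hd : ∀ y, ‖b' y - b y‖ ≤ r * (-(b y).im))
include hH hb hb' hr hr1 hd

/-- comparison of the forms, weights `η = -Im b` and `η' = -Im b'` -/
theorem form_eta (u : ι → ℝ) :
    (1 - 6 * r) * ∑ x, ∑ z, (-(b x).im) * ‖rsc H0 b x z‖ ^ 2 * (-(b z).im) * (u x - u z) ^ 2 ≤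
      ∑ x, ∑ z, (-(b' x).im) * ‖rsc H0 b' x z‖ ^ 2 * (-(b' z).im) * (u x - u z) ^ 2 ∧
    ∑ x, ∑ z, (-(b' x).im) * ‖rsc H0 b' x z‖ ^ 2 * (-(b' z).im) * (u x - u z) ^ 2 ≤
      (1 + 10 * r) *
        ∑ x, ∑ z, (-(b x).im) * ‖rsc H0 b x z‖ ^ 2 * (-(b z).im) * (u x - u z) ^ 2 := by
  set e : ι → ℝ := fun x => -(b x).im with he
  set e' : ι → ℝ := fun x => -(b' x).im with he'
  have he0 : ∀ x, 0 < e x := fun x => by have := hb x; simp only [he]; linarith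
  have he0' : ∀ x, 0 < e' x := fun x => by have := hb' x; simp only [he']; linarith
  have hee : ∀ x, |e' x - e x| ≤ r * e x := by
    intro x
    have h1 : e' x - e x = -((b' x - b x).im) := by
      simp only [he, he', Complex.sub_im]
      ring
    rw [h1, abs_neg]
    exact (Complex.abs_im_le_norm _).trans (hd x)
  set w : ι → ℝ := fun x => (1 - r) * e x with hw
  have hw0 : ∀ x, 0 ≤ w x := fun x => mul_nonneg (by linarith) (he0 x).le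
  have hwe : ∀ x, w x ≤ -(b x).im := by
    intro x
    have := he0 x
    change (1 - r) * e x ≤ e x
    nlinarith
  have hwe' : ∀ x, w x ≤ -(b' x).im := by
    intro x
    have := abs_le.1 (hee x)
    change (1 - r) * e x ≤ e' x
    linarith [this.1]
  set ρ : ℝ := r / (1 - r) with hρ
  have hρ0 : 0 ≤ ρ := div_nonneg hr (by linarith)
  have hρ1 : ρ < 1 := by
    rw [hρ, div_lt_one (by linarith)]
    linarith
  have hdw : ∀ y, ‖b' y - b y‖ ≤ ρ * w y := by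
    intro y
    have h1 : ρ * w y = r * e y := by
      simp only [hρ, hw]
      have : (1 - r) ≠ 0 := by linarith
      field_simp
    rw [h1]
    exact hd y
  have hdw' : ∀ y, ‖b y - b' y‖ ≤ ρ * w y := by
    intro y
    rw [norm_sub_rev]
    exact hdw y
  have hq : (1 + ρ) / (1 - ρ) = 1 / (1 - 2 * r) := by
    have h1 : (1 - r) ≠ 0 := by linarith
    have h2 : (1 - 2 * r) ≠ 0 := by linarith
    have h3 : 1 - ρ ≠ 0 := by linarith
    rw [div_eq_div_iff h3 h2, hρ]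
    field_simp
    ring
  have f1 := form_w hH hb hb' hw0 hwe hwe' hρ0 hdw hρ1 u
  have f2 := form_w hH hb' hb hw0 hwe' hwe hρ0 hdw' hρ1 u
  rw [hq] at f1 f2
  set Q := ∑ x, ∑ z, e x * ‖rsc H0 b x z‖ ^ 2 * e z * (u x - u z) ^ 2 with hQ
  set Q' := ∑ x, ∑ z, e' x * ‖rsc H0 b' x z‖ ^ 2 * e' z * (u x - u z) ^ 2 with hQ'
  set F := ∑ x, ∑ z, w x * ‖rsc H0 b x z‖ ^ 2 * w z * (u x - u z) ^ 2 with hF
  set F' := ∑ x, ∑ z, w x * ‖rsc H0 b' x z‖ ^ 2 * w z * (u x - u z) ^ 2 with hF'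
  have hQ0 : 0 ≤ Q := Finset.sum_nonneg fun x _ => Finset.sum_nonneg fun z _ => by
    have := he0 x; have := he0 z; positivity
  have hQ0' : 0 ≤ Q' := Finset.sum_nonneg fun x _ => Finset.sum_nonneg fun z _ => by
    have := he0' x; have := he0' z; positivity
  have hFQ : F = (1 - r) ^ 2 * Q := by
    rw [hF, hQ, Finset.mul_sum]
    refine Finset.sum_congr rfl fun x _ => ?_
    rw [Finset.mul_sum]
    refine Finset.sum_congr rfl fun z _ => ?_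
    simp only [hw]
    ring
  have hF'Q' : F' ≤ Q' := by
    rw [hF', hQ']
    refine Finset.sum_le_sum fun x _ => Finset.sum_le_sum fun z _ => ?_
    have h1 := hwe' x
    have h2 := hwe' z
    have h3 := hw0 x
    have h4 := hw0 z
    have h5 := (he0' x).le
    change w x ≤ e' x at h1
    change w z ≤ e' z at h2
    gcongr
  have hQ'F' : (1 - r) ^ 2 * Q' ≤ (1 + r) ^ 2 * F' := by
    rw [hF', hQ', Finset.mul_sum, Finset.mul_sum]
    refine Finset.sum_le_sum fun x _ => ?_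
    rw [Finset.mul_sum, Finset.mul_sum]
    refine Finset.sum_le_sum fun z _ => ?_
    have h1 : (1 - r) * e' x ≤ (1 + r) * w x := by
      have := (abs_le.1 (hee x)).2
      simp only [hw]
      have h6 : (1 - r) * e' x ≤ (1 - r) * ((1 + r) * e x) :=
        mul_le_mul_of_nonneg_left (by linarith) (by linarith)
      linarith
    have h2 : (1 - r) * e' z ≤ (1 + r) * w z := by
      have := (abs_le.1 (hee z)).2
      simp only [hw]
      have h6 : (1 - r) * e' z ≤ (1 - r) * ((1 + r) * e z) :=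
        mul_le_mul_of_nonneg_left (by linarith) (by linarith)
      linarith
    have h3 : 0 ≤ (1 - r) * e' x := mul_nonneg (by linarith) (he0' x).le
    have h4 : 0 ≤ (1 + r) * w x := mul_nonneg (by linarith) (hw0 x)
    have h5 : 0 ≤ (1 - r) * e' z := mul_nonneg (by linarith) (he0' z).le
    calc (1 - r) ^ 2 * (e' x * ‖rsc H0 b' x z‖ ^ 2 * e' z * (u x - u z) ^ 2)
        = (((1 - r) * e' x) * ((1 - r) * e' z)) * (‖rsc H0 b' x z‖ ^ 2 * (u x - u z) ^ 2) := by ring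
      _ ≤ (((1 + r) * w x) * ((1 + r) * w z)) * (‖rsc H0 b' x z‖ ^ 2 * (u x - u z) ^ 2) :=
          mul_le_mul_of_nonneg_right (mul_le_mul h1 h2 h5 h4) (by positivity)
      _ = _ := by ring
  have h2r : 0 < 1 - 2 * r := by linarith
  rw [hFQ] at f1 f2
  constructor
  · -- Q ≤ ... Q'
    have h1 : (1 - r) ^ 2 * Q ≤ (1 / (1 - 2 * r)) ^ 2 * Q' :=
      f2.trans (mul_le_mul_of_nonneg_left hF'Q' (by positivity))
    have h3 : (1 - 2 * r) ^ 2 * ((1 - r) ^ 2 * Q) ≤ Q' := by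
      have h4 := mul_le_mul_of_nonneg_left h1 (sq_nonneg (1 - 2 * r))
      have h5 : (1 - 2 * r) ^ 2 * ((1 / (1 - 2 * r)) ^ 2 * Q') = Q' := by
        field_simp
      rwa [h5] at h4
    refine le_trans ?_ h3
    have h6 : (1 - 6 * r) ≤ (1 - 2 * r) ^ 2 * (1 - r) ^ 2 := by
      have h7 : ((1 - 2 * r) * (1 - r)) ^ 2 = (1 - 2 * r) ^ 2 * (1 - r) ^ 2 := by ring
      rw [← h7]
      have h8 : 1 - 3 * r ≤ (1 - 2 * r) * (1 - r) := by nlinarith [sq_nonneg r]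
      have h9 : (1 - 3 * r) ^ 2 ≤ ((1 - 2 * r) * (1 - r)) ^ 2 :=
        pow_le_pow_left₀ (by linarith) h8 2
      nlinarith [sq_nonneg r]
    calc (1 - 6 * r) * Q ≤ ((1 - 2 * r) ^ 2 * (1 - r) ^ 2) * Q := mul_le_mul_of_nonneg_right h6 hQ0
      _ = _ := by ring
  · have h1 : (1 - r) ^ 2 * Q' ≤ (1 + r) ^ 2 * ((1 / (1 - 2 * r)) ^ 2 * ((1 - r) ^ 2 * Q)) :=
      hQ'F'.trans (mul_le_mul_of_nonneg_left f1 (sq_nonneg _))
    have h3 : Q' ≤ (1 + r) ^ 2 * (1 / (1 - 2 * r)) ^ 2 * Q := by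
      have h4 : (0 : ℝ) < (1 - r) ^ 2 := pow_pos (by linarith) 2
      refine le_of_mul_le_mul_left ?_ h4
      calc (1 - r) ^ 2 * Q' ≤ _ := h1
        _ = _ := by ring
    refine h3.trans (mul_le_mul_of_nonneg_right ?_ hQ0)
    have h5 : (1 + r) ^ 2 * (1 / (1 - 2 * r)) ^ 2 = (1 + r) ^ 2 / (1 - 2 * r) ^ 2 := by
      rw [one_div, inv_pow]
      rfl
    rw [h5, div_le_iff₀ (by positivity)]
    nlinarith [mul_nonneg hr (mul_nonneg hr hr), mul_nonneg hr (sub_nonneg.2 hr1), sq_nonneg r]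

end Eta

end Pool.Agent.GSC
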