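import Pool.Agent.GSC.L1

/-! # GSC L1w: weighted `ℓ¹` bound with a weight `ω`, from the weighted sup norm bound.

`R` symmetric, `k ≥ 0`, `ω > 0`.
* `dual_w`: if `|u - R k u| ≤ v ω` implies `|u| ≤ P v ω` for all `u, v`, then
  `∑ k ω |d| ≤ P ∑ k ω |d - R k d|`  (e.g. `ω_z = e^{-μ |z - x|}`: LOCAL `ℓ¹` mass).
* `RF.l1w`: `∑ k ω |gav - γ0| ≤ 2 P ∑ k ω |diag G0 - γ0|` (same hypotheses as `RF.wt`).
-/

open Matrix Finset

noncomputable section

namespace Pool.Agent.GSC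

open Pool.Agent.Kin Pool.Agent.APS

variable {ι : Type} [Fintype ι] [DecidableEq ι]

/-- injectivity gives solvability -/
theorem solve_of_inj {R : ι → ι → ℂ} {k : ι → ℝ}
    (hinj : ∀ u : ι → ℂ, (∀ x, u x - ∑ y, R x y * ((k y : ℂ) * u y) = 0) → ∀ x, u x = 0)
    (v : ι → ℂ) : ∃ u : ι → ℂ, ∀ x, u x - ∑ y, R x y * ((k y : ℂ) * u y) = v x := by
  set A : Matrix ι ι ℂ := 1 - Matrix.of R * diagonal (fun y => (k y : ℂ)) with hA
  have hAv : ∀ (u : ι → ℂ) x, (A *ᵥ u) x =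
      u x - ∑ y, R x y * ((k y : ℂ) * u y) := by
    intro u x
    rw [hA, Matrix.sub_mulVec, Matrix.one_mulVec, ← Matrix.mulVec_mulVec, _root_.Pi.sub_apply]
    congr 1
    refine Finset.sum_congr rfl fun y _ => ?_
    rw [Matrix.mulVec_diagonal]
    rfl
  have hu : IsUnit A.det := by
    rw [isUnit_iff_ne_zero]
    intro h0
    obtain ⟨v, hv, hv0⟩ := Matrix.exists_mulVec_eq_zero_iff.2 h0
    apply hv
    funext x
    exact hinj v (fun x => by rw [← hAv, hv0]; rfl) x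
  refine ⟨A⁻¹ *ᵥ v, fun x => ?_⟩
  rw [← hAv, Matrix.mulVec_mulVec, Matrix.mul_nonsing_inv _ hu, Matrix.one_mulVec]

/-- duality: weighted `ℓ¹` bound -/
theorem dual_w {R : ι → ι → ℂ} {k om : ι → ℝ} {P : ℝ} (hR : ∀ x y, R x y = R y x)
    (hk : ∀ x, 0 ≤ k x) (hom : ∀ x, 0 < om x)
    (hsup : ∀ (u : ι → ℂ) (v : ℝ), (∀ x, ‖u x - ∑ y, R x y * ((k y : ℂ) * u y)‖ ≤ v * om x) →
      ∀ x, ‖u x‖ ≤ P * v * om x) (d : ι → ℂ) :
    ∑ x, k x * om x * ‖d x‖ ≤
      P * ∑ x, k x * om x * ‖d x - ∑ y, R x y * ((k y : ℂ) * d y)‖ := by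
  set s : ι → ℂ := fun x => (om x : ℂ) * (if d x = 0 then 0 else star (d x) / (‖d x‖ : ℂ)) with hs
  have hs1 : ∀ x, ‖s x‖ ≤ 1 * om x := by
    intro x
    simp only [hs]
    rw [norm_mul, Complex.norm_real, Real.norm_of_nonneg (hom x).le, mul_comm]
    refine mul_le_mul_of_nonneg_right ?_ (hom x).le
    split_ifs with h0
    · simp
    · rw [norm_div, norm_star, Complex.norm_real, norm_norm, div_self (norm_ne_zero_iff.2 h0)]
  have hsd : ∀ x, s x * d x = ((om x * ‖d x‖ : ℝ) : ℂ) := by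
    intro x
    simp only [hs]
    split_ifs with h0
    · rw [h0]; simp
    · have e1 : (‖d x‖ : ℂ) ≠ 0 := by simpa using h0
      rw [mul_assoc, div_mul_eq_mul_div, RCLike.star_def, Complex.conj_mul', sq, mul_div_assoc,
        div_self e1, mul_one]
      push_cast
      rfl
  obtain ⟨u, hu⟩ := solve_of_inj (R := R) (k := k) (fun u h0 x => by
    have h1 := hsup u 0 (fun x => by rw [h0 x]; simp) x
    rw [mul_zero, zero_mul] at h1
    exact norm_le_zero_iff.1 h1) s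
  have hub : ∀ x, ‖u x‖ ≤ P * om x := by
    intro x
    have h1 := hsup u 1 (fun x => by rw [hu x]; exact hs1 x) x
    rwa [mul_one] at h1
  set f : ι → ℂ := fun x => d x - ∑ y, R x y * ((k y : ℂ) * d y) with hf
  have h1 : ((∑ x, k x * om x * ‖d x‖ : ℝ) : ℂ) = ∑ x, (k x : ℂ) * (u x * f x) := by
    push_cast
    have e1 : ∀ x, (k x : ℂ) * (om x : ℂ) * (‖d x‖ : ℂ) = (k x : ℂ) * (u x * d x) -
        ∑ y, (k x : ℂ) * ((k y : ℂ) * (R x y * (u y * d x))) := by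
      intro x
      have e0 : (k x : ℂ) * (om x : ℂ) * (‖d x‖ : ℂ) = (k x : ℂ) * (s x * d x) := by
        rw [hsd x]
        push_cast
        ring
      rw [e0, ← hu x]
      have e2 : ∑ y, (k x : ℂ) * ((k y : ℂ) * (R x y * (u y * d x))) =
          (k x : ℂ) * ((∑ y, R x y * ((k y : ℂ) * u y)) * d x) := by
        rw [Finset.sum_mul, Finset.mul_sum]
        refine Finset.sum_congr rfl fun y _ => ?_
        ring
      rw [e2]
      ring
    have e3 : ∀ x, (k x : ℂ) * (u x * f x) = (k x : ℂ) * (u x * d x) -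
        ∑ y, (k y : ℂ) * ((k x : ℂ) * (R y x * (u x * d y))) := by
      intro x
      simp only [hf]
      have e2 : ∑ y, (k y : ℂ) * ((k x : ℂ) * (R y x * (u x * d y))) =
          (k x : ℂ) * (u x * ∑ y, R x y * ((k y : ℂ) * d y)) := by
        rw [Finset.mul_sum, Finset.mul_sum]
        refine Finset.sum_congr rfl fun y _ => ?_
        rw [hR y x]
        ring
      rw [e2]
      ring
    rw [Finset.sum_congr rfl fun x _ => e1 x, Finset.sum_congr rfl fun x _ => e3 x,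
      Finset.sum_sub_distrib, Finset.sum_sub_distrib]
    congr 1
    exact Finset.sum_comm
  have h2 : ∑ x, k x * om x * ‖d x‖ ≤ ‖∑ x, (k x : ℂ) * (u x * f x)‖ := by
    rw [← h1, Complex.norm_real]
    exact le_abs_self _
  refine h2.trans ((norm_sum_le _ _).trans ?_)
  rw [Finset.mul_sum]
  refine Finset.sum_le_sum fun x _ => ?_
  rw [norm_mul, norm_mul, Complex.norm_real, Real.norm_of_nonneg (hk x)]
  calc k x * (‖u x‖ * ‖f x‖) ≤ k x * (P * om x * ‖f x‖) :=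
        mul_le_mul_of_nonneg_left (mul_le_mul_of_nonneg_right (hub x) (norm_nonneg _)) (hk x)
    _ = _ := by ring

variable {H0 : Matrix ι ι ℂ} {e : ℝ} {k : ι → ℝ} {c γ0 : ι → ℂ} {th C1 a Pq : ℝ}

/-- weighted `ℓ¹` bound of the correction, `ω > 0` a weight -/
theorem RF.l1w (h : RF H0 e k c γ0 th C1 a Pq) {om : ι → ℝ} (hom : ∀ x, 0 < om x) {Pw C3 : ℝ}
    (hPw : 0 ≤ Pw)
    (hsup : ∀ (u : ι → ℂ) (m : ℝ), (∀ x, ‖u x - ∑ y, rsc H0 (bv k c γ0) x y ^ 2 *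
      ((k y : ℂ) * u y)‖ ≤ m * om x) → ∀ x, ‖u x‖ ≤ Pw * m * om x)
    (hC : ∀ x, ∑ y, k y * om y * ‖rsc H0 (bv k c γ0) x y‖ ^ 2 ≤ C3 * om x)
    (hs : 4 * Pw * C3 * Pq * a ≤ th) :
    ∑ x, k x * om x * ‖gav H0 k c x - γ0 x‖ ≤
      2 * Pw * ∑ x, k x * om x * ‖rsc H0 (bv k c γ0) x x - γ0 x‖ := by
  have hth := h.th0
  have hPq := h.Pq0
  have ha := h.a0
  set d : ι → ℂ := fun y => gav H0 k c y - γ0 y with hd
  have hρ : 2 * Pq * a ≤ th := by
    have : 0 ≤ Pq * a := by positivity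
    nlinarith [h.sm2]
  have hdb : ∀ x, ‖d x‖ ≤ 2 * Pq * a := h.main
  have h1 : ∑ x, k x * om x * ‖d x‖ ≤ Pw * ∑ x, k x * om x *
      ‖d x - ∑ y, rsc H0 (bv k c γ0) x y ^ 2 * ((k y : ℂ) * d y)‖ :=
    dual_w (R := fun x y => rsc H0 (bv k c γ0) x y ^ 2) (k := k) (om := om) (P := Pw)
      (fun x y => by rw [rsc_symm h.adm.sym]) h.adm.k0 hom hsup d
  have h2 : ∑ x, k x * om x * ‖d x - ∑ y, rsc H0 (bv k c γ0) x y ^ 2 * ((k y : ℂ) * d y)‖ ≤
      ∑ x, k x * om x * ‖rsc H0 (bv k c γ0) x x - γ0 x‖ +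
        2 * Pq * a * C3 / th * ∑ x, k x * om x * ‖d x‖ := by
    have e1 : ∀ x, k x * om x * ‖d x - ∑ y, rsc H0 (bv k c γ0) x y ^ 2 * ((k y : ℂ) * d y)‖ ≤
        k x * om x * ‖rsc H0 (bv k c γ0) x x - γ0 x‖ +
          1 / th * ∑ y, (k x * om x) * (k y * ‖d y‖ ^ 2 * ‖rsc H0 (bv k c γ0) x y‖ ^ 2) := by
      intro x
      have e2 := h.eqn x
      simp only [hd]
      rw [e2]
      have e3 := h.NN_pt hρ hdb x
      have e4 : 0 ≤ k x * om x := mul_nonneg (h.adm.k0 x) (hom x).le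
      calc k x * om x * ‖rsc H0 (bv k c γ0) x x - γ0 x +
            NN H0 k c γ0 (fun y => gav H0 k c y - γ0 y) x‖
          ≤ k x * om x * (‖rsc H0 (bv k c γ0) x x - γ0 x‖ +
            1 / th * ∑ y, k y * ‖d y‖ ^ 2 * ‖rsc H0 (bv k c γ0) x y‖ ^ 2) :=
            mul_le_mul_of_nonneg_left ((norm_add_le _ _).trans (add_le_add le_rfl e3)) e4
        _ = _ := by
            rw [mul_add, ← Finset.mul_sum]
            ring
    refine (Finset.sum_le_sum fun x _ => e1 x).trans ?_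
    rw [Finset.sum_add_distrib]
    refine add_le_add le_rfl ?_
    rw [← Finset.mul_sum, Finset.sum_comm]
    have e4 : ∀ y, ∑ x, (k x * om x) * (k y * ‖d y‖ ^ 2 * ‖rsc H0 (bv k c γ0) x y‖ ^ 2) ≤
        2 * Pq * a * C3 * (k y * om y * ‖d y‖) := by
      intro y
      have e5 : ∑ x, (k x * om x) * (k y * ‖d y‖ ^ 2 * ‖rsc H0 (bv k c γ0) x y‖ ^ 2) =
          (k y * ‖d y‖ ^ 2) * ∑ x, k x * om x * ‖rsc H0 (bv k c γ0) y x‖ ^ 2 := by
        rw [Finset.mul_sum]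
        refine Finset.sum_congr rfl fun x _ => ?_
        rw [rsc_symm h.adm.sym (bv k c γ0) y x]
        ring
      rw [e5]
      have hky := h.adm.k0 y
      have hoy := (hom y).le
      have hC3 : 0 ≤ C3 * om y := le_trans (Finset.sum_nonneg fun x _ =>
        mul_nonneg (mul_nonneg (h.adm.k0 x) (hom x).le) (sq_nonneg _)) (hC y)
      calc (k y * ‖d y‖ ^ 2) * ∑ x, k x * om x * ‖rsc H0 (bv k c γ0) y x‖ ^ 2
          ≤ (k y * ‖d y‖ ^ 2) * (C3 * om y) :=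
            mul_le_mul_of_nonneg_left (hC y) (by positivity)
        _ = ‖d y‖ * (C3 * om y * (k y * ‖d y‖)) := by ring
        _ ≤ (2 * Pq * a) * (C3 * om y * (k y * ‖d y‖)) :=
            mul_le_mul_of_nonneg_right (hdb y) (by positivity)
        _ = _ := by ring
    calc 1 / th * ∑ y, ∑ x, (k x * om x) * (k y * ‖d y‖ ^ 2 * ‖rsc H0 (bv k c γ0) x y‖ ^ 2)
        ≤ 1 / th * ∑ y, 2 * Pq * a * C3 * (k y * om y * ‖d y‖) :=
          mul_le_mul_of_nonneg_left (Finset.sum_le_sum fun y _ => e4 y) (by positivity)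
      _ = 2 * Pq * a * C3 / th * ∑ x, k x * om x * ‖d x‖ := by
          rw [← Finset.mul_sum]
          ring
  have h3 : Pw * (2 * Pq * a * C3 / th) ≤ 1 / 2 := by
    rw [mul_div_assoc', div_le_div_iff₀ hth (by norm_num)]
    nlinarith
  have hS0 : 0 ≤ ∑ x, k x * om x * ‖d x‖ :=
    Finset.sum_nonneg fun x _ => mul_nonneg (mul_nonneg (h.adm.k0 x) (hom x).le) (norm_nonneg _)
  have h5 := mul_le_mul_of_nonneg_left h2 hPw
  have h6 := mul_le_mul_of_nonneg_right h3 hS0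
  change ∑ x, k x * om x * ‖d x‖ ≤ _
  linarith

end Pool.Agent.GSC
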