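import Pool.Agent.GSC.PAbs

/-! # GSC PSchur: the `ℓ²` bound of `(1 + R κ)/2` from (H3).

* `ward_mat`: `Im G_xy = ∑_z η_z G_xz conj G_yz`, `η = -Im b`.
* `im_psd`: `∑ a_x a_y (Im G_xy)² = ∑_{z z'} η_z η_z' |∑_x a_x G_xz G_xz'|² ≥ 0`.
* `T_l2`: `∑ κ |R κ u|² ≤ ∑ κ |u|²` (Schur test with the weight `m`).
* `T_re`: `Re ∑ κ_x conj u_x (R κ u)_x ≤ (1-ε) ∑ κ |u|²` from `∑_y κ_y m_y (Re G_xy)² ≤ (1-ε) m_x`.
* `BB_l2`: `∑ κ |(u + R κ u)/2|² ≤ (1 - ε/2) ∑ κ |u|²`.
-/

open Matrix Finset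

noncomputable section

namespace Pool.Agent.GSC

open Pool.Agent.Kin Pool.Agent.APS

variable {ι : Type} [Fintype ι] [DecidableEq ι]
variable {H0 : Matrix ι ι ℂ} {b : ι → ℂ}

theorem ward_mat (hH : RealSym H0) (hb : ∀ x, (b x).im < 0) (x y : ι) :
    (((rsc H0 b x y).im : ℝ) : ℂ) =
      ∑ z, ((-(b z).im : ℝ) : ℂ) * (rsc H0 b x z * star (rsc H0 b y z)) := by
  set G := rsc H0 b with hG
  set A := H0 + diagonal b with hA
  have hu := rsc_unit hH hb
  have hGA : G * A = 1 := Matrix.nonsing_inv_mul _ hu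
  have hAG : A * G = 1 := Matrix.mul_nonsing_inv _ hu
  have hAh : Aᴴ - A = diagonal (fun z => -(2 * Complex.I * ((b z).im : ℂ))) := by
    have h0 : H0ᴴ = H0 := by
      ext i j
      rw [Matrix.conjTranspose_apply, RCLike.star_def, Complex.conj_eq_iff_im.2 (hH.real j i),
        hH.symm j i]
    rw [hA, Matrix.conjTranspose_add, h0, Matrix.diagonal_conjTranspose, add_sub_add_left_eq_sub,
      Matrix.diagonal_sub]
    congr 1
    funext z
    rw [Pi.star_apply, RCLike.star_def]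
    apply Complex.ext <;> simp
    ring
  have h1 : G - Gᴴ = G * (Aᴴ - A) * Gᴴ := by
    have e1 : Aᴴ * Gᴴ = 1 := by rw [← Matrix.conjTranspose_mul, hGA, Matrix.conjTranspose_one]
    rw [mul_sub, sub_mul, Matrix.mul_assoc G Aᴴ Gᴴ, e1, Matrix.mul_one, hGA, Matrix.one_mul]
  have h2 := congrFun (congrFun h1 x) y
  have hs : G y x = G x y := rsc_symm hH b y x
  rw [hAh, Matrix.sub_apply, Matrix.conjTranspose_apply, hs, Matrix.mul_apply] at h2
  have h3 : G x y - star (G x y) = 2 * Complex.I * ((G x y).im : ℂ) := by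
    rw [RCLike.star_def]
    apply Complex.ext <;> simp
    ring
  rw [h3] at h2
  have h4 : (2 * Complex.I : ℂ) ≠ 0 := by simp
  have h5 : ∑ z, (G * diagonal fun z => -(2 * Complex.I * ((b z).im : ℂ))) x z * Gᴴ z y =
      2 * Complex.I * ∑ z, ((-(b z).im : ℝ) : ℂ) * (G x z * star (G y z)) := by
    rw [Finset.mul_sum]
    refine Finset.sum_congr rfl fun z _ => ?_
    rw [Matrix.mul_diagonal, Matrix.conjTranspose_apply]
    push_cast
    ring
  rw [h5] at h2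
  exact mul_left_cancel₀ h4 h2

theorem im_psd (hH : RealSym H0) (hb : ∀ x, (b x).im < 0) (a : ι → ℝ) :
    0 ≤ ∑ x, ∑ y, a x * a y * (rsc H0 b x y).im ^ 2 := by
  set G := rsc H0 b with hG
  set W : ι → ι → ℂ := fun z z' => ∑ x, (a x : ℂ) * (G x z * G x z') with hW
  have h1 : ((∑ x, ∑ y, a x * a y * (G x y).im ^ 2 : ℝ) : ℂ) =
      ((∑ z, ∑ z', (-(b z).im) * (-(b z').im) * ‖W z z'‖ ^ 2 : ℝ) : ℂ) := by
    push_cast
    have e1 : ∀ x y, ((a x : ℂ)) * a y * ((G x y).im : ℂ) ^ 2 =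
        ∑ z, ∑ z', (-((b z).im : ℂ)) * (-((b z').im : ℂ)) *
          (((a x : ℂ) * (G x z * G x z')) * star ((a y : ℂ) * (G y z * G y z'))) := by
      intro x y
      have e2 := ward_mat hH hb x y
      rw [← hG] at e2
      rw [sq, e2, Finset.sum_mul_sum, Finset.mul_sum]
      refine Finset.sum_congr rfl fun z _ => ?_
      rw [Finset.mul_sum]
      refine Finset.sum_congr rfl fun z' _ => ?_
      simp only [star_mul', RCLike.star_def, Complex.conj_ofReal]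
      push_cast
      ring
    have e3 : ∀ z z', ((‖W z z'‖ : ℂ)) ^ 2 = ∑ x, ∑ y,
        (((a x : ℂ) * (G x z * G x z')) * star ((a y : ℂ) * (G y z * G y z'))) := by
      intro z z'
      have e4 : ((‖W z z'‖ : ℂ)) ^ 2 = W z z' * star (W z z') := by
        rw [RCLike.star_def, Complex.mul_conj']
      rw [e4, hW]
      simp only []
      rw [star_sum, Finset.sum_mul_sum]
    calc ∑ x, ∑ y, ((a x : ℂ)) * a y * ((G x y).im : ℂ) ^ 2
        = ∑ x, ∑ y, ∑ z, ∑ z', (-((b z).im : ℂ)) * (-((b z').im : ℂ)) *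
          (((a x : ℂ) * (G x z * G x z')) * star ((a y : ℂ) * (G y z * G y z'))) :=
          Finset.sum_congr rfl fun x _ => Finset.sum_congr rfl fun y _ => e1 x y
      _ = ∑ x, ∑ z, ∑ y, ∑ z', (-((b z).im : ℂ)) * (-((b z').im : ℂ)) *
          (((a x : ℂ) * (G x z * G x z')) * star ((a y : ℂ) * (G y z * G y z'))) :=
          Finset.sum_congr rfl fun x _ => Finset.sum_comm
      _ = ∑ z, ∑ x, ∑ y, ∑ z', (-((b z).im : ℂ)) * (-((b z').im : ℂ)) *
          (((a x : ℂ) * (G x z * G x z')) * star ((a y : ℂ) * (G y z * G y z'))) :=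
          Finset.sum_comm
      _ = ∑ z, ∑ x, ∑ z', ∑ y, (-((b z).im : ℂ)) * (-((b z').im : ℂ)) *
          (((a x : ℂ) * (G x z * G x z')) * star ((a y : ℂ) * (G y z * G y z'))) :=
          Finset.sum_congr rfl fun z _ => Finset.sum_congr rfl fun x _ => Finset.sum_comm
      _ = ∑ z, ∑ z', ∑ x, ∑ y, (-((b z).im : ℂ)) * (-((b z').im : ℂ)) *
          (((a x : ℂ) * (G x z * G x z')) * star ((a y : ℂ) * (G y z * G y z'))) :=
          Finset.sum_congr rfl fun z _ => Finset.sum_comm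
      _ = ∑ z, ∑ z', (-((b z).im : ℂ)) * (-((b z').im : ℂ)) * ((‖W z z'‖ : ℂ)) ^ 2 := by
          refine Finset.sum_congr rfl fun z _ => Finset.sum_congr rfl fun z' _ => ?_
          rw [e3, Finset.mul_sum]
          refine Finset.sum_congr rfl fun x _ => ?_
          rw [Finset.mul_sum]
  rw [Complex.ofReal_inj] at h1
  rw [h1]
  refine Finset.sum_nonneg fun z _ => Finset.sum_nonneg fun z' _ => ?_
  have h2 := hb z
  have h3 := hb z'
  exact mul_nonneg (mul_nonneg (by linarith) (by linarith)) (sq_nonneg _)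

section Schur

variable {G : Matrix ι ι ℂ} {kap m : ι → ℝ} {ep al : ℝ}

/-- the matrix `T_xy = G_xy² κ_y` -/
def TT (G : Matrix ι ι ℂ) (kap : ι → ℝ) : Matrix ι ι ℂ := fun x y => G x y ^ 2 * (kap y : ℂ)

omit [DecidableEq ι] in
theorem T_l2 (hG : ∀ x y, G x y = G y x) (hk : ∀ x, 0 ≤ kap x) (hm : ∀ x, 0 < m x)
    (hal : 0 ≤ al) (ha : ∀ x, ∑ y, kap y * m y * ‖G x y‖ ^ 2 ≤ (1 + al) * m x) (u : ι → ℂ) :
    ∑ x, kap x * ‖(TT G kap *ᵥ u) x‖ ^ 2 ≤ (1 + al) ^ 2 * ∑ x, kap x * ‖u x‖ ^ 2 := by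
  have h1 : ∀ x, ‖(TT G kap *ᵥ u) x‖ ^ 2 ≤
      (1 + al) * m x * ∑ y, ‖G x y‖ ^ 2 * kap y * (‖u y‖ ^ 2 / m y) := by
    intro x
    have e1 : ‖(TT G kap *ᵥ u) x‖ ≤ ∑ y, ‖G x y‖ ^ 2 * kap y * ‖u y‖ := by
      refine (norm_sum_le _ _).trans (Finset.sum_le_sum fun y _ => ?_)
      rw [norm_mul]
      unfold TT
      rw [norm_mul, norm_pow, Complex.norm_real, Real.norm_of_nonneg (hk y)]
    have e2 : (∑ y, ‖G x y‖ ^ 2 * kap y * ‖u y‖) ^ 2 ≤
        (∑ y, kap y * m y * ‖G x y‖ ^ 2) * ∑ y, ‖G x y‖ ^ 2 * kap y * (‖u y‖ ^ 2 / m y) := by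
      refine Finset.sum_sq_le_sum_mul_sum_of_sq_le_mul _ (fun y _ => ?_) (fun y _ => ?_)
        (fun y _ => ?_)
      · exact mul_nonneg (mul_nonneg (hk y) (hm y).le) (sq_nonneg _)
      · exact mul_nonneg (mul_nonneg (sq_nonneg _) (hk y)) (div_nonneg (sq_nonneg _) (hm y).le)
      · have := (hm y).ne'
        apply le_of_eq
        field_simp
    have e3 : 0 ≤ ∑ y, ‖G x y‖ ^ 2 * kap y * (‖u y‖ ^ 2 / m y) :=
      Finset.sum_nonneg fun y _ =>
        mul_nonneg (mul_nonneg (sq_nonneg _) (hk y)) (div_nonneg (sq_nonneg _) (hm y).le)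
    calc ‖(TT G kap *ᵥ u) x‖ ^ 2 ≤ (∑ y, ‖G x y‖ ^ 2 * kap y * ‖u y‖) ^ 2 :=
          pow_le_pow_left₀ (norm_nonneg _) e1 2
      _ ≤ _ := e2
      _ ≤ _ := mul_le_mul_of_nonneg_right (ha x) e3
  calc ∑ x, kap x * ‖(TT G kap *ᵥ u) x‖ ^ 2
      ≤ ∑ x, kap x * ((1 + al) * m x * ∑ y, ‖G x y‖ ^ 2 * kap y * (‖u y‖ ^ 2 / m y)) :=
        Finset.sum_le_sum fun x _ => mul_le_mul_of_nonneg_left (h1 x) (hk x)
    _ = ∑ x, ∑ y, (kap x * m x * ‖G y x‖ ^ 2) * ((1 + al) * (kap y * (‖u y‖ ^ 2 / m y))) := by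
        refine Finset.sum_congr rfl fun x _ => ?_
        rw [Finset.mul_sum, Finset.mul_sum]
        refine Finset.sum_congr rfl fun y _ => ?_
        rw [hG y x]
        ring
    _ = ∑ y, (∑ x, kap x * m x * ‖G y x‖ ^ 2) * ((1 + al) * (kap y * (‖u y‖ ^ 2 / m y))) := by
        rw [Finset.sum_comm]
        refine Finset.sum_congr rfl fun y _ => ?_
        rw [Finset.sum_mul]
    _ ≤ ∑ y, (1 + al) * m y * ((1 + al) * (kap y * (‖u y‖ ^ 2 / m y))) := by
        refine Finset.sum_le_sum fun y _ => mul_le_mul_of_nonneg_right (ha y) ?_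
        exact mul_nonneg (by linarith) (mul_nonneg (hk y) (div_nonneg (sq_nonneg _) (hm y).le))
    _ = _ := by
        rw [Finset.mul_sum]
        refine Finset.sum_congr rfl fun y _ => ?_
        have := (hm y).ne'
        field_simp

omit [DecidableEq ι] in
/-- Schur test for a real vector -/
private lemma real_form (hG : ∀ x y, G x y = G y x) (hk : ∀ x, 0 ≤ kap x) (hm : ∀ x, 0 < m x)
    (hb : ∀ x, ∑ y, kap y * m y * (G x y).re ^ 2 ≤ (1 - ep) * m x)
    (hc : ∀ a : ι → ℝ, 0 ≤ ∑ x, ∑ y, a x * a y * (G x y).im ^ 2) (a : ι → ℝ) :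
    ∑ x, ∑ y, kap x * a x * (kap y * a y) * (G x y ^ 2).re ≤ (1 - ep) * ∑ x, kap x * a x ^ 2 := by
  have h1 : ∀ x y, (G x y ^ 2).re = (G x y).re ^ 2 - (G x y).im ^ 2 := by
    intro x y
    rw [sq, Complex.mul_re]
    ring
  have h2 := hc (fun x => kap x * a x)
  have h3 : ∑ x, ∑ y, kap x * a x * (kap y * a y) * (G x y).re ^ 2 ≤
      (1 - ep) * ∑ x, kap x * a x ^ 2 := by
    have e1 : ∀ x y, kap x * a x * (kap y * a y) * (G x y).re ^ 2 ≤
        1 / 2 * (kap x * (a x ^ 2 / m x) * (kap y * m y * (G x y).re ^ 2)) +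
        1 / 2 * (kap y * (a y ^ 2 / m y) * (kap x * m x * (G y x).re ^ 2)) := by
      intro x y
      have e2 : a x * a y ≤ 1 / 2 * (a x ^ 2 / m x * m y) + 1 / 2 * (a y ^ 2 / m y * m x) := by
        have hmx := hm x
        have hmy := hm y
        have e3 : 1 / 2 * (a x ^ 2 / m x * m y) + 1 / 2 * (a y ^ 2 / m y * m x) - a x * a y =
            (a x * m y - a y * m x) ^ 2 / (2 * m x * m y) := by
          field_simp
          ring
        have e4 : 0 ≤ (a x * m y - a y * m x) ^ 2 / (2 * m x * m y) := by positivity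
        linarith
      have e5 : 0 ≤ kap x * kap y * (G x y).re ^ 2 :=
        mul_nonneg (mul_nonneg (hk x) (hk y)) (sq_nonneg _)
      rw [hG y x]
      calc kap x * a x * (kap y * a y) * (G x y).re ^ 2 =
          kap x * kap y * (G x y).re ^ 2 * (a x * a y) := by ring
        _ ≤ kap x * kap y * (G x y).re ^ 2 *
            (1 / 2 * (a x ^ 2 / m x * m y) + 1 / 2 * (a y ^ 2 / m y * m x)) :=
            mul_le_mul_of_nonneg_left e2 e5
        _ = _ := by ring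
    have e6 : ∑ x, ∑ y, kap x * (a x ^ 2 / m x) * (kap y * m y * (G x y).re ^ 2) ≤
        (1 - ep) * ∑ x, kap x * a x ^ 2 := by
      rw [Finset.mul_sum]
      refine Finset.sum_le_sum fun x _ => ?_
      rw [← Finset.mul_sum]
      have e7 : 0 ≤ kap x * (a x ^ 2 / m x) :=
        mul_nonneg (hk x) (div_nonneg (sq_nonneg _) (hm x).le)
      refine (mul_le_mul_of_nonneg_left (hb x) e7).trans (le_of_eq ?_)
      have := (hm x).ne'
      field_simp
    have e8 : ∑ x, ∑ y, kap y * (a y ^ 2 / m y) * (kap x * m x * (G y x).re ^ 2) =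
        ∑ x, ∑ y, kap x * (a x ^ 2 / m x) * (kap y * m y * (G x y).re ^ 2) := Finset.sum_comm
    calc ∑ x, ∑ y, kap x * a x * (kap y * a y) * (G x y).re ^ 2
        ≤ ∑ x, ∑ y, (1 / 2 * (kap x * (a x ^ 2 / m x) * (kap y * m y * (G x y).re ^ 2)) +
          1 / 2 * (kap y * (a y ^ 2 / m y) * (kap x * m x * (G y x).re ^ 2))) :=
          Finset.sum_le_sum fun x _ => Finset.sum_le_sum fun y _ => e1 x y
      _ = 1 / 2 * (∑ x, ∑ y, kap x * (a x ^ 2 / m x) * (kap y * m y * (G x y).re ^ 2)) +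
          1 / 2 * ∑ x, ∑ y, kap y * (a y ^ 2 / m y) * (kap x * m x * (G y x).re ^ 2) := by
          rw [Finset.mul_sum, Finset.mul_sum, ← Finset.sum_add_distrib]
          refine Finset.sum_congr rfl fun x _ => ?_
          rw [Finset.mul_sum, Finset.mul_sum, ← Finset.sum_add_distrib]
      _ ≤ _ := by
          rw [e8]
          linarith
  have h4 : ∑ x, ∑ y, kap x * a x * (kap y * a y) * (G x y ^ 2).re =
      ∑ x, ∑ y, kap x * a x * (kap y * a y) * (G x y).re ^ 2 -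
        ∑ x, ∑ y, kap x * a x * (kap y * a y) * (G x y).im ^ 2 := by
    rw [← Finset.sum_sub_distrib]
    refine Finset.sum_congr rfl fun x _ => ?_
    rw [← Finset.sum_sub_distrib]
    refine Finset.sum_congr rfl fun y _ => ?_
    rw [h1]
    ring
  rw [h4]
  linarith

omit [DecidableEq ι] in
theorem T_re (hG : ∀ x y, G x y = G y x) (hk : ∀ x, 0 ≤ kap x) (hm : ∀ x, 0 < m x)
    (hb : ∀ x, ∑ y, kap y * m y * (G x y).re ^ 2 ≤ (1 - ep) * m x)
    (hc : ∀ a : ι → ℝ, 0 ≤ ∑ x, ∑ y, a x * a y * (G x y).im ^ 2) (u : ι → ℂ) :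
    ∑ x, kap x * (star (u x) * (TT G kap *ᵥ u) x).re ≤ (1 - ep) * ∑ x, kap x * ‖u x‖ ^ 2 := by
  have h1 := real_form hG hk hm hb hc (fun x => (u x).re)
  have h2 := real_form hG hk hm hb hc (fun x => (u x).im)
  have h3 : ∑ x, kap x * (star (u x) * (TT G kap *ᵥ u) x).re =
      ∑ x, ∑ y, kap x * (u x).re * (kap y * (u y).re) * (G x y ^ 2).re +
      ∑ x, ∑ y, kap x * (u x).im * (kap y * (u y).im) * (G x y ^ 2).re := by
    have e1 : ∀ x, kap x * (star (u x) * (TT G kap *ᵥ u) x).re =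
        ∑ y, (kap x * (u x).re * (kap y * (u y).re) * (G x y ^ 2).re +
          kap x * (u x).im * (kap y * (u y).im) * (G x y ^ 2).re +
          kap x * kap y * (G x y ^ 2).im * ((u x).im * (u y).re - (u x).re * (u y).im)) := by
      intro x
      have e2 : (TT G kap *ᵥ u) x = ∑ y, G x y ^ 2 * (kap y : ℂ) * u y := rfl
      rw [e2, Finset.mul_sum, Complex.re_sum, Finset.mul_sum]
      refine Finset.sum_congr rfl fun y _ => ?_
      rw [RCLike.star_def]
      simp only [Complex.mul_re, Complex.mul_im, Complex.conj_re, Complex.conj_im,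
        Complex.ofReal_re, Complex.ofReal_im]
      ring
    have e3 : ∑ x, ∑ y, kap x * kap y * (G x y ^ 2).im *
        ((u x).im * (u y).re - (u x).re * (u y).im) = 0 := by
      have e4 : ∑ x, ∑ y, kap x * kap y * (G x y ^ 2).im *
          ((u x).im * (u y).re - (u x).re * (u y).im) =
          -∑ x, ∑ y, kap x * kap y * (G x y ^ 2).im *
          ((u x).im * (u y).re - (u x).re * (u y).im) := by
        conv_lhs => rw [Finset.sum_comm]
        rw [← Finset.sum_neg_distrib]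
        refine Finset.sum_congr rfl fun x _ => ?_
        rw [← Finset.sum_neg_distrib]
        refine Finset.sum_congr rfl fun y _ => ?_
        rw [hG y x]
        ring
      linarith
    rw [Finset.sum_congr rfl fun x _ => e1 x]
    simp only [Finset.sum_add_distrib]
    rw [e3]
    ring
  have h4 : ∑ x, kap x * ‖u x‖ ^ 2 = ∑ x, kap x * (u x).re ^ 2 + ∑ x, kap x * (u x).im ^ 2 := by
    rw [← Finset.sum_add_distrib]
    refine Finset.sum_congr rfl fun x _ => ?_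
    rw [Complex.sq_norm, Complex.normSq_apply]
    ring
  rw [h3, h4, mul_add]
  exact add_le_add h1 h2

theorem BB_l2 (hG : ∀ x y, G x y = G y x) (hk : ∀ x, 0 ≤ kap x) (hm : ∀ x, 0 < m x)
    (hal : 0 ≤ al) (ha : ∀ x, ∑ y, kap y * m y * ‖G x y‖ ^ 2 ≤ (1 + al) * m x)
    (hb : ∀ x, ∑ y, kap y * m y * (G x y).re ^ 2 ≤ (1 - ep) * m x)
    (hc : ∀ a : ι → ℝ, 0 ≤ ∑ x, ∑ y, a x * a y * (G x y).im ^ 2) (u : ι → ℂ) :
    ∑ x, kap x * ‖(BB (TT G kap) *ᵥ u) x‖ ^ 2 ≤
      (1 - ep / 2 + (2 * al + al ^ 2) / 4) * ∑ x, kap x * ‖u x‖ ^ 2 := by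
  have h1 := T_l2 hG hk hm hal ha u
  have h2 := T_re hG hk hm hb hc u
  have h3 : ∀ x, ‖(BB (TT G kap) *ᵥ u) x‖ ^ 2 = 1 / 4 * (‖u x‖ ^ 2 +
      2 * (star (u x) * (TT G kap *ᵥ u) x).re + ‖(TT G kap *ᵥ u) x‖ ^ 2) := by
    intro x
    rw [PA.BB_apply, norm_mul, mul_pow]
    have e1 : ‖(1 / 2 : ℂ)‖ ^ 2 = 1 / 4 := by norm_num
    rw [e1]
    congr 1
    rw [Complex.sq_norm, Complex.sq_norm, Complex.sq_norm, Complex.normSq_apply,
      Complex.normSq_apply, Complex.normSq_apply, RCLike.star_def]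
    simp only [Complex.add_re, Complex.add_im, Complex.mul_re, Complex.conj_re, Complex.conj_im]
    ring
  have h4 : ∑ x, kap x * ‖(BB (TT G kap) *ᵥ u) x‖ ^ 2 =
      1 / 4 * (∑ x, kap x * ‖u x‖ ^ 2 +
        2 * ∑ x, kap x * (star (u x) * (TT G kap *ᵥ u) x).re +
        ∑ x, kap x * ‖(TT G kap *ᵥ u) x‖ ^ 2) := by
    rw [Finset.mul_sum (s := univ) (a := (2 : ℝ)), ← Finset.sum_add_distrib, ← Finset.sum_add_distrib,
      Finset.mul_sum]
    refine Finset.sum_congr rfl fun x _ => ?_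
    rw [h3 x]
    ring
  rw [h4]
  nlinarith

end Schur

end Pool.Agent.GSC
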