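import Pool.Agent.APS.SCWard

/-! # GSC Basic: the self-consistent equation with site dependent `κ` and static complex `c`.

`bv k c γ = c - κ γ`, `IsSCv H0 k c γ`: `γ` has positive imaginary parts and
`γ_x = [(H0 + diag(c - κ γ))⁻¹]_xx`; `gav H0 k c` the solution; `Gv H0 k c` the resolvent.
Hypotheses: `H0` real symmetric, `κ_x ≥ 0`, `Im c_x ≤ -e < 0`.  (`κ_x = 0`: frozen or read sites.)

* `gsc_row`: `Im G_xx = ∑ |G_xy|² (-Im c_y + κ_y Im g_y)` and `e² Im g_y ≤ e`, so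
  `∑ |G_xy|² (q_y + e²/2) Im g_y ≤ Im G_xx` whenever `q_y ≤ κ_y + e²/2`.
* `gsc_contr`: `∑ q_y |G_xy| |G'_xy| ‖u_y‖ ≤ θ m √(Im G_xx Im G'_xx)`, `θ = K/(K + e²/2)`, whenever
  `q ≤ κ + e²/2`, `q ≤ κ' + e²/2`, `q ≤ K`, `‖u_y‖ ≤ m √(Im g_y Im g'_y)`.
-/

open Matrix Finset

noncomputable section

namespace Pool.Agent.GSC

open Pool.Agent.Kin Pool.Agent.APS

variable {ι : Type} [Fintype ι] [DecidableEq ι]

/-- the diagonal `c - κ γ` -/
def bv (k : ι → ℝ) (c γ : ι → ℂ) : ι → ℂ := fun y => c y - (k y : ℂ) * γ y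

/-- `γ` solves the self-consistent equation -/
def IsSCv (H0 : Matrix ι ι ℂ) (k : ι → ℝ) (c γ : ι → ℂ) : Prop :=
  ∀ x, 0 < (γ x).im ∧ rsc H0 (bv k c γ) x x = γ x

open Classical in
/-- the solution of the self-consistent equation -/
def gav (H0 : Matrix ι ι ℂ) (k : ι → ℝ) (c : ι → ℂ) : ι → ℂ :=
  if h : ∃ γ, IsSCv H0 k c γ then h.choose else 0

/-- the self-consistent resolvent -/
def Gv (H0 : Matrix ι ι ℂ) (k : ι → ℝ) (c : ι → ℂ) : Matrix ι ι ℂ :=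
  rsc H0 (bv k c (gav H0 k c))

/-- hypotheses on `(H0, κ, c)` -/
structure Adm (H0 : Matrix ι ι ℂ) (e : ℝ) (k : ι → ℝ) (c : ι → ℂ) : Prop where
  sym : RealSym H0
  e0 : 0 < e
  k0 : ∀ x, 0 ≤ k x
  cim : ∀ x, e ≤ -(c x).im

variable {H0 : Matrix ι ι ℂ} {e : ℝ} {k k' : ι → ℝ} {c c' g g' : ι → ℂ}

omit [Fintype ι] [DecidableEq ι] in
theorem bv_low (h : Adm H0 e k c) (hg : ∀ x, 0 ≤ (g x).im) (y : ι) : e ≤ -(bv k c g y).im := by
  have h1 := mul_nonneg (h.k0 y) (hg y)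
  have h2 := h.cim y
  simp only [bv, Complex.sub_im, Complex.im_ofReal_mul]
  linarith

omit [Fintype ι] [DecidableEq ι] in
theorem bv_neg (h : Adm H0 e k c) (hg : ∀ x, 0 ≤ (g x).im) (y : ι) : (bv k c g y).im < 0 := by
  have := bv_low h hg y
  have := h.e0
  linarith

/-- bounds of a vector of diagonal Green functions -/
def Bd (e : ℝ) (g : ι → ℂ) : Prop := ∀ x, 0 < (g x).im ∧ (g x).im ≤ 1 / e

omit [Fintype ι] [DecidableEq ι] in
theorem Bd.nn (h : Bd e g) (x : ι) : 0 ≤ (g x).im := (h x).1.le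

theorem gsc_row (h : Adm H0 e k c) (hg : Bd e g) {q : ι → ℝ} (hq : ∀ y, q y ≤ k y + e ^ 2 / 2)
    (x : ι) :
    ∑ y, ‖rsc H0 (bv k c g) x y‖ ^ 2 * ((q y + e ^ 2 / 2) * (g y).im) ≤
      (rsc H0 (bv k c g) x x).im := by
  rw [rsc_ward h.sym (bv_neg h hg.nn)]
  refine Finset.sum_le_sum fun y _ => mul_le_mul_of_nonneg_left ?_ (sq_nonneg _)
  have he := h.e0
  have h1 := h.cim y
  have h2 := (hg y).2
  have h3 := (hg y).1
  have h4 : e ^ 2 * (g y).im ≤ e := by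
    rw [le_div_iff₀ he] at h2
    nlinarith
  have h5 : (q y + e ^ 2 / 2) * (g y).im ≤ (k y + e ^ 2) * (g y).im :=
    mul_le_mul_of_nonneg_right (by linarith [hq y]) h3.le
  simp only [bv, Complex.sub_im, Complex.im_ofReal_mul]
  nlinarith

theorem gsc_contr (h : Adm H0 e k c) (h' : Adm H0 e k' c') (hg : Bd e g) (hg' : Bd e g')
    {q : ι → ℝ} {K : ℝ} (hq0 : ∀ y, 0 ≤ q y) (hq : ∀ y, q y ≤ k y + e ^ 2 / 2)
    (hq' : ∀ y, q y ≤ k' y + e ^ 2 / 2) (hK : ∀ y, q y ≤ K)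
    {u : ι → ℂ} {m : ℝ} (hm : 0 ≤ m) (hu : ∀ x, ‖u x‖ ≤ m * √((g x).im * (g' x).im)) (x : ι) :
    ∑ y, q y * (‖rsc H0 (bv k c g) x y‖ * ‖rsc H0 (bv k' c' g') x y‖ * ‖u y‖) ≤
      K / (K + e ^ 2 / 2) * m * √((rsc H0 (bv k c g) x x).im *
        (rsc H0 (bv k' c' g') x x).im) := by
  set G := rsc H0 (bv k c g) with hG
  set G' := rsc H0 (bv k' c' g') with hG'
  have he := h.e0
  have hK0 : 0 ≤ K := (hq0 x).trans (hK x)
  have hKe : 0 < K + e ^ 2 / 2 := by positivity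
  have hth0 : 0 ≤ K / (K + e ^ 2 / 2) := by positivity
  have hth : ∀ y, q y ≤ K / (K + e ^ 2 / 2) * (q y + e ^ 2 / 2) := by
    intro y
    rw [div_mul_eq_mul_div, le_div_iff₀ hKe]
    nlinarith [hK y, hq0 y, sq_nonneg e]
  have h1 : ∑ y, ‖G x y‖ ^ 2 * (q y * (g y).im) ≤ K / (K + e ^ 2 / 2) * (G x x).im := by
    refine le_trans ?_ (mul_le_mul_of_nonneg_left (gsc_row h hg hq x) hth0)
    rw [Finset.mul_sum]
    refine Finset.sum_le_sum fun y _ => ?_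
    have h2 : q y * (g y).im ≤ K / (K + e ^ 2 / 2) * ((q y + e ^ 2 / 2) * (g y).im) := by
      rw [← mul_assoc]
      exact mul_le_mul_of_nonneg_right (hth y) (hg y).1.le
    calc ‖G x y‖ ^ 2 * (q y * (g y).im) ≤
        ‖G x y‖ ^ 2 * (K / (K + e ^ 2 / 2) * ((q y + e ^ 2 / 2) * (g y).im)) :=
          mul_le_mul_of_nonneg_left h2 (sq_nonneg _)
      _ = _ := by ring
  have h1' : ∑ y, ‖G' x y‖ ^ 2 * (q y * (g' y).im) ≤ K / (K + e ^ 2 / 2) * (G' x x).im := by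
    refine le_trans ?_ (mul_le_mul_of_nonneg_left (gsc_row h' hg' hq' x) hth0)
    rw [Finset.mul_sum]
    refine Finset.sum_le_sum fun y _ => ?_
    have h2 : q y * (g' y).im ≤ K / (K + e ^ 2 / 2) * ((q y + e ^ 2 / 2) * (g' y).im) := by
      rw [← mul_assoc]
      exact mul_le_mul_of_nonneg_right (hth y) (hg' y).1.le
    calc ‖G' x y‖ ^ 2 * (q y * (g' y).im) ≤
        ‖G' x y‖ ^ 2 * (K / (K + e ^ 2 / 2) * ((q y + e ^ 2 / 2) * (g' y).im)) :=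
          mul_le_mul_of_nonneg_left h2 (sq_nonneg _)
      _ = _ := by ring
  have hS0 : 0 ≤ ∑ y, ‖G x y‖ ^ 2 * (q y * (g y).im) :=
    Finset.sum_nonneg fun y _ => mul_nonneg (sq_nonneg _) (mul_nonneg (hq0 y) (hg y).1.le)
  have hS0' : 0 ≤ ∑ y, ‖G' x y‖ ^ 2 * (q y * (g' y).im) :=
    Finset.sum_nonneg fun y _ => mul_nonneg (sq_nonneg _) (mul_nonneg (hq0 y) (hg' y).1.le)
  have h3 : ∑ y, q y * (‖G x y‖ * ‖G' x y‖ * ‖u y‖) ≤
      m * (√(∑ y, ‖G x y‖ ^ 2 * (q y * (g y).im)) *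
        √(∑ y, ‖G' x y‖ ^ 2 * (q y * (g' y).im))) := by
    have e1 : ∑ y, q y * (‖G x y‖ * ‖G' x y‖ * ‖u y‖) ≤
        m * ∑ y, (‖G x y‖ * √(q y * (g y).im)) * (‖G' x y‖ * √(q y * (g' y).im)) := by
      rw [Finset.mul_sum]
      refine Finset.sum_le_sum fun y _ => ?_
      have e2 := hu y
      rw [Real.sqrt_mul (hg y).1.le] at e2
      rw [Real.sqrt_mul (hq0 y), Real.sqrt_mul (hq0 y)]
      have e3 : √(q y) * √(q y) = q y := Real.mul_self_sqrt (hq0 y)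
      calc q y * (‖G x y‖ * ‖G' x y‖ * ‖u y‖)
          ≤ q y * (‖G x y‖ * ‖G' x y‖ * (m * (√((g y).im) * √((g' y).im)))) := by
            refine mul_le_mul_of_nonneg_left ?_ (hq0 y)
            exact mul_le_mul_of_nonneg_left e2 (by positivity)
        _ = (√(q y) * √(q y)) * (‖G x y‖ * ‖G' x y‖ * (m * (√((g y).im) * √((g' y).im)))) := by
            rw [e3]
        _ = _ := by ring
    refine e1.trans (mul_le_mul_of_nonneg_left ?_ hm)
    refine (Real.sum_mul_le_sqrt_mul_sqrt _ _ _).trans (le_of_eq ?_)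
    congr 2
    · refine Finset.sum_congr rfl fun y _ => ?_
      rw [mul_pow, Real.sq_sqrt (mul_nonneg (hq0 y) (hg y).1.le)]
    · refine Finset.sum_congr rfl fun y _ => ?_
      rw [mul_pow, Real.sq_sqrt (mul_nonneg (hq0 y) (hg' y).1.le)]
  have hGx : 0 ≤ (G x x).im := (rsc_im h.sym (bv_neg h hg.nn) x).le
  have hGx' : 0 ≤ (G' x x).im := (rsc_im h'.sym (bv_neg h' hg'.nn) x).le
  have h4 : √(∑ y, ‖G x y‖ ^ 2 * (q y * (g y).im)) * √(∑ y, ‖G' x y‖ ^ 2 * (q y * (g' y).im)) ≤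
      K / (K + e ^ 2 / 2) * √((G x x).im * (G' x x).im) := by
    rw [← Real.sqrt_mul hS0]
    have e3 : K / (K + e ^ 2 / 2) * √((G x x).im * (G' x x).im) =
        √((K / (K + e ^ 2 / 2) * (G x x).im) * (K / (K + e ^ 2 / 2) * (G' x x).im)) := by
      rw [show (K / (K + e ^ 2 / 2) * (G x x).im) * (K / (K + e ^ 2 / 2) * (G' x x).im) =
        (K / (K + e ^ 2 / 2)) ^ 2 * ((G x x).im * (G' x x).im) by ring,
        Real.sqrt_mul (sq_nonneg _), Real.sqrt_sq hth0]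
    rw [e3]
    exact Real.sqrt_le_sqrt (mul_le_mul h1 h1' hS0' (by positivity))
  calc ∑ y, q y * (‖G x y‖ * ‖G' x y‖ * ‖u y‖)
      ≤ m * (K / (K + e ^ 2 / 2) * √((G x x).im * (G' x x).im)) :=
        h3.trans (mul_le_mul_of_nonneg_left h4 hm)
    _ = _ := by ring

end Pool.Agent.GSC
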