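import Pool.Agent.GSC.Basic

/-! # GSC Ex: existence, uniqueness, local Lipschitz dependence, invertibility of `1 - κ R`. -/

open Matrix Finset

noncomputable section

namespace Pool.Agent.GSC

open Pool.Agent.Kin Pool.Agent.APS

variable {ι : Type} [Fintype ι] [DecidableEq ι]
variable {H0 : Matrix ι ι ℂ} {e : ℝ} {k k' : ι → ℝ} {c c' g g' : ι → ℂ}

/-- the map whose fixed point is sought -/
def scF (H0 : Matrix ι ι ℂ) (k : ι → ℝ) (c g : ι → ℂ) : ι → ℂ := fun x => rsc H0 (bv k c g) x x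

theorem scF_bd (h : Adm H0 e k c) (hg : ∀ x, 0 ≤ (g x).im) : Bd e (scF H0 k c g) := fun x =>
  ⟨rsc_im h.sym (bv_neg h hg) x,
    ((le_abs_self _).trans (Complex.abs_im_le_norm _)).trans
      (rsc_diag h.sym h.e0 (bv_low h hg) x)⟩

theorem IsSCv.bd (h : Adm H0 e k c) (hs : IsSCv H0 k c g) : Bd e g := by
  have h1 := scF_bd h (g := g) fun x => (hs x).1.le
  have h2 : scF H0 k c g = g := funext fun x => (hs x).2
  rwa [h2] at h1

theorem IsSCv.le (h : Adm H0 e k c) (hs : IsSCv H0 k c g) (x : ι) : ‖g x‖ ≤ 1 / e := by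
  have h1 := rsc_diag h.sym h.e0 (bv_low h fun x => (hs x).1.le) x
  rwa [(hs x).2] at h1

/-- the difference of two diagonals -/
theorem scF_sub (h : Adm H0 e k c) (h' : Adm H0 e k' c') (hg : ∀ x, 0 ≤ (g x).im)
    (hg' : ∀ x, 0 ≤ (g' x).im) (x : ι) :
    scF H0 k c g x - scF H0 k' c' g' x =
      ∑ y, rsc H0 (bv k c g) x y * (bv k' c' g' y - bv k c g y) * rsc H0 (bv k' c' g') x y := by
  have e1 := congrFun (congrFun (rsc_sub h.sym (bv_neg h hg) (bv_neg h' hg')) x) x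
  rw [Matrix.sub_apply, Matrix.mul_apply] at e1
  change rsc H0 (bv k c g) x x - rsc H0 (bv k' c' g') x x = _
  rw [e1]
  refine Finset.sum_congr rfl fun y _ => ?_
  rw [Matrix.mul_diagonal, rsc_symm h.sym (bv k' c' g') y x]

theorem scF_step (h : Adm H0 e k c) (hg : Bd e g) (hg' : Bd e g') {K : ℝ} (hK : ∀ x, k x ≤ K)
    {m : ℝ} (hm : 0 ≤ m) (hu : ∀ x, ‖g x - g' x‖ ≤ m * √((g x).im * (g' x).im)) (x : ι) :
    ‖scF H0 k c g x - scF H0 k c g' x‖ ≤
      K / (K + e ^ 2 / 2) * m * √((scF H0 k c g x).im * (scF H0 k c g' x).im) := by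
  have he2 : 0 ≤ e ^ 2 / 2 := by positivity
  refine le_trans ?_ (gsc_contr h h hg hg' (q := k) h.k0 (fun y => by linarith)
    (fun y => by linarith) hK (u := fun y => g y - g' y) hm hu x)
  rw [scF_sub h h hg.nn hg'.nn]
  refine (norm_sum_le _ _).trans (le_of_eq ?_)
  refine Finset.sum_congr rfl fun y _ => ?_
  have e1 : bv k c g' y - bv k c g y = (k y : ℂ) * (g y - g' y) := by
    simp only [bv]
    ring
  rw [e1, norm_mul, norm_mul, norm_mul, Complex.norm_real, Real.norm_of_nonneg (h.k0 y)]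
  ring

private lemma K_exists (h : Adm H0 e k c) : ∃ K, 0 ≤ K ∧ ∀ x, k x ≤ K :=
  ⟨∑ x, k x, Finset.sum_nonneg fun x _ => h.k0 x, fun x =>
    Finset.single_le_sum (f := k) (fun y _ => h.k0 y) (Finset.mem_univ x)⟩

theorem exists_scv (h : Adm H0 e k c) : ∃ γ, IsSCv H0 k c γ := by
  have he := h.e0
  have he1 : 0 < 1 / e := by positivity
  obtain ⟨K, hK0, hK⟩ := K_exists h
  set q : ℕ → ι → ℂ := fun n => (scF H0 k c)^[n] (fun _ => ((1 / e : ℝ) : ℂ) * Complex.I) with hq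
  have hq0 : ∀ x, (q 0 x).im = 1 / e := by
    intro x
    simp [hq]
  have hqs : ∀ n, q (n + 1) = scF H0 k c (q n) := by
    intro n
    simp only [hq]
    rw [Function.iterate_succ_apply']
  have hP : ∀ n, Bd e (q n) := by
    intro n
    induction n with
    | zero => intro x; rw [hq0]; exact ⟨he1, le_rfl⟩
    | succ n ih =>
      rw [hqs]
      exact scF_bd h ih.nn
  set θ : ℝ := K / (K + e ^ 2 / 2) with hθ
  have hke : 0 < K + e ^ 2 / 2 := by positivity
  have hθ0 : 0 ≤ θ := div_nonneg hK0 hke.le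
  have hθ1 : θ < 1 := by
    rw [hθ, div_lt_one hke]
    have : 0 < e ^ 2 / 2 := by positivity
    linarith
  obtain ⟨m0, hm0, hbase⟩ : ∃ m0 : ℝ, 0 ≤ m0 ∧
      ∀ x, ‖q 1 x - q 0 x‖ ≤ m0 * √((q 1 x).im * (q 0 x).im) := by
    refine ⟨∑ x, ‖q 1 x - q 0 x‖ / √((q 1 x).im * (q 0 x).im),
      Finset.sum_nonneg fun x _ => by positivity, fun x => ?_⟩
    have h1 : 0 < √((q 1 x).im * (q 0 x).im) :=
      Real.sqrt_pos.2 (mul_pos (hP 1 x).1 (hP 0 x).1)
    rw [← div_le_iff₀ h1]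
    exact Finset.single_le_sum (f := fun x => ‖q 1 x - q 0 x‖ / √((q 1 x).im * (q 0 x).im))
      (fun y _ => by positivity) (Finset.mem_univ x)
  have hstep : ∀ n x, ‖q (n + 1) x - q n x‖ ≤
      m0 * θ ^ n * √((q (n + 1) x).im * (q n x).im) := by
    intro n
    induction n with
    | zero => intro x; simpa using hbase x
    | succ n ih =>
      intro x
      have h1 := scF_step h (hP (n + 1)) (hP n) hK (m := m0 * θ ^ n) (by positivity) ih x
      rw [← hqs, ← hqs] at h1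
      refine h1.trans (le_of_eq ?_)
      rw [← hθ]
      ring
  have hgeo : ∀ x n, dist (q n x) (q (n + 1) x) ≤ m0 / e * θ ^ n := by
    intro x n
    rw [dist_comm, dist_eq_norm]
    refine (hstep n x).trans ?_
    have h1 : √((q (n + 1) x).im * (q n x).im) ≤ 1 / e := by
      rw [Real.sqrt_le_left he1.le, sq]
      exact mul_le_mul (hP (n + 1) x).2 (hP n x).2 (hP n x).1.le he1.le
    calc m0 * θ ^ n * √((q (n + 1) x).im * (q n x).im) ≤ m0 * θ ^ n * (1 / e) :=
          mul_le_mul_of_nonneg_left h1 (by positivity)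
      _ = m0 / e * θ ^ n := by ring
  have hlim : ∀ x, ∃ a, Filter.Tendsto (fun n => q n x) Filter.atTop (nhds a) := fun x =>
    cauchySeq_tendsto_of_complete (cauchySeq_of_le_geometric θ (m0 / e) hθ1 (hgeo x))
  choose γ hγ using hlim
  have hγ0 : ∀ x, 0 ≤ (γ x).im := by
    intro x
    have h1 : Filter.Tendsto (fun n => (q n x).im) Filter.atTop (nhds (γ x).im) :=
      (Complex.continuous_im.tendsto _).comp (hγ x)
    exact ge_of_tendsto' h1 fun n => (hP n x).1.le
  have hfix : ∀ x, scF H0 k c γ x = γ x := by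
    intro x
    have h1 : ContinuousOn (fun p : ι → ℂ => rsc H0 (bv k c p) x x)
        {p : ι → ℂ | ∀ x, 0 ≤ (p x).im} :=
      rsc_cont h.sym (X := ι → ℂ) (fun p => bv k c p)
        (fun p hp y => bv_neg h hp y)
        (fun y => (by unfold bv; fun_prop : Continuous fun p : ι → ℂ => bv k c p y).continuousOn) x x
    have h2 : Filter.Tendsto q Filter.atTop (nhds γ) := tendsto_pi_nhds.2 hγ
    have h3 : Filter.Tendsto q Filter.atTop
        (nhdsWithin γ {p : ι → ℂ | ∀ x, 0 ≤ (p x).im}) :=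
      tendsto_nhdsWithin_iff.2 ⟨h2, Filter.Eventually.of_forall fun n y => (hP n y).1.le⟩
    have h4 := (h1 γ hγ0).tendsto.comp h3
    have h5 : Filter.Tendsto (fun n => q (n + 1) x) Filter.atTop (nhds (γ x)) :=
      (hγ x).comp (Filter.tendsto_add_atTop_nat 1)
    refine tendsto_nhds_unique ?_ h5
    refine h4.congr fun n => ?_
    rw [hqs]
    rfl
  refine ⟨γ, fun x => ⟨?_, hfix x⟩⟩
  rw [← hfix x]
  exact (scF_bd h hγ0 x).1

/-- Lipschitz dependence on `(κ, c)` for `|κ - κ'| ≤ e²/2`. -/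
theorem scv_lip (h : Adm H0 e k c) (h' : Adm H0 e k' c') (hs : IsSCv H0 k c g)
    (hs' : IsSCv H0 k' c' g') {K A B : ℝ} (hK : ∀ x, k x ≤ K) (hB : ∀ x, |k x - k' x| ≤ B)
    (hB2 : B ≤ e ^ 2 / 2) (hA : ∀ x, ‖c x - c' x‖ ≤ A) (x : ι) :
    ‖g x - g' x‖ ≤ 2 * (K + e ^ 2) / e ^ 4 * (A + B / e) := by
  have he := h.e0
  have hg := hs.bd h
  have hg' := hs'.bd h'
  have hA0 : 0 ≤ A := (norm_nonneg _).trans (hA x)
  have hB0 : 0 ≤ B := (abs_nonneg _).trans (hB x)
  have hK0 : 0 ≤ K := (h.k0 x).trans (hK x)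
  set F : ℝ := A + B / e with hF
  have hF0 : 0 ≤ F := by positivity
  set G := rsc H0 (bv k c g) with hG
  set G' := rsc H0 (bv k' c' g') with hG'
  have hGx : ∀ y, G y y = g y := fun y => (hs y).2
  have hGx' : ∀ y, G' y y = g' y := fun y => (hs' y).2
  obtain ⟨x0, -, hx0⟩ := Finset.exists_max_image (Finset.univ : Finset ι)
    (fun y => ‖g y - g' y‖ / √((g y).im * (g' y).im)) ⟨x, Finset.mem_univ x⟩
  set m : ℝ := ‖g x0 - g' x0‖ / √((g x0).im * (g' x0).im) with hm
  have hm0 : 0 ≤ m := by positivity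
  have hsq : ∀ y, 0 < √((g y).im * (g' y).im) := fun y =>
    Real.sqrt_pos.2 (mul_pos (hg y).1 (hg' y).1)
  have hu : ∀ y, ‖g y - g' y‖ ≤ m * √((g y).im * (g' y).im) := by
    intro y
    have h1 := hx0 y (Finset.mem_univ y)
    rwa [div_le_iff₀ (hsq y)] at h1
  have hbd : ∀ y, ‖g y - g' y‖ ≤ (F / e + K / (K + e ^ 2 / 2) * m) * √((g y).im * (g' y).im) := by
    intro z
    have h1 : g z - g' z = ∑ y, G z y * (bv k' c' g' y - bv k c g y) * G' z y := by
      have h2 := scF_sub h h' hg.nn hg'.nn z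
      simp only [scF] at h2
      rw [← hG, ← hG', hGx, hGx'] at h2
      exact h2
    have h2 : ∀ y, ‖bv k' c' g' y - bv k c g y‖ ≤ F + k y * ‖g y - g' y‖ := by
      intro y
      have e1 : bv k' c' g' y - bv k c g y = (c' y - c y) + (((k y - k' y : ℝ) : ℂ) * g' y) +
          (k y : ℂ) * (g y - g' y) := by
        simp only [bv]
        push_cast
        ring
      rw [e1]
      refine (norm_add₃_le).trans ?_
      have e2 : ‖c' y - c y‖ ≤ A := by
        rw [norm_sub_rev]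
        exact hA y
      have e3 : ‖((k y - k' y : ℝ) : ℂ) * g' y‖ ≤ B / e := by
        rw [norm_mul, Complex.norm_real, Real.norm_eq_abs, div_eq_mul_one_div]
        exact mul_le_mul (hB y) (hs'.le h' y) (norm_nonneg _) hB0
      have e4 : ‖(k y : ℂ) * (g y - g' y)‖ = k y * ‖g y - g' y‖ := by
        rw [norm_mul, Complex.norm_real, Real.norm_eq_abs, abs_of_nonneg (h.k0 y)]
      rw [e4, hF]
      linarith
    have h3 : ‖g z - g' z‖ ≤ F * ∑ y, ‖G z y‖ * ‖G' z y‖ +
        ∑ y, k y * (‖G z y‖ * ‖G' z y‖ * ‖g y - g' y‖) := by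
      rw [h1, Finset.mul_sum, ← Finset.sum_add_distrib]
      refine (norm_sum_le _ _).trans (Finset.sum_le_sum fun y _ => ?_)
      rw [norm_mul, norm_mul]
      calc ‖G z y‖ * ‖bv k' c' g' y - bv k c g y‖ * ‖G' z y‖
          ≤ ‖G z y‖ * (F + k y * ‖g y - g' y‖) * ‖G' z y‖ := by
            gcongr
            exact h2 y
        _ = _ := by ring
    have h4 := gsc_contr h h' hg hg' (q := k) h.k0 (fun y => by nlinarith [sq_nonneg e])
      (fun y => by
        have h5 := le_abs_self (k y - k' y)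
        have h6 := hB y
        linarith) hK (u := fun y => g y - g' y) hm0 hu z
    have h5 : ∑ y, ‖G z y‖ * ‖G' z y‖ ≤ √((g z).im * (g' z).im) / e := by
      have e1 := Real.sum_mul_le_sqrt_mul_sqrt Finset.univ (fun y => ‖G z y‖) (fun y => ‖G' z y‖)
      refine e1.trans ?_
      have e2 := rsc_row h.sym he (bv_low h hg.nn) z
      have e3 := rsc_row h'.sym he (bv_low h' hg'.nn) z
      have e4 : √(∑ y, ‖G z y‖ ^ 2) ≤ √((G z z).im / e) := Real.sqrt_le_sqrt e2
      have e5 : √(∑ y, ‖G' z y‖ ^ 2) ≤ √((G' z z).im / e) := Real.sqrt_le_sqrt e3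
      refine (mul_le_mul e4 e5 (Real.sqrt_nonneg _) (Real.sqrt_nonneg _)).trans (le_of_eq ?_)
      rw [hGx z, hGx' z, Real.sqrt_div (hg z).1.le, Real.sqrt_div (hg' z).1.le,
        Real.sqrt_mul (hg z).1.le, div_mul_div_comm, Real.mul_self_sqrt he.le]
    have h4' : ∑ y, k y * (‖G z y‖ * ‖G' z y‖ * ‖g y - g' y‖) ≤
        K / (K + e ^ 2 / 2) * m * √((g z).im * (g' z).im) := by
      rw [← hG, ← hG', hGx z, hGx' z] at h4
      exact h4
    calc ‖g z - g' z‖ ≤ F * (√((g z).im * (g' z).im) / e) +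
          K / (K + e ^ 2 / 2) * m * √((g z).im * (g' z).im) :=
          h3.trans (add_le_add (mul_le_mul_of_nonneg_left h5 hF0) h4')
      _ = _ := by ring
  have hke : 0 < K + e ^ 2 / 2 := by positivity
  have hmle : m ≤ F / e + K / (K + e ^ 2 / 2) * m := by
    have h1 := hbd x0
    rw [hm, div_le_iff₀ (hsq x0), ← hm]
    exact h1
  have hm1 : m ≤ 2 * (F * (K + e ^ 2)) / e ^ 3 := by
    have h1 : m - K / (K + e ^ 2 / 2) * m = m * (e ^ 2 / 2 / (K + e ^ 2 / 2)) := by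
      field_simp
      ring
    have h2 : m * (e ^ 2 / 2 / (K + e ^ 2 / 2)) ≤ F / e := by linarith
    rw [le_div_iff₀ (by positivity)]
    rw [mul_div_assoc', div_le_div_iff₀ hke he] at h2
    have h3 : F * (K + e ^ 2 / 2) ≤ F * (K + e ^ 2) :=
      mul_le_mul_of_nonneg_left (by nlinarith [sq_nonneg e]) hF0
    calc m * e ^ 3 = 2 * (m * (e ^ 2 / 2) * e) := by ring
      _ ≤ 2 * (F * (K + e ^ 2 / 2)) := by linarith
      _ ≤ 2 * (F * (K + e ^ 2)) := by linarith
  have hsx : √((g x).im * (g' x).im) ≤ 1 / e := by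
    rw [Real.sqrt_le_left (by positivity)]
    calc (g x).im * (g' x).im ≤ 1 / e * (1 / e) :=
          mul_le_mul (hg x).2 (hg' x).2 (hg' x).1.le (by positivity)
      _ = (1 / e) ^ 2 := by ring
  calc ‖g x - g' x‖ ≤ m * √((g x).im * (g' x).im) := hu x
    _ ≤ 2 * (F * (K + e ^ 2)) / e ^ 3 * (1 / e) :=
        mul_le_mul hm1 hsx (Real.sqrt_nonneg _) (by positivity)
    _ = 2 * (K + e ^ 2) / e ^ 4 * F := by
      field_simp

theorem scv_unique (h : Adm H0 e k c) (hs : IsSCv H0 k c g) (hs' : IsSCv H0 k c g') : g = g' := by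
  funext x
  obtain ⟨K, hK0, hK⟩ := K_exists h
  have h1 := scv_lip h h hs hs' (A := 0) (B := 0) hK (fun x => by simp) (by positivity)
    (fun x => by simp) x
  rw [zero_div, add_zero, mul_zero] at h1
  exact sub_eq_zero.1 (norm_le_zero_iff.1 h1)

theorem gav_spec (h : Adm H0 e k c) : IsSCv H0 k c (gav H0 k c) := by
  have h1 : ∃ γ, IsSCv H0 k c γ := exists_scv h
  unfold gav
  rw [dif_pos h1]
  exact h1.choose_spec

theorem gav_eq (h : Adm H0 e k c) (hs : IsSCv H0 k c g) : gav H0 k c = g :=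
  scv_unique h (gav_spec h) hs

theorem gav_bd (h : Adm H0 e k c) : Bd e (gav H0 k c) := (gav_spec h).bd h

theorem gav_le (h : Adm H0 e k c) (x : ι) : ‖gav H0 k c x‖ ≤ 1 / e := (gav_spec h).le h x

theorem Gv_diag (h : Adm H0 e k c) (x : ι) : Gv H0 k c x x = gav H0 k c x := (gav_spec h x).2

/-- `1 - κ R` is invertible -/
theorem scv_unit (h : Adm H0 e k c) (hs : IsSCv H0 k c g) :
    IsUnit (1 - diagonal (fun x => (k x : ℂ)) * had2 (rsc H0 (bv k c g))).det := by
  rw [isUnit_iff_ne_zero]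
  intro hdet
  obtain ⟨u, hu0, hu⟩ := Matrix.exists_mulVec_eq_zero_iff.2 hdet
  have hg := hs.bd h
  have he := h.e0
  set G := rsc H0 (bv k c g) with hG
  have hGx : ∀ y, G y y = g y := fun y => (hs y).2
  obtain ⟨K, hK0, hK⟩ := K_exists h
  -- `u = κ R u`; put `v = R u`, `u = κ v`
  set v : ι → ℂ := had2 G *ᵥ u with hv
  have huv : ∀ x, u x = (k x : ℂ) * v x := by
    intro x
    have h1 := congrFun hu x
    rw [Matrix.sub_mulVec, Matrix.one_mulVec, ← Matrix.mulVec_mulVec, Pi.sub_apply, Pi.zero_apply,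
      Matrix.mulVec_diagonal] at h1
    exact sub_eq_zero.1 h1
  have hv0 : v ≠ 0 := by
    intro h1
    apply hu0
    funext x
    rw [huv, h1]
    simp
  obtain ⟨x, hx⟩ := Function.ne_iff.1 hv0
  obtain ⟨x0, -, hx0⟩ := Finset.exists_max_image (Finset.univ : Finset ι)
    (fun y => ‖v y‖ / (g y).im) ⟨x, Finset.mem_univ x⟩
  set m : ℝ := ‖v x0‖ / (g x0).im with hm
  have hm0 : 0 ≤ m := div_nonneg (norm_nonneg _) (hg x0).1.le
  have hsq : ∀ y, √((g y).im * (g y).im) = (g y).im := fun y => Real.sqrt_mul_self (hg y).1.le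
  have hum : ∀ y, ‖v y‖ ≤ m * √((g y).im * (g y).im) := by
    intro y
    have h1 := hx0 y (Finset.mem_univ y)
    rw [div_le_iff₀ (hg y).1] at h1
    rw [hsq]
    exact h1
  have h4 := gsc_contr h h hg hg (q := k) h.k0 (fun y => by nlinarith [sq_nonneg e])
    (fun y => by nlinarith [sq_nonneg e]) hK (u := v) hm0 hum x0
  rw [← hG, hGx, hsq] at h4
  have h5 : ‖v x0‖ ≤ ∑ y, k y * (‖G x0 y‖ * ‖G x0 y‖ * ‖v y‖) := by
    have e1 : v x0 = ∑ y, G x0 y ^ 2 * u y := rfl
    rw [e1]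
    refine (norm_sum_le _ _).trans (le_of_eq ?_)
    refine Finset.sum_congr rfl fun y _ => ?_
    rw [huv, norm_mul, norm_mul, norm_pow, Complex.norm_real, Real.norm_of_nonneg (h.k0 y)]
    ring
  have hke : 0 < K + e ^ 2 / 2 := by positivity
  have h6 : m ≤ K / (K + e ^ 2 / 2) * m := by
    have h7 := h5.trans h4
    rw [hm, div_le_iff₀ (hg x0).1, ← hm]
    exact h7
  have h7 : K / (K + e ^ 2 / 2) < 1 := by
    rw [div_lt_one hke]
    have : 0 < e ^ 2 / 2 := by positivity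
    linarith
  have h8 : m = 0 := by
    by_contra hne
    have h9 : 0 < m := lt_of_le_of_ne hm0 (Ne.symm hne)
    nlinarith
  apply hx
  have h9 := hum x
  rw [h8, zero_mul] at h9
  exact norm_le_zero_iff.1 h9

end Pool.Agent.GSC
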