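import Pool.Agent.GSC.Refreeze

/-! # GSC L1: weighted `ℓ¹` bound and weighted sup bound of the re-freezing correction.

`δ = gav - γ0`, `g = diag G0 - γ0`, `δ - R0 κ δ = g + N(δ)`,
`|N(δ)_x| ≤ θ⁻¹ ∑_y κ_y |δ_y|² |G0_xy|²`  (`NN_pt`).

* `RF.l1`: `∑ κ |δ| ≤ 2 Π ∑ κ |g|` (`κ (1 - R0 κ)⁻¹` is symmetric; duality).
* `RF.wt`: if `|g_x| ≤ a e^{-φ_x}`-type weighted bounds hold and `(1 - R0 κ)⁻¹` is bounded by `Π` in the
  weighted sup norm (`SupW`), `∑_y κ_y ω_y |G0_xy|² ≤ C3 ω_x`, then `|δ_x| ≤ 2 Π a ω_x`.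
-/

open Matrix Finset

noncomputable section

namespace Pool.Agent.GSC

open Pool.Agent.Kin Pool.Agent.APS

variable {ι : Type} [Fintype ι] [DecidableEq ι]
variable {H0 : Matrix ι ι ℂ} {e : ℝ} {k : ι → ℝ} {c γ0 : ι → ℂ} {th C1 a Pq : ℝ}

namespace RF

variable (h : RF H0 e k c γ0 th C1 a Pq)
include h

/-- quadratic form bound of the contraction `√w G √w` -/
private lemma quad {b : ι → ℂ} {w : ι → ℝ} (hb : ∀ x, (b x).im < 0) (hw0 : ∀ x, 0 ≤ w x)
    (hw : ∀ x, w x ≤ -(b x).im) (u : ι → ℂ) :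
    ‖∑ y, ((√(w y) : ℂ) * u y) * ∑ z, rsc H0 b y z * ((√(w z) : ℂ) * u z)‖ ≤
      ∑ z, ‖u z‖ ^ 2 := by
  have h1 := wop h.adm.sym hb hw0 hw u
  set V : ι → ℂ := fun y => ∑ z, rsc H0 b y z * ((√(w z) : ℂ) * u z) with hV
  have h2 : ‖∑ y, ((√(w y) : ℂ) * u y) * V y‖ ≤ ∑ y, ‖u y‖ * (√(w y) * ‖V y‖) := by
    refine (norm_sum_le _ _).trans (Finset.sum_le_sum fun y _ => ?_)
    rw [norm_mul, norm_mul, Complex.norm_real, Real.norm_of_nonneg (Real.sqrt_nonneg _)]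
    exact le_of_eq (by ring)
  have h3 : ∑ y, ‖u y‖ * (√(w y) * ‖V y‖) ≤
      √(∑ y, ‖u y‖ ^ 2) * √(∑ y, (√(w y) * ‖V y‖) ^ 2) := Real.sum_mul_le_sqrt_mul_sqrt _ _ _
  have h4 : ∑ y, (√(w y) * ‖V y‖) ^ 2 = ∑ y, w y * ‖V y‖ ^ 2 := by
    refine Finset.sum_congr rfl fun y _ => ?_
    rw [mul_pow, Real.sq_sqrt (hw0 y)]
  rw [h4] at h3
  have h5 : √(∑ y, w y * ‖V y‖ ^ 2) ≤ √(∑ y, ‖u y‖ ^ 2) := Real.sqrt_le_sqrt h1
  have h6 : 0 ≤ ∑ y, ‖u y‖ ^ 2 := Finset.sum_nonneg fun _ _ => sq_nonneg _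
  calc _ ≤ _ := h2
    _ ≤ _ := h3
    _ ≤ √(∑ y, ‖u y‖ ^ 2) * √(∑ y, ‖u y‖ ^ 2) :=
        mul_le_mul_of_nonneg_left h5 (Real.sqrt_nonneg _)
    _ = _ := Real.mul_self_sqrt h6

/-- pointwise bound of the nonlinear part -/
theorem NN_pt {d : ι → ℂ} {ρ : ℝ} (hρ : ρ ≤ th) (hd : ∀ x, ‖d x‖ ≤ ρ) (x : ι) :
    ‖NN H0 k c γ0 d x‖ ≤
      1 / th * ∑ y, k y * ‖d y‖ ^ 2 * ‖rsc H0 (bv k c γ0) x y‖ ^ 2 := by
  have hth := h.th0
  set B0 := bv k c γ0 with hB0
  set B := bd k c γ0 d with hB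
  have hb0 : ∀ x, (B0 x).im < 0 := bv_neg h.adm h.im0
  have hb : ∀ x, (B x).im < 0 := h.bneg hρ hd
  have hw := h.wlow hρ hd
  set D : ι → ℂ := fun y => (k y : ℂ) * d y with hD
  have key : rsc H0 B - rsc H0 B0 = rsc H0 B0 * diagonal D * rsc H0 B := by
    have e1 := rsc_sub h.adm.sym hb0 hb
    have e2 : (fun x => B x - B0 x) = fun y => -(D y) := by
      funext y
      simp only [hB0, hB, hD, bd]
      ring
    have e3 : (diagonal (fun y => -(D y)) : Matrix ι ι ℂ) = -diagonal D := by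
      rw [Matrix.diagonal_neg]
    rw [e2, e3, mul_neg, neg_mul] at e1
    rw [← neg_sub, e1, neg_neg]
  have key2 : rsc H0 B - rsc H0 B0 = rsc H0 B * diagonal D * rsc H0 B0 := by
    have e1 := rsc_sub h.adm.sym hb hb0
    have e2 : (fun x => B0 x - B x) = D := by
      funext y
      simp only [hB0, hB, hD, bd]
      ring
    rw [e2] at e1
    exact e1
  have s3 : ∑ y, rsc H0 B0 x y ^ 2 * ((k y : ℂ) * d y) =
      (rsc H0 B0 * diagonal D * rsc H0 B0) x x := by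
    rw [Matrix.mul_apply]
    refine Finset.sum_congr rfl fun y _ => ?_
    rw [Matrix.mul_diagonal, rsc_symm h.adm.sym B0 y x]
    ring
  have s4 : NN H0 k c γ0 d x = (rsc H0 B0 * diagonal D * rsc H0 B * diagonal D * rsc H0 B0) x x := by
    have e1 : NN H0 k c γ0 d x = (rsc H0 B - rsc H0 B0 - rsc H0 B0 * diagonal D * rsc H0 B0) x x := by
      rw [Matrix.sub_apply, Matrix.sub_apply, ← s3]
      rfl
    rw [e1, key]
    have e2 : rsc H0 B0 * diagonal D * rsc H0 B - rsc H0 B0 * diagonal D * rsc H0 B0 =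
        rsc H0 B0 * diagonal D * (rsc H0 B - rsc H0 B0) := by
      rw [mul_sub]
    rw [e2, key2]
    simp only [Matrix.mul_assoc]
  set u : ι → ℂ := fun y => ((√(th * k y))⁻¹ : ℂ) * D y * rsc H0 B0 x y with hu
  have hsw : ∀ y, (√(th * k y) : ℂ) * u y = D y * rsc H0 B0 x y := by
    intro y
    rcases (h.adm.k0 y).eq_or_lt with h1 | h1
    · have e1 : D y = 0 := by simp only [hD]; rw [← h1]; simp
      simp only [hu]
      rw [e1]
      simp
    · have e1 : (√(th * k y) : ℂ) ≠ 0 := by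
        rw [Ne, Complex.ofReal_eq_zero]
        exact (Real.sqrt_pos.2 (mul_pos hth h1)).ne'
      simp only [hu]
      field_simp
  have s5 : NN H0 k c γ0 d x =
      ∑ y, ((√(th * k y) : ℂ) * u y) * ∑ z, rsc H0 B y z * ((√(th * k z) : ℂ) * u z) := by
    rw [s4]
    have e1 : (rsc H0 B0 * diagonal D * rsc H0 B * diagonal D * rsc H0 B0) =
        (rsc H0 B0 * diagonal D) * (rsc H0 B * (diagonal D * rsc H0 B0)) := by
      simp only [Matrix.mul_assoc]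
    rw [e1, Matrix.mul_apply]
    refine Finset.sum_congr rfl fun y _ => ?_
    rw [Matrix.mul_diagonal, Matrix.mul_apply, hsw]
    congr 1
    · ring
    · refine Finset.sum_congr rfl fun z _ => ?_
      rw [Matrix.diagonal_mul, hsw, rsc_symm h.adm.sym B0 z x]
  rw [s5]
  refine (h.quad hb h.w0 hw u).trans ?_
  rw [Finset.mul_sum]
  refine Finset.sum_le_sum fun y _ => ?_
  rcases (h.adm.k0 y).eq_or_lt with h1 | h1
  · have e1 : D y = 0 := by simp only [hD]; rw [← h1]; simp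
    simp only [hu]
    rw [e1, ← h1]
    simp
  · have e2 : 0 < th * k y := mul_pos hth h1
    simp only [hu, hD]
    rw [norm_mul, norm_mul, norm_mul, norm_inv, Complex.norm_real, Complex.norm_real,
      Real.norm_of_nonneg (Real.sqrt_nonneg _), Real.norm_of_nonneg h1.le, mul_pow, mul_pow,
      mul_pow, inv_pow, Real.sq_sqrt e2.le]
    apply le_of_eq
    field_simp

/-- the equation of the correction -/
theorem eqn (x : ι) :
    (gav H0 k c x - γ0 x) - ∑ y, rsc H0 (bv k c γ0) x y ^ 2 * ((k y : ℂ) * (gav H0 k c y - γ0 y)) =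
      (rsc H0 (bv k c γ0) x x - γ0 x) + NN H0 k c γ0 (fun y => gav H0 k c y - γ0 y) x := by
  have e1 : bd k c γ0 (fun y => gav H0 k c y - γ0 y) = bv k c (gav H0 k c) := by
    funext y
    simp only [bd, bv]
    ring
  have e2 := Gv_diag h.adm x
  unfold Gv at e2
  unfold NN
  rw [e1, e2]
  ring

/-- duality: weighted `ℓ¹` bound of `(1 - R0 κ)⁻¹` -/
theorem dual (d : ι → ℂ) :
    ∑ x, k x * ‖d x‖ ≤
      Pq * ∑ x, k x * ‖d x - ∑ y, rsc H0 (bv k c γ0) x y ^ 2 * ((k y : ℂ) * d y)‖ := by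
  obtain ⟨T, hT1, hT2⟩ := h.lin_inv
  have hPq := h.Pq0
  set s : ι → ℂ := fun x => if d x = 0 then 0 else star (d x) / (‖d x‖ : ℂ) with hs
  have hs1 : ‖s‖ ≤ 1 := by
    rw [pi_norm_le_iff_of_nonneg zero_le_one]
    intro x
    simp only [hs]
    split_ifs with h0
    · simp
    · rw [norm_div, norm_star, Complex.norm_real, norm_norm, div_self (norm_ne_zero_iff.2 h0)]
  have hsd : ∀ x, s x * d x = (‖d x‖ : ℂ) := by
    intro x
    simp only [hs]
    split_ifs with h0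
    · rw [h0]; simp
    · have e1 : (‖d x‖ : ℂ) ≠ 0 := by simpa using h0
      rw [div_mul_eq_mul_div, RCLike.star_def, Complex.conj_mul', sq, mul_div_assoc, div_self e1,
        mul_one]
  set u := T s with hu
  have hub : ∀ x, ‖u x‖ ≤ Pq := by
    intro x
    refine (norm_le_pi_norm u x).trans ((hT1 s).trans ?_)
    calc Pq * ‖s‖ ≤ Pq * 1 := mul_le_mul_of_nonneg_left hs1 (by linarith)
      _ = Pq := mul_one _
  set f : ι → ℂ := fun x => d x - ∑ y, rsc H0 (bv k c γ0) x y ^ 2 * ((k y : ℂ) * d y) with hf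
  have h1 : ((∑ x, k x * ‖d x‖ : ℝ) : ℂ) = ∑ x, (k x : ℂ) * (u x * f x) := by
    push_cast
    have e1 : ∀ x, (k x : ℂ) * (‖d x‖ : ℂ) = (k x : ℂ) * (u x * d x) -
        ∑ y, (k x : ℂ) * ((k y : ℂ) * (rsc H0 (bv k c γ0) x y ^ 2 * (u y * d x))) := by
      intro x
      rw [← hsd x, ← hT2 s x]
      have e2 : ∑ y, (k x : ℂ) * ((k y : ℂ) * (rsc H0 (bv k c γ0) x y ^ 2 * (u y * d x))) =
          (k x : ℂ) * ((∑ y, rsc H0 (bv k c γ0) x y ^ 2 * ((k y : ℂ) * T s y)) * d x) := by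
        rw [Finset.sum_mul, Finset.mul_sum]
        refine Finset.sum_congr rfl fun y _ => ?_
        ring
      rw [e2]
      ring
    have e3 : ∀ x, (k x : ℂ) * (u x * f x) = (k x : ℂ) * (u x * d x) -
        ∑ y, (k y : ℂ) * ((k x : ℂ) * (rsc H0 (bv k c γ0) y x ^ 2 * (u x * d y))) := by
      intro x
      simp only [hf]
      have e2 : ∑ y, (k y : ℂ) * ((k x : ℂ) * (rsc H0 (bv k c γ0) y x ^ 2 * (u x * d y))) =
          (k x : ℂ) * (u x * ∑ y, rsc H0 (bv k c γ0) x y ^ 2 * ((k y : ℂ) * d y)) := by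
        rw [Finset.mul_sum, Finset.mul_sum]
        refine Finset.sum_congr rfl fun y _ => ?_
        rw [rsc_symm h.adm.sym (bv k c γ0) y x]
        ring
      rw [e2]
      ring
    rw [Finset.sum_congr rfl fun x _ => e1 x, Finset.sum_congr rfl fun x _ => e3 x,
      Finset.sum_sub_distrib, Finset.sum_sub_distrib]
    congr 1
    exact Finset.sum_comm
  have h2 : ∑ x, k x * ‖d x‖ ≤ ‖∑ x, (k x : ℂ) * (u x * f x)‖ := by
    rw [← h1, Complex.norm_real]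
    exact le_abs_self _
  refine h2.trans ((norm_sum_le _ _).trans ?_)
  rw [Finset.mul_sum]
  refine Finset.sum_le_sum fun x _ => ?_
  rw [norm_mul, norm_mul, Complex.norm_real, Real.norm_of_nonneg (h.adm.k0 x)]
  calc k x * (‖u x‖ * ‖f x‖) ≤ k x * (Pq * ‖f x‖) :=
        mul_le_mul_of_nonneg_left (mul_le_mul_of_nonneg_right (hub x) (norm_nonneg _)) (h.adm.k0 x)
    _ = _ := by ring

private lemma col_sum (y : ι) :
    ∑ x, k x * ‖rsc H0 (bv k c γ0) x y‖ ^ 2 ≤ C1 / (2 * th) := by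
  have hth := h.th0
  have h1 := wrow (w := fun x => 2 * th * k x) h.adm.sym (bv_neg h.adm h.im0) h.low y
  have h2 := h1.trans (h.dia y)
  rw [le_div_iff₀ (by positivity)]
  calc (∑ x, k x * ‖rsc H0 (bv k c γ0) x y‖ ^ 2) * (2 * th) =
      ∑ x, 2 * th * k x * ‖rsc H0 (bv k c γ0) y x‖ ^ 2 := by
        rw [Finset.sum_mul]
        refine Finset.sum_congr rfl fun x _ => ?_
        rw [rsc_symm h.adm.sym (bv k c γ0) x y]
        ring
    _ ≤ C1 := h2

/-- weighted `ℓ¹` bound of the correction -/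
theorem l1 : ∑ x, k x * ‖gav H0 k c x - γ0 x‖ ≤
    2 * Pq * ∑ x, k x * ‖rsc H0 (bv k c γ0) x x - γ0 x‖ := by
  have hth := h.th0
  have hPq := h.Pq0
  have ha := h.a0
  have hC := h.C10
  set d : ι → ℂ := fun y => gav H0 k c y - γ0 y with hd
  have hρ : 2 * Pq * a ≤ th := by
    have := h.sm2
    have : 0 ≤ Pq * a := by positivity
    nlinarith [h.sm2]
  have hdb : ∀ x, ‖d x‖ ≤ 2 * Pq * a := h.main
  have h1 := h.dual d
  have h2 : ∑ x, k x * ‖d x - ∑ y, rsc H0 (bv k c γ0) x y ^ 2 * ((k y : ℂ) * d y)‖ ≤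
      ∑ x, k x * ‖rsc H0 (bv k c γ0) x x - γ0 x‖ + C1 * Pq * a / th ^ 2 * ∑ x, k x * ‖d x‖ := by
    have e1 : ∀ x, k x * ‖d x - ∑ y, rsc H0 (bv k c γ0) x y ^ 2 * ((k y : ℂ) * d y)‖ ≤
        k x * ‖rsc H0 (bv k c γ0) x x - γ0 x‖ +
          1 / th * ∑ y, k x * (k y * ‖d y‖ ^ 2 * ‖rsc H0 (bv k c γ0) x y‖ ^ 2) := by
      intro x
      have e2 := h.eqn x
      simp only [hd]
      rw [e2]
      have e3 := h.NN_pt hρ hdb x
      calc k x * ‖rsc H0 (bv k c γ0) x x - γ0 x + NN H0 k c γ0 (fun y => gav H0 k c y - γ0 y) x‖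
          ≤ k x * (‖rsc H0 (bv k c γ0) x x - γ0 x‖ +
            1 / th * ∑ y, k y * ‖d y‖ ^ 2 * ‖rsc H0 (bv k c γ0) x y‖ ^ 2) :=
            mul_le_mul_of_nonneg_left ((norm_add_le _ _).trans (add_le_add le_rfl e3)) (h.adm.k0 x)
        _ = _ := by
            rw [mul_add, ← Finset.mul_sum]
            ring
    refine (Finset.sum_le_sum fun x _ => e1 x).trans ?_
    rw [Finset.sum_add_distrib]
    refine add_le_add le_rfl ?_
    rw [← Finset.mul_sum, Finset.sum_comm]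
    have e4 : ∀ y, ∑ x, k x * (k y * ‖d y‖ ^ 2 * ‖rsc H0 (bv k c γ0) x y‖ ^ 2) ≤
        2 * Pq * a * (C1 / (2 * th)) * (k y * ‖d y‖) := by
      intro y
      have e5 : ∑ x, k x * (k y * ‖d y‖ ^ 2 * ‖rsc H0 (bv k c γ0) x y‖ ^ 2) =
          (k y * ‖d y‖ ^ 2) * ∑ x, k x * ‖rsc H0 (bv k c γ0) x y‖ ^ 2 := by
        rw [Finset.mul_sum]
        refine Finset.sum_congr rfl fun x _ => ?_
        ring
      rw [e5]
      have hky := h.adm.k0 y
      calc (k y * ‖d y‖ ^ 2) * ∑ x, k x * ‖rsc H0 (bv k c γ0) x y‖ ^ 2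
          ≤ (k y * ‖d y‖ ^ 2) * (C1 / (2 * th)) :=
            mul_le_mul_of_nonneg_left (h.col_sum y) (by positivity)
        _ = ‖d y‖ * (C1 / (2 * th) * (k y * ‖d y‖)) := by ring
        _ ≤ (2 * Pq * a) * (C1 / (2 * th) * (k y * ‖d y‖)) :=
            mul_le_mul_of_nonneg_right (hdb y) (by positivity)
        _ = _ := by ring
    calc 1 / th * ∑ y, ∑ x, k x * (k y * ‖d y‖ ^ 2 * ‖rsc H0 (bv k c γ0) x y‖ ^ 2)
        ≤ 1 / th * ∑ y, 2 * Pq * a * (C1 / (2 * th)) * (k y * ‖d y‖) :=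
          mul_le_mul_of_nonneg_left (Finset.sum_le_sum fun y _ => e4 y) (by positivity)
      _ = C1 * Pq * a / th ^ 2 * ∑ x, k x * ‖d x‖ := by
          rw [← Finset.mul_sum]
          field_simp
  have h3 : Pq * (C1 * Pq * a / th ^ 2) ≤ 1 / 2 := by
    have h4 := h.sm1
    rw [mul_div_assoc', div_le_div_iff₀ (by positivity) (by norm_num)]
    nlinarith
  have hS0 : 0 ≤ ∑ x, k x * ‖d x‖ :=
    Finset.sum_nonneg fun x _ => mul_nonneg (h.adm.k0 x) (norm_nonneg _)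
  have h5 := mul_le_mul_of_nonneg_left h2 (by linarith : 0 ≤ Pq)
  have h6 := mul_le_mul_of_nonneg_right h3 hS0
  change ∑ x, k x * ‖d x‖ ≤ _
  linarith

/-- weighted sup bound of the correction: `ω > 0` a weight -/
theorem wt {om : ι → ℝ} (hom : ∀ x, 0 < om x) {Pw aw C3 : ℝ}
    (hsup : ∀ (u : ι → ℂ) (m : ℝ), (∀ x, ‖u x - ∑ y, rsc H0 (bv k c γ0) x y ^ 2 *
      ((k y : ℂ) * u y)‖ ≤ m * om x) → ∀ x, ‖u x‖ ≤ Pw * m * om x)
    (hg : ∀ x, ‖rsc H0 (bv k c γ0) x x - γ0 x‖ ≤ aw * om x)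
    (hC : ∀ x, ∑ y, k y * om y * ‖rsc H0 (bv k c γ0) x y‖ ^ 2 ≤ C3 * om x)
    (hs : 4 * Pw * C3 * Pq * a ≤ th) (x : ι) :
    ‖gav H0 k c x - γ0 x‖ ≤ 2 * Pw * aw * om x := by
  have hth := h.th0
  have hPq := h.Pq0
  have ha := h.a0
  set d : ι → ℂ := fun y => gav H0 k c y - γ0 y with hd
  have hρ : 2 * Pq * a ≤ th := by
    have : 0 ≤ Pq * a := by positivity
    nlinarith [h.sm2]
  have hdb : ∀ x, ‖d x‖ ≤ 2 * Pq * a := h.main
  have haw : 0 ≤ aw := by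
    have := (norm_nonneg _).trans (hg x)
    by_contra hneg
    push Not at hneg
    have := mul_neg_of_neg_of_pos hneg (hom x)
    linarith
  obtain ⟨x0, -, hx0⟩ := Finset.exists_max_image (Finset.univ : Finset ι)
    (fun y => ‖d y‖ / om y) ⟨x, Finset.mem_univ x⟩
  set s : ℝ := ‖d x0‖ / om x0 with hsd
  have hs0 : 0 ≤ s := div_nonneg (norm_nonneg _) (hom x0).le
  have hu : ∀ y, ‖d y‖ ≤ s * om y := by
    intro y
    have h1 := hx0 y (Finset.mem_univ y)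
    rwa [div_le_iff₀ (hom y)] at h1
  have h1 : ∀ x, ‖d x - ∑ y, rsc H0 (bv k c γ0) x y ^ 2 * ((k y : ℂ) * d y)‖ ≤
      (aw + 2 * Pq * a * C3 / th * s) * om x := by
    intro x
    have e2 := h.eqn x
    simp only [hd]
    rw [e2]
    have e3 := h.NN_pt hρ hdb x
    have e4 : 1 / th * ∑ y, k y * ‖d y‖ ^ 2 * ‖rsc H0 (bv k c γ0) x y‖ ^ 2 ≤
        2 * Pq * a * C3 / th * s * om x := by
      have e5 : ∑ y, k y * ‖d y‖ ^ 2 * ‖rsc H0 (bv k c γ0) x y‖ ^ 2 ≤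
          ∑ y, (2 * Pq * a * s) * (k y * om y * ‖rsc H0 (bv k c γ0) x y‖ ^ 2) := by
        refine Finset.sum_le_sum fun y _ => ?_
        have hk := h.adm.k0 y
        have ho := (hom y).le
        calc k y * ‖d y‖ ^ 2 * ‖rsc H0 (bv k c γ0) x y‖ ^ 2
            = ‖d y‖ * ‖d y‖ * (k y * ‖rsc H0 (bv k c γ0) x y‖ ^ 2) := by ring
          _ ≤ (2 * Pq * a) * (s * om y) * (k y * ‖rsc H0 (bv k c γ0) x y‖ ^ 2) := by
              refine mul_le_mul_of_nonneg_right ?_ (by positivity)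
              exact mul_le_mul (hdb y) (hu y) (norm_nonneg _) (by positivity)
          _ = _ := by ring
      rw [← Finset.mul_sum] at e5
      calc 1 / th * ∑ y, k y * ‖d y‖ ^ 2 * ‖rsc H0 (bv k c γ0) x y‖ ^ 2
          ≤ 1 / th * ((2 * Pq * a * s) * (C3 * om x)) := by
            refine mul_le_mul_of_nonneg_left (e5.trans ?_) (by positivity)
            exact mul_le_mul_of_nonneg_left (hC x) (by positivity)
        _ = _ := by ring
    refine (norm_add_le _ _).trans ?_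
    have e6 := hg x
    calc _ ≤ aw * om x + 2 * Pq * a * C3 / th * s * om x := add_le_add e6 (e3.trans e4)
      _ = _ := by ring
  have h2 := hsup d _ h1
  have h3 : s ≤ Pw * (aw + 2 * Pq * a * C3 / th * s) := by
    rw [hsd, div_le_iff₀ (hom x0), ← hsd]
    exact h2 x0
  have h4 : Pw * (2 * Pq * a * C3 / th) ≤ 1 / 2 := by
    rw [mul_div_assoc', div_le_div_iff₀ hth (by norm_num)]
    nlinarith
  have h5 := mul_le_mul_of_nonneg_right h4 hs0
  have h6 : s ≤ 2 * Pw * aw := by nlinarith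
  exact (hu x).trans (mul_le_mul_of_nonneg_right h6 (hom x).le)

end RF

end Pool.Agent.GSC
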