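import Pool.Agent.GSC.Refreeze

/-! # GSC PAbs: sup norm bound of `(1 - T)⁻¹` from an `ℓ²` bound of `(1 + T)/2` and locality.

`∑_y |T_xy| m_y ≤ (1+α) m_x`, `(1+α)^(2l) ≤ 2` (sup norm contraction with weight `m`),
`B = (1 + T)/2`, `∑ κ |B u|² ≤ q² ∑ κ |u|²`, `|(T u)_x|² ≤ C'² ∑ κ |u|²`,
`∑_y |T_xy| m_y e^{μ (w_y - w_x)} ≤ E m_x` for the weight `w = w^(x0)` of every point `x0`
(`w^(x0)(x0) = 0`), `∑_{w^(x0)(y) ≤ r} κ_y ≤ A²`.

`B^n = 2^{-n} + ∑_{i<n} 2^{-(n-i)} T B^i`.  For `|u| ≤ s m`: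
* `|B^i u| ≤ s m`, `|T B^i u| ≤ s m`;
* near part: `|T B^i (u 1_near)|_x ≤ C' q^i s C1 A`;
* far part: `|T B^i (u 1_far)|_x ≤ s e^{-μ r} E^{i+1} m_x`.
So `|B^n u| ≤ s m/2`; `u = (1/2) ∑_{j<n} B^j (u - T u) + B^n u`.
-/

open Matrix Finset

noncomputable section

namespace Pool.Agent.GSC

open Pool.Agent.Kin Pool.Agent.APS

variable {ι : Type} [Fintype ι] [DecidableEq ι]

/-- the averaged matrix -/
def BB (T : Matrix ι ι ℂ) : Matrix ι ι ℂ := (1 / 2 : ℂ) • (1 + T)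

/-- data and hypotheses of the abstract bound (`n = 2 l`) -/
structure PA (T : Matrix ι ι ℂ) (m kap : ι → ℝ) (w : ι → ι → ℝ)
    (al c1 C1 q C' mu E A r : ℝ) (l : ℕ) : Prop where
  al0 : 0 ≤ al
  al1 : (1 + al) ^ (2 * l) ≤ 2
  c10 : 0 < c1
  mlo : ∀ x, c1 ≤ m x
  mup : ∀ x, m x ≤ C1
  kap0 : ∀ x, 0 ≤ kap x
  row : ∀ x, ∑ y, ‖T x y‖ * m y ≤ (1 + al) * m x
  q0 : 0 ≤ q
  q1 : q ≤ 1
  l2 : ∀ u : ι → ℂ, ∑ x, kap x * ‖(BB T *ᵥ u) x‖ ^ 2 ≤ q ^ 2 * ∑ x, kap x * ‖u x‖ ^ 2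
  Cp0 : 0 ≤ C'
  pt : ∀ (u : ι → ℂ) (x : ι), ‖(T *ᵥ u) x‖ ^ 2 ≤ C' ^ 2 * ∑ y, kap y * ‖u y‖ ^ 2
  mu0 : 0 ≤ mu
  E1 : 1 ≤ E
  ww : ∀ x, w x x = 0
  ex : ∀ x0 x, ∑ y, ‖T x y‖ * (m y * Real.exp (mu * (w x0 y - w x0 x))) ≤ E * m x
  A0 : 0 ≤ A
  vol : ∀ x, ∑ y ∈ univ.filter (fun y => w x y ≤ r), kap y ≤ A ^ 2
  l4 : 4 ≤ l
  n1 : C' * q ^ l * C1 * A ≤ c1 / 8
  n2 : Real.exp (-(mu * r)) * E ^ (2 * l) ≤ 1 / 8

variable {T : Matrix ι ι ℂ} {m kap : ι → ℝ} {w : ι → ι → ℝ} {al c1 C1 q C' mu E A r : ℝ} {l : ℕ}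

namespace PA

variable (h : PA T m kap w al c1 C1 q C' mu E A r l)
include h

theorem m0 (x : ι) : 0 < m x := h.c10.trans_le (h.mlo x)

theorem T_sup {u : ι → ℂ} {s : ℝ} (hs : 0 ≤ s) (hu : ∀ x, ‖u x‖ ≤ s * m x) (x : ι) :
    ‖(T *ᵥ u) x‖ ≤ s * (1 + al) * m x := by
  calc ‖(T *ᵥ u) x‖ ≤ ∑ y, ‖T x y * u y‖ := norm_sum_le _ _
    _ ≤ ∑ y, s * (‖T x y‖ * m y) := by
        refine Finset.sum_le_sum fun y _ => ?_
        rw [norm_mul]
        calc ‖T x y‖ * ‖u y‖ ≤ ‖T x y‖ * (s * m y) :=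
              mul_le_mul_of_nonneg_left (hu y) (norm_nonneg _)
          _ = _ := by ring
    _ = s * ∑ y, ‖T x y‖ * m y := by rw [Finset.mul_sum]
    _ ≤ s * ((1 + al) * m x) := mul_le_mul_of_nonneg_left (h.row x) hs
    _ = _ := by ring

omit h in
theorem BB_apply (u : ι → ℂ) (x : ι) : (BB T *ᵥ u) x = (1 / 2 : ℂ) * (u x + (T *ᵥ u) x) := by
  unfold BB
  rw [Matrix.smul_mulVec, Matrix.add_mulVec, Matrix.one_mulVec]
  rfl

theorem B_sup {u : ι → ℂ} {s : ℝ} (hs : 0 ≤ s) (hu : ∀ x, ‖u x‖ ≤ s * m x) (x : ι) :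
    ‖(BB T *ᵥ u) x‖ ≤ s * (1 + al) * m x := by
  rw [BB_apply, norm_mul]
  have h1 : ‖(1 / 2 : ℂ)‖ = 1 / 2 := by norm_num
  rw [h1]
  have h2 := norm_add_le (u x) ((T *ᵥ u) x)
  have h3 := h.T_sup hs hu x
  have h4 := hu x
  have h5 : 0 ≤ s * al * m x := mul_nonneg (mul_nonneg hs h.al0) (h.m0 x).le
  linarith

theorem Bn_sup {u : ι → ℂ} {s : ℝ} (hs : 0 ≤ s) (hu : ∀ x, ‖u x‖ ≤ s * m x) (n : ℕ) (x : ι) :
    ‖((BB T ^ n) *ᵥ u) x‖ ≤ s * (1 + al) ^ n * m x := by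
  have hal := h.al0
  induction n generalizing x with
  | zero => simpa using hu x
  | succ n ih =>
    rw [pow_succ', ← Matrix.mulVec_mulVec]
    have h1 := h.B_sup (s := s * (1 + al) ^ n) (by positivity) ih x
    calc _ ≤ _ := h1
      _ = _ := by ring

theorem pw {n : ℕ} (hn : n ≤ 2 * l) : (1 + al) ^ n ≤ 2 := by
  have hal := h.al0
  exact (pow_le_pow_right₀ (by linarith) hn).trans h.al1

theorem Bn_sup2 {u : ι → ℂ} {s : ℝ} (hs : 0 ≤ s) (hu : ∀ x, ‖u x‖ ≤ s * m x) {n : ℕ}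
    (hn : n ≤ 2 * l) (x : ι) : ‖((BB T ^ n) *ᵥ u) x‖ ≤ 2 * s * m x := by
  refine (h.Bn_sup hs hu n x).trans ?_
  refine mul_le_mul_of_nonneg_right ?_ (h.m0 x).le
  have := mul_le_mul_of_nonneg_left (h.pw hn) hs
  linarith

theorem TBn_sup2 {u : ι → ℂ} {s : ℝ} (hs : 0 ≤ s) (hu : ∀ x, ‖u x‖ ≤ s * m x) {n : ℕ}
    (hn : n < 2 * l) (x : ι) : ‖(T *ᵥ ((BB T ^ n) *ᵥ u)) x‖ ≤ 2 * s * m x := by
  have hal := h.al0
  refine (h.T_sup (s := s * (1 + al) ^ n) (by positivity) (h.Bn_sup hs hu n) x).trans ?_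
  refine mul_le_mul_of_nonneg_right ?_ (h.m0 x).le
  have h1 := mul_le_mul_of_nonneg_left (h.pw (n := n + 1) hn) hs
  calc s * (1 + al) ^ n * (1 + al) = s * (1 + al) ^ (n + 1) := by ring
    _ ≤ 2 * s := by linarith

theorem Bn_l2 (u : ι → ℂ) (n : ℕ) :
    ∑ x, kap x * ‖((BB T ^ n) *ᵥ u) x‖ ^ 2 ≤ (q ^ n) ^ 2 * ∑ x, kap x * ‖u x‖ ^ 2 := by
  induction n with
  | zero => simp
  | succ n ih =>
    rw [pow_succ', ← Matrix.mulVec_mulVec]
    refine (h.l2 _).trans ?_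
    calc q ^ 2 * ∑ x, kap x * ‖((BB T ^ n) *ᵥ u) x‖ ^ 2
        ≤ q ^ 2 * ((q ^ n) ^ 2 * ∑ x, kap x * ‖u x‖ ^ 2) :=
          mul_le_mul_of_nonneg_left ih (sq_nonneg _)
      _ = _ := by ring

/-- growth condition `|u_y| ≤ s m_y e^{μ w_y}` is propagated by `T` with the factor `E` -/
theorem T_exp (x0 : ι) {u : ι → ℂ} {s : ℝ} (hs : 0 ≤ s)
    (hu : ∀ y, ‖u y‖ ≤ s * (m y * Real.exp (mu * w x0 y))) (x : ι) :
    ‖(T *ᵥ u) x‖ ≤ E * s * (m x * Real.exp (mu * w x0 x)) := by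
  calc ‖(T *ᵥ u) x‖ ≤ ∑ y, ‖T x y * u y‖ := norm_sum_le _ _
    _ ≤ ∑ y, (s * Real.exp (mu * w x0 x)) *
          (‖T x y‖ * (m y * Real.exp (mu * (w x0 y - w x0 x)))) := by
        refine Finset.sum_le_sum fun y _ => ?_
        rw [norm_mul]
        have h1 : Real.exp (mu * w x0 y) =
            Real.exp (mu * w x0 x) * Real.exp (mu * (w x0 y - w x0 x)) := by
          rw [← Real.exp_add]
          congr 1
          ring
        calc ‖T x y‖ * ‖u y‖ ≤ ‖T x y‖ * (s * (m y * Real.exp (mu * w x0 y))) :=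
              mul_le_mul_of_nonneg_left (hu y) (norm_nonneg _)
          _ = _ := by rw [h1]; ring
    _ = (s * Real.exp (mu * w x0 x)) *
          ∑ y, ‖T x y‖ * (m y * Real.exp (mu * (w x0 y - w x0 x))) := by
        rw [Finset.mul_sum]
    _ ≤ (s * Real.exp (mu * w x0 x)) * (E * m x) :=
        mul_le_mul_of_nonneg_left (h.ex x0 x) (by positivity)
    _ = _ := by ring

theorem B_exp (x0 : ι) {u : ι → ℂ} {s : ℝ} (hs : 0 ≤ s)
    (hu : ∀ y, ‖u y‖ ≤ s * (m y * Real.exp (mu * w x0 y))) (x : ι) :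
    ‖(BB T *ᵥ u) x‖ ≤ E * s * (m x * Real.exp (mu * w x0 x)) := by
  rw [BB_apply, norm_mul]
  have h1 : ‖(1 / 2 : ℂ)‖ = 1 / 2 := by norm_num
  rw [h1]
  have h2 := norm_add_le (u x) ((T *ᵥ u) x)
  have h3 := h.T_exp x0 hs hu x
  have h4 := hu x
  have h5 : 0 ≤ m x * Real.exp (mu * w x0 x) := mul_nonneg (h.m0 x).le (Real.exp_nonneg _)
  have h6 : s * (m x * Real.exp (mu * w x0 x)) ≤ E * s * (m x * Real.exp (mu * w x0 x)) := by
    refine mul_le_mul_of_nonneg_right ?_ h5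
    have := mul_le_mul_of_nonneg_right h.E1 hs
    linarith
  linarith

theorem Bn_exp (x0 : ι) {u : ι → ℂ} {s : ℝ} (hs : 0 ≤ s)
    (hu : ∀ y, ‖u y‖ ≤ s * (m y * Real.exp (mu * w x0 y))) (n : ℕ) (x : ι) :
    ‖((BB T ^ n) *ᵥ u) x‖ ≤ E ^ n * s * (m x * Real.exp (mu * w x0 x)) := by
  have hE : 0 ≤ E := by linarith [h.E1]
  induction n generalizing x with
  | zero => simpa using hu x
  | succ n ih =>
    rw [pow_succ', ← Matrix.mulVec_mulVec]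
    have h1 := h.B_exp x0 (s := E ^ n * s) (by positivity) ih x
    calc _ ≤ _ := h1
      _ = _ := by ring

/-- the decisive bound of `T B^i u` for `l ≤ i < 2 l` -/
theorem TBi {u : ι → ℂ} {s : ℝ} (hs : 0 ≤ s) (hu : ∀ x, ‖u x‖ ≤ s * m x) {i : ℕ} (hi : l ≤ i)
    (hi2 : i < 2 * l) (x : ι) : ‖(T *ᵥ ((BB T ^ i) *ᵥ u)) x‖ ≤ s * (1 / 4) * m x := by
  have hE : 0 ≤ E := by linarith [h.E1]
  have hC1 : 0 ≤ C1 := (h.m0 x).le.trans (h.mup x)
  have hA := h.A0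
  have hCp := h.Cp0
  set u1 : ι → ℂ := fun y => if w x y ≤ r then u y else 0 with hu1
  set u2 : ι → ℂ := fun y => if w x y ≤ r then 0 else u y with hu2
  have h12 : u = u1 + u2 := by
    funext y
    simp only [hu1, hu2, _root_.Pi.add_apply]
    split_ifs <;> simp
  have e0 : (T *ᵥ ((BB T ^ i) *ᵥ u)) x = (T *ᵥ ((BB T ^ i) *ᵥ u1)) x +
      (T *ᵥ ((BB T ^ i) *ᵥ u2)) x := by
    rw [h12, Matrix.mulVec_add, Matrix.mulVec_add]
    rfl
  -- near part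
  have n1 : ∑ y, kap y * ‖u1 y‖ ^ 2 ≤ (s * C1 * A) ^ 2 := by
    calc ∑ y, kap y * ‖u1 y‖ ^ 2 ≤ ∑ y, (if w x y ≤ r then kap y * (s * C1) ^ 2 else 0) := by
          refine Finset.sum_le_sum fun y _ => ?_
          simp only [hu1]
          split_ifs with hy
          · refine mul_le_mul_of_nonneg_left ?_ (h.kap0 y)
            refine pow_le_pow_left₀ (norm_nonneg _) ?_ 2
            exact (hu y).trans (mul_le_mul_of_nonneg_left (h.mup y) hs)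
          · simp
      _ = (∑ y ∈ univ.filter (fun y => w x y ≤ r), kap y) * (s * C1) ^ 2 := by
          rw [← Finset.sum_filter, Finset.sum_mul]
      _ ≤ A ^ 2 * (s * C1) ^ 2 := mul_le_mul_of_nonneg_right (h.vol x) (sq_nonneg _)
      _ = _ := by ring
  have n2 : ‖(T *ᵥ ((BB T ^ i) *ᵥ u1)) x‖ ≤ C' * q ^ l * (s * C1 * A) := by
    have e1 := h.pt ((BB T ^ i) *ᵥ u1) x
    have e2 := h.Bn_l2 u1 i
    have hq := h.q0
    have e3 : q ^ i ≤ q ^ l := pow_le_pow_of_le_one h.q0 h.q1 hi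
    have e4 : ‖(T *ᵥ ((BB T ^ i) *ᵥ u1)) x‖ ^ 2 ≤ (C' * q ^ l * (s * C1 * A)) ^ 2 := by
      calc _ ≤ C' ^ 2 * ∑ y, kap y * ‖((BB T ^ i) *ᵥ u1) y‖ ^ 2 := e1
        _ ≤ C' ^ 2 * ((q ^ i) ^ 2 * ∑ x, kap x * ‖u1 x‖ ^ 2) :=
            mul_le_mul_of_nonneg_left e2 (sq_nonneg _)
        _ ≤ C' ^ 2 * ((q ^ l) ^ 2 * (s * C1 * A) ^ 2) := by
            have e5 : 0 ≤ ∑ x, kap x * ‖u1 x‖ ^ 2 :=
              Finset.sum_nonneg fun y _ => mul_nonneg (h.kap0 y) (sq_nonneg _)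
            have e6 : (q ^ i) ^ 2 ≤ (q ^ l) ^ 2 := pow_le_pow_left₀ (by positivity) e3 2
            exact mul_le_mul_of_nonneg_left (mul_le_mul e6 n1 e5 (sq_nonneg _)) (sq_nonneg _)
        _ = _ := by ring
    exact le_of_sq_le_sq e4 (by positivity)
  -- far part
  have f1 : ∀ y, ‖u2 y‖ ≤ (s * Real.exp (-(mu * r))) * (m y * Real.exp (mu * w x y)) := by
    intro y
    have hm := (h.m0 y).le
    simp only [hu2]
    split_ifs with hy
    · rw [norm_zero]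
      positivity
    · have e1 : 1 ≤ Real.exp (-(mu * r)) * Real.exp (mu * w x y) := by
        rw [← Real.exp_add]
        apply Real.one_le_exp
        have := mul_le_mul_of_nonneg_left (not_le.1 hy).le h.mu0
        linarith
      calc ‖u y‖ ≤ s * m y := hu y
        _ = s * m y * 1 := by ring
        _ ≤ s * m y * (Real.exp (-(mu * r)) * Real.exp (mu * w x y)) :=
            mul_le_mul_of_nonneg_left e1 (by positivity)
        _ = _ := by ring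
  have f2 := h.T_exp x (s := E ^ i * (s * Real.exp (-(mu * r)))) (by positivity)
    (h.Bn_exp x (by positivity) f1 i) x
  rw [h.ww, mul_zero, Real.exp_zero, mul_one] at f2
  have f3 : E * (E ^ i * (s * Real.exp (-(mu * r)))) * m x ≤ s * (1 / 8) * m x := by
    refine mul_le_mul_of_nonneg_right ?_ (h.m0 x).le
    have e1 : E ^ (i + 1) ≤ E ^ (2 * l) := pow_le_pow_right₀ h.E1 (by omega)
    calc E * (E ^ i * (s * Real.exp (-(mu * r)))) = s * (Real.exp (-(mu * r)) * E ^ (i + 1)) := by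
          ring
      _ ≤ s * (Real.exp (-(mu * r)) * E ^ (2 * l)) := by
          gcongr
      _ ≤ s * (1 / 8) := mul_le_mul_of_nonneg_left h.n2 hs
  have n3 : C' * q ^ l * (s * C1 * A) ≤ s * (1 / 8) * m x := by
    calc C' * q ^ l * (s * C1 * A) = s * (C' * q ^ l * C1 * A) := by ring
      _ ≤ s * (c1 / 8) := mul_le_mul_of_nonneg_left h.n1 hs
      _ ≤ s * (m x / 8) := by
          refine mul_le_mul_of_nonneg_left ?_ hs
          have := h.mlo x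
          linarith
      _ = _ := by ring
  rw [e0]
  refine (norm_add_le _ _).trans ?_
  linarith

omit h in
/-- `B^n = 2^{-n} + ∑_{i<n} 2^{-(n-i)} T B^i`, as a bound -/
theorem Bn_rec {u : ι → ℂ} {t : ℕ → ℝ} (x : ι) (n : ℕ)
    (ht : ∀ i < n, ‖(T *ᵥ ((BB T ^ i) *ᵥ u)) x‖ ≤ t i) :
    ‖((BB T ^ n) *ᵥ u) x‖ ≤ (1 / 2) ^ n * ‖u x‖ + ∑ i ∈ range n, (1 / 2) ^ (n - i) * t i := by
  induction n with
  | zero => simp
  | succ n ih =>
    have ih := ih fun i hi => ht i (by omega)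
    rw [pow_succ', ← Matrix.mulVec_mulVec, BB_apply, norm_mul]
    have h1 : ‖(1 / 2 : ℂ)‖ = 1 / 2 := by norm_num
    rw [h1]
    have h2 := norm_add_le (((BB T ^ n) *ᵥ u) x) ((T *ᵥ ((BB T ^ n) *ᵥ u)) x)
    have h3 := ht n (by omega)
    have h4 : ∑ i ∈ range (n + 1), (1 / 2 : ℝ) ^ (n + 1 - i) * t i =
        1 / 2 * ∑ i ∈ range n, (1 / 2 : ℝ) ^ (n - i) * t i + 1 / 2 * t n := by
      rw [Finset.sum_range_succ, Finset.mul_sum]
      congr 1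
      · refine Finset.sum_congr rfl fun i hi => ?_
        have : n + 1 - i = (n - i) + 1 := by
          have := Finset.mem_range.1 hi
          omega
        rw [this, pow_succ]
        ring
      · simp
    rw [h4, pow_succ]
    linarith

/-- `|B^{2l} u| ≤ s m/2` -/
theorem Bn_half {u : ι → ℂ} {s : ℝ} (hs : 0 ≤ s) (hu : ∀ x, ‖u x‖ ≤ s * m x) (x : ι) :
    ‖((BB T ^ (2 * l)) *ᵥ u) x‖ ≤ s * (1 / 2) * m x := by
  have hm := (h.m0 x).le
  have hsm : 0 ≤ s * m x := by positivity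
  have h1 := Bn_rec (T := T) (u := u) (t := fun i => if i < l then 2 * s * m x else
    s * (1 / 4) * m x) x (2 * l) (fun i hi2 => by
      show _ ≤ if _ then _ else _
      split_ifs with hi
      · exact h.TBn_sup2 hs hu hi2 x
      · exact h.TBi hs hu (not_lt.1 hi) hi2 x)
  have h2 : ∀ a b : ℕ, a ≤ b → ∑ i ∈ range a, (1 / 2 : ℝ) ^ (b - i) ≤ (1 / 2) ^ (b - a) := by
    intro a b hab
    induction a with
    | zero => simp
    | succ a ih =>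
      rw [Finset.sum_range_succ]
      have h3 := ih (by omega)
      have h4 : b - a = (b - (a + 1)) + 1 := by omega
      rw [h4, pow_succ] at h3 ⊢
      linarith
  have hl := h.l4
  have h3 : ∑ i ∈ range (2 * l), (1 / 2 : ℝ) ^ (2 * l - i) *
      (if i < l then 2 * s * m x else s * (1 / 4) * m x) ≤
      ∑ i ∈ range l, (1 / 2 : ℝ) ^ (2 * l - i) * (2 * s * m x) +
        ∑ i ∈ range (2 * l), (1 / 2 : ℝ) ^ (2 * l - i) * (s * (1 / 4) * m x) := by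
    have e1 : ∑ i ∈ range l, (1 / 2 : ℝ) ^ (2 * l - i) * (2 * s * m x) =
        ∑ i ∈ range (2 * l), if i < l then (1 / 2 : ℝ) ^ (2 * l - i) * (2 * s * m x) else 0 := by
      rw [← Finset.sum_filter]
      congr 1
      ext i
      simp only [Finset.mem_range, Finset.mem_filter]
      omega
    rw [e1, ← Finset.sum_add_distrib]
    refine Finset.sum_le_sum fun i hi => ?_
    have h5 : 0 ≤ (1 / 2 : ℝ) ^ (2 * l - i) := by positivity
    by_cases hil : i < l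
    · rw [if_pos hil, if_pos hil]
      have : 0 ≤ (1 / 2 : ℝ) ^ (2 * l - i) * (s * (1 / 4) * m x) := by positivity
      linarith
    · rw [if_neg hil, if_neg hil]
      linarith
  have h4 : ∑ i ∈ range l, (1 / 2 : ℝ) ^ (2 * l - i) * (2 * s * m x) ≤
      1 / 16 * (2 * s * m x) := by
    rw [← Finset.sum_mul]
    refine mul_le_mul_of_nonneg_right ?_ (by positivity)
    refine (h2 l (2 * l) (by omega)).trans ?_
    have h5 : 2 * l - l = l := by omega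
    rw [h5]
    calc (1 / 2 : ℝ) ^ l ≤ (1 / 2) ^ 4 := pow_le_pow_of_le_one (by norm_num) (by norm_num) hl
      _ = 1 / 16 := by norm_num
  have h5 : ∑ i ∈ range (2 * l), (1 / 2 : ℝ) ^ (2 * l - i) * (s * (1 / 4) * m x) ≤
      1 * (s * (1 / 4) * m x) := by
    rw [← Finset.sum_mul]
    refine mul_le_mul_of_nonneg_right ?_ (by positivity)
    refine (h2 (2 * l) (2 * l) le_rfl).trans ?_
    simp
  have h6 : (1 / 2 : ℝ) ^ (2 * l) * ‖u x‖ ≤ 1 / 16 * (s * m x) := by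
    have e1 : (1 / 2 : ℝ) ^ (2 * l) ≤ 1 / 16 := by
      calc (1 / 2 : ℝ) ^ (2 * l) ≤ (1 / 2) ^ 4 :=
            pow_le_pow_of_le_one (by norm_num) (by norm_num) (by omega)
        _ = 1 / 16 := by norm_num
    exact mul_le_mul e1 (hu x) (norm_nonneg _) (by norm_num)
  refine h1.trans ?_
  have h7 := h3.trans (add_le_add h4 h5)
  linarith

/-- THE SUP NORM BOUND -/
theorem main {u : ι → ℂ} {v : ℝ} (hv : ∀ x, ‖u x - (T *ᵥ u) x‖ ≤ v) (x : ι) :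
    ‖u x‖ ≤ 4 * l * C1 / c1 * v := by
  have hc1 := h.c10
  have hv0 : 0 ≤ v := (norm_nonneg _).trans (hv x)
  obtain ⟨x0, -, hx0⟩ := Finset.exists_max_image (Finset.univ : Finset ι)
    (fun y => ‖u y‖ / m y) ⟨x, Finset.mem_univ x⟩
  set s : ℝ := ‖u x0‖ / m x0 with hs
  have hs0 : 0 ≤ s := div_nonneg (norm_nonneg _) (h.m0 x0).le
  have hu : ∀ y, ‖u y‖ ≤ s * m y := by
    intro y
    have h1 := hx0 y (Finset.mem_univ y)
    rwa [div_le_iff₀ (h.m0 y)] at h1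
  set f : ι → ℂ := fun y => u y - (T *ᵥ u) y with hf
  have hfb : ∀ y, ‖f y‖ ≤ v / c1 * m y := by
    intro y
    refine (hv y).trans ?_
    rw [div_mul_eq_mul_div, le_div_iff₀ hc1]
    exact mul_le_mul_of_nonneg_left (h.mlo y) hv0
  -- `u = (1/2) ∑_{j<n} B^j f + B^n u`
  have hid : ∀ (n : ℕ) (y : ι), u y = (∑ j ∈ range n, (1 / 2 : ℂ) * ((BB T ^ j) *ᵥ f) y) +
      ((BB T ^ n) *ᵥ u) y := by
    intro n
    induction n with
    | zero => intro y; simp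
    | succ n ih =>
      intro y
      rw [Finset.sum_range_succ]
      have e1 : ((BB T ^ (n + 1)) *ᵥ u) y = ((BB T ^ n) *ᵥ u) y -
          (1 / 2 : ℂ) * ((BB T ^ n) *ᵥ f) y := by
        have e2 : BB T *ᵥ u = u - (1 / 2 : ℂ) • f := by
          funext z
          rw [BB_apply, _root_.Pi.sub_apply, _root_.Pi.smul_apply, smul_eq_mul, hf]
          ring
        rw [pow_succ, ← Matrix.mulVec_mulVec, e2, Matrix.mulVec_sub, Matrix.mulVec_smul]
        rfl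
      rw [e1]
      rw [ih y]
      ring_nf
  have h1 : ∀ y, ‖u y‖ ≤ (2 * l * (v / c1) + s * (1 / 2)) * m y := by
    intro y
    rw [hid (2 * l) y]
    refine (norm_add_le _ _).trans ?_
    have e1 : ‖∑ j ∈ range (2 * l), (1 / 2 : ℂ) * ((BB T ^ j) *ᵥ f) y‖ ≤
        ∑ j ∈ range (2 * l), 1 / 2 * (2 * (v / c1) * m y) := by
      refine (norm_sum_le _ _).trans (Finset.sum_le_sum fun j hj => ?_)
      rw [norm_mul]
      have h2 : ‖(1 / 2 : ℂ)‖ = 1 / 2 := by norm_num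
      rw [h2]
      exact mul_le_mul_of_nonneg_left
        (h.Bn_sup2 (by positivity) hfb (Finset.mem_range.1 hj).le y) (by norm_num)
    rw [Finset.sum_const, Finset.card_range, nsmul_eq_mul] at e1
    push_cast at e1
    have e2 := h.Bn_half hs0 hu y
    nlinarith
  have h2 : s ≤ 2 * l * (v / c1) + s * (1 / 2) := by
    have e1 := h1 x0
    rw [hs, div_le_iff₀ (h.m0 x0), ← hs]
    exact e1
  have h3 : s ≤ 4 * l * (v / c1) := by linarith
  calc ‖u x‖ ≤ s * m x := hu x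
    _ ≤ 4 * l * (v / c1) * C1 := mul_le_mul h3 (h.mup x) (h.m0 x).le (by positivity)
    _ = _ := by ring

end PA

end Pool.Agent.GSC
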