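import Pool.Agent.GSC.Cmp
import Mathlib.Topology.MetricSpace.Contracting

/-! # GSC Refreeze: the re-freezing lemma.

`b0 = c - κ γ0`, `G0 = (H0 + diag b0)⁻¹`, `|G0_xx - γ0_x| ≤ a`, `|G0_xx| ≤ C1`, `2 θ κ_x ≤ -Im b0_x`,
`(1 - R0 κ)⁻¹` bounded by `Π` in the sup norm, `12 Π² C1 a ≤ θ²`, `4 Π a ≤ θ`.
Then the self-consistent solution satisfies `|γ - γ0| ≤ 2 Π a`.

Proof.  Banach in the ball `|δ| ≤ ρ = 2 Π a` for `Φ(δ) = (1 - R0 κ)⁻¹ (diag G_δ - γ0 - R0 κ δ)`,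
`G_δ = (H0 + b0 - κ δ)⁻¹`.  With `w = θ κ`: `w ≤ -Im (b0 - κ δ)` and `|κ δ| ≤ (ρ/θ) w`.
`diag G_δ - diag G_δ' - R0 κ (δ - δ') = diag (G0 κδ G_δ κ(δ-δ') G_δ') + diag (G0 κ(δ-δ') G0 κδ' G_δ')`,
each at most `(ρ/θ) (|δ-δ'|/θ) √(C1 · 2 C1)` by `cmp_tri`.
-/

open Matrix Finset

noncomputable section

namespace Pool.Agent.GSC

open Pool.Agent.Kin Pool.Agent.APS

variable {ι : Type} [Fintype ι] [DecidableEq ι]
variable {H0 : Matrix ι ι ℂ} {e : ℝ} {k : ι → ℝ} {c γ0 : ι → ℂ}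

/-- a contraction of a closed ball with factor `1/2` has a fixed point -/
theorem ball_fix {E : Type*} [NormedAddCommGroup E] [CompleteSpace E] (Φ : E → E) {ρ : ℝ}
    (h0 : 0 ≤ ρ) (h1 : ∀ d, ‖d‖ ≤ ρ → ‖Φ d‖ ≤ ρ)
    (h2 : ∀ d d', ‖d‖ ≤ ρ → ‖d'‖ ≤ ρ → ‖Φ d - Φ d'‖ ≤ 1 / 2 * ‖d - d'‖) :
    ∃ d, ‖d‖ ≤ ρ ∧ Φ d = d := by
  set q : ℕ → E := fun n => Φ^[n] 0 with hq
  have hqs : ∀ n, q (n + 1) = Φ (q n) := fun n => by
    simp only [hq]
    rw [Function.iterate_succ_apply']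
  have hb : ∀ n, ‖q n‖ ≤ ρ := by
    intro n
    induction n with
    | zero => simpa [hq] using h0
    | succ n ih => rw [hqs]; exact h1 _ ih
  have hst : ∀ n, dist (q n) (q (n + 1)) ≤ ‖q 1 - q 0‖ * (1 / 2) ^ n := by
    intro n
    rw [dist_comm, dist_eq_norm]
    induction n with
    | zero => simp
    | succ n ih =>
      have e1 : q (n + 1 + 1) - q (n + 1) = Φ (q (n + 1)) - Φ (q n) := by rw [hqs (n + 1), hqs n]
      rw [e1]
      refine (h2 _ _ (hb _) (hb _)).trans ?_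
      calc 1 / 2 * ‖q (n + 1) - q n‖ ≤ 1 / 2 * (‖q 1 - q 0‖ * (1 / 2) ^ n) :=
            mul_le_mul_of_nonneg_left ih (by norm_num)
        _ = _ := by ring
  obtain ⟨d, hd⟩ := cauchySeq_tendsto_of_complete
    (cauchySeq_of_le_geometric (1 / 2) (‖q 1 - q 0‖) (by norm_num) hst)
  have hdb : ‖d‖ ≤ ρ := le_of_tendsto' hd.norm hb
  refine ⟨d, hdb, ?_⟩
  have h3 : Filter.Tendsto (fun n => q (n + 1)) Filter.atTop (nhds d) :=
    hd.comp (Filter.tendsto_add_atTop_nat 1)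
  have h4 : Filter.Tendsto (fun n => q (n + 1)) Filter.atTop (nhds (Φ d)) := by
    rw [tendsto_iff_norm_sub_tendsto_zero]
    have h5 : Filter.Tendsto (fun n => 1 / 2 * ‖q n - d‖) Filter.atTop (nhds (1 / 2 * 0)) :=
      (tendsto_iff_norm_sub_tendsto_zero.1 hd).const_mul _
    rw [mul_zero] at h5
    refine squeeze_zero (fun _ => norm_nonneg _) (fun n => ?_) h5
    rw [hqs]
    exact h2 _ _ (hb _) hdb
  exact tendsto_nhds_unique h4 h3

/-- `(1 - R0 κ) u` bounded by `m` implies `u` bounded by `Π m` -/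
def SupB (H0 : Matrix ι ι ℂ) (k : ι → ℝ) (b : ι → ℂ) (Pq : ℝ) : Prop :=
  ∀ (u : ι → ℂ) (m : ℝ), (∀ x, ‖u x - ∑ y, rsc H0 b x y ^ 2 * ((k y : ℂ) * u y)‖ ≤ m) →
    ∀ x, ‖u x‖ ≤ Pq * m

/-- hypotheses of the re-freezing lemma -/
structure RF (H0 : Matrix ι ι ℂ) (e : ℝ) (k : ι → ℝ) (c γ0 : ι → ℂ) (th C1 a Pq : ℝ) : Prop where
  adm : Adm H0 e k c
  im0 : ∀ x, 0 ≤ (γ0 x).im
  th0 : 0 < th
  low : ∀ x, 2 * th * k x ≤ -(bv k c γ0 x).im
  C10 : 0 ≤ C1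
  a0 : 0 ≤ a
  Pq0 : 1 ≤ Pq
  dia : ∀ x, ‖rsc H0 (bv k c γ0) x x‖ ≤ C1
  clo : ∀ x, ‖rsc H0 (bv k c γ0) x x - γ0 x‖ ≤ a
  sup : SupB H0 k (bv k c γ0) Pq
  sm1 : 12 * Pq ^ 2 * C1 * a ≤ th ^ 2
  sm2 : 4 * Pq * a ≤ th

variable {th C1 a Pq : ℝ}

/-- the diagonal `b0 - κ δ` -/
def bd (k : ι → ℝ) (c γ0 d : ι → ℂ) : ι → ℂ := fun y => bv k c γ0 y - (k y : ℂ) * d y

namespace RF

variable (h : RF H0 e k c γ0 th C1 a Pq)

include h

theorem wlow {d : ι → ℂ} {ρ : ℝ} (hρ : ρ ≤ th) (hd : ∀ x, ‖d x‖ ≤ ρ) (x : ι) :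
    th * k x ≤ -(bd k c γ0 d x).im := by
  have h1 := h.low x
  have h2 : ((k x : ℂ) * d x).im ≤ k x * ρ := by
    rw [Complex.im_ofReal_mul]
    refine mul_le_mul_of_nonneg_left ?_ (h.adm.k0 x)
    exact ((le_abs_self _).trans (Complex.abs_im_le_norm _)).trans (hd x)
  have h2' : -(k x * ρ) ≤ ((k x : ℂ) * d x).im := by
    rw [Complex.im_ofReal_mul, ← mul_neg]
    refine mul_le_mul_of_nonneg_left ?_ (h.adm.k0 x)
    exact (abs_le.1 ((Complex.abs_im_le_norm _).trans (hd x))).1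
  have h3 : k x * ρ ≤ k x * th := mul_le_mul_of_nonneg_left hρ (h.adm.k0 x)
  simp only [bd, Complex.sub_im]
  linarith

theorem bneg {d : ι → ℂ} {ρ : ℝ} (hρ : ρ ≤ th) (hd : ∀ x, ‖d x‖ ≤ ρ) (x : ι) :
    (bd k c γ0 d x).im < 0 := by
  rcases (h.adm.k0 x).eq_or_lt with h1 | h1
  · have h2 := bv_neg h.adm h.im0 x
    simp only [bd, Complex.sub_im]
    rw [← h1]
    simpa using h2
  · have h2 := h.wlow hρ hd x
    have h3 := mul_pos h.th0 h1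
    linarith

theorem dbound {d : ι → ℂ} {ρ : ℝ} (hd : ∀ x, ‖d x‖ ≤ ρ) (y : ι) :
    ‖(k y : ℂ) * d y‖ ≤ ρ / th * (th * k y) := by
  have := h.th0
  rw [norm_mul, Complex.norm_real, Real.norm_of_nonneg (h.adm.k0 y)]
  calc k y * ‖d y‖ ≤ k y * ρ := mul_le_mul_of_nonneg_left (hd y) (h.adm.k0 y)
    _ = _ := by field_simp

theorem w0 (x : ι) : 0 ≤ th * k x := mul_nonneg h.th0.le (h.adm.k0 x)

omit [Fintype ι] [DecidableEq ι] h in
theorem bd0 : bd k c γ0 (0 : ι → ℂ) = bv k c γ0 := by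
  funext y
  simp [bd]

/-- the diagonal of `G_δ` stays bounded -/
theorem dia2 {d : ι → ℂ} {ρ : ℝ} (hρ0 : 0 ≤ ρ) (hρ : 2 * ρ ≤ th) (hd : ∀ x, ‖d x‖ ≤ ρ) (x : ι) :
    ‖rsc H0 (bd k c γ0 d) x x‖ ≤ 2 * C1 := by
  have hth := h.th0
  have hρ' : ρ ≤ th := by linarith
  have hz : ∀ x, ‖(0 : ι → ℂ) x‖ ≤ ρ := fun x => by simpa using hρ0
  have e1 := cmp_ent h.adm.sym (b := bd k c γ0 0) (b' := bd k c γ0 d) (w := fun x => th * k x)
    (h.bneg hρ' hz) (h.bneg hρ' hd) h.w0 (h.wlow hρ' hz) (h.wlow hρ' hd) (r := ρ / th)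
    (by positivity) (fun y => by
      have : bd k c γ0 d y - bd k c γ0 0 y = -((k y : ℂ) * d y) := by simp [bd]
      rw [this, norm_neg]
      exact h.dbound hd y) x x
  rw [bd0] at e1
  have e2 : ρ / th ≤ 1 / 2 := by
    rw [div_le_div_iff₀ hth (by norm_num)]
    linarith
  set M := ‖rsc H0 (bd k c γ0 d) x x‖ with hM
  have hM0 : 0 ≤ M := norm_nonneg _
  have e3 := h.dia x
  have e4 : √(‖rsc H0 (bv k c γ0) x x‖ * M) ≤ (C1 + M) / 2 := by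
    rw [Real.sqrt_le_left (by have := h.C10; positivity)]
    have : ‖rsc H0 (bv k c γ0) x x‖ * M ≤ C1 * M := mul_le_mul_of_nonneg_right e3 hM0
    nlinarith [sq_nonneg (C1 - M)]
  have e5 : M ≤ ‖rsc H0 (bv k c γ0) x x‖ +
      ‖rsc H0 (bv k c γ0) x x - rsc H0 (bd k c γ0 d) x x‖ := by
    have := norm_sub_norm_le (rsc H0 (bd k c γ0 d) x x) (rsc H0 (bv k c γ0) x x)
    rw [norm_sub_rev] at this
    linarith
  have e6 : ρ / th * √(‖rsc H0 (bv k c γ0) x x‖ * M) ≤ 1 / 2 * ((C1 + M) / 2) := by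
    refine mul_le_mul e2 e4 (Real.sqrt_nonneg _) (by norm_num)
  linarith

/-- the nonlinear part `diag G_δ - diag G0 - R0 κ δ` -/
def NN (H0 : Matrix ι ι ℂ) (k : ι → ℝ) (c γ0 d : ι → ℂ) : ι → ℂ := fun x =>
  rsc H0 (bd k c γ0 d) x x - rsc H0 (bv k c γ0) x x -
    ∑ y, rsc H0 (bv k c γ0) x y ^ 2 * ((k y : ℂ) * d y)

theorem NN_lip {d d' : ι → ℂ} {ρ m : ℝ} (hρ0 : 0 ≤ ρ) (hρ : 2 * ρ ≤ th) (hd : ∀ x, ‖d x‖ ≤ ρ)
    (hd' : ∀ x, ‖d' x‖ ≤ ρ) (hm0 : 0 ≤ m) (hm : ∀ x, ‖d x - d' x‖ ≤ m) (x : ι) :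
    ‖NN H0 k c γ0 d x - NN H0 k c γ0 d' x‖ ≤ 3 * C1 * ρ / th ^ 2 * m := by
  have hth := h.th0
  have hρ' : ρ ≤ th := by linarith
  have hz : ∀ x, ‖(0 : ι → ℂ) x‖ ≤ ρ := fun x => by simpa using hρ0
  set B0 := bv k c γ0 with hB0
  set B := bd k c γ0 d with hB
  set B' := bd k c γ0 d' with hB'
  have hb0 : ∀ x, (B0 x).im < 0 := bv_neg h.adm h.im0
  have hb := h.bneg hρ' hd
  have hb' := h.bneg hρ' hd'
  have hw0' : ∀ x, th * k x ≤ -(B0 x).im := fun x => by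
    have := h.wlow hρ' hz x
    rwa [bd0] at this
  have hw := h.wlow hρ' hd
  have hw' := h.wlow hρ' hd'
  set D : ι → ℂ := fun y => (k y : ℂ) * d y with hD
  set D' : ι → ℂ := fun y => (k y : ℂ) * d' y with hD'
  set F : ι → ℂ := fun y => (k y : ℂ) * (d y - d' y) with hF
  have s1 : rsc H0 B - rsc H0 B' = rsc H0 B * diagonal F * rsc H0 B' := by
    rw [rsc_sub h.adm.sym hb hb']
    have : (fun x => B' x - B x) = F := by
      funext y
      simp only [hB, hB', hF, bd]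
      ring
    rw [this]
  have key : ∀ (δ : ι → ℂ), (∀ x, (bd k c γ0 δ x).im < 0) →
      rsc H0 (bd k c γ0 δ) - rsc H0 B0 =
        rsc H0 B0 * diagonal (fun y => (k y : ℂ) * δ y) * rsc H0 (bd k c γ0 δ) := by
    intro δ hδ
    have e1 := rsc_sub h.adm.sym hb0 hδ
    have e2 : (fun x => bd k c γ0 δ x - B0 x) = fun y => -((k y : ℂ) * δ y) := by
      funext y
      simp only [hB0, bd]
      ring
    have e3 : (diagonal (fun y => -((k y : ℂ) * δ y)) : Matrix ι ι ℂ) =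
        -diagonal (fun y => (k y : ℂ) * δ y) := by
      rw [Matrix.diagonal_neg]
    rw [e2, e3, mul_neg, neg_mul] at e1
    rw [← neg_sub, e1, neg_neg]
  have s2 := key d hb
  have s2' := key d' hb'
  rw [← hB, ← hD] at s2
  rw [← hB', ← hD'] at s2'
  have s3 : ∑ y, rsc H0 B0 x y ^ 2 * F y = (rsc H0 B0 * diagonal F * rsc H0 B0) x x := by
    rw [Matrix.mul_apply]
    refine Finset.sum_congr rfl fun y _ => ?_
    rw [Matrix.mul_diagonal, rsc_symm h.adm.sym B0 y x]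
    ring
  have s4 : NN H0 k c γ0 d x - NN H0 k c γ0 d' x =
      (rsc H0 B0 * diagonal D * rsc H0 B * diagonal F * rsc H0 B') x x +
      (rsc H0 B0 * diagonal F * rsc H0 B0 * diagonal D' * rsc H0 B') x x := by
    have e1 : NN H0 k c γ0 d x - NN H0 k c γ0 d' x =
        (rsc H0 B - rsc H0 B') x x - ∑ y, rsc H0 B0 x y ^ 2 * F y := by
      simp only [NN, Matrix.sub_apply, hF, mul_sub, Finset.sum_sub_distrib]
      ring
    rw [e1, s3, s1, ← Matrix.sub_apply, ← Matrix.add_apply]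
    congr 1
    have e2 : rsc H0 B * diagonal F * rsc H0 B' - rsc H0 B0 * diagonal F * rsc H0 B0 =
        (rsc H0 B - rsc H0 B0) * diagonal F * rsc H0 B' +
          rsc H0 B0 * diagonal F * (rsc H0 B' - rsc H0 B0) := by
      noncomm_ring
    rw [e2, s2, s2']
    simp only [Matrix.mul_assoc]
  have r0 : 0 ≤ ρ / th := by positivity
  have m0 : 0 ≤ m / th := by positivity
  have hDb := h.dbound hd
  have hDb' := h.dbound hd'
  have hFb : ∀ y, ‖F y‖ ≤ m / th * (th * k y) := h.dbound (d := fun y => d y - d' y) hm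
  have t1 := cmp_tri h.adm.sym hb0 hb hb' h.w0 hw0' hw hw' r0 m0 hDb hFb x
  have t2 := cmp_tri h.adm.sym hb0 hb0 hb' h.w0 hw0' hw0' hw' m0 r0 hFb hDb' x
  have t3 : √(‖rsc H0 B0 x x‖ * ‖rsc H0 B' x x‖) ≤ 3 / 2 * C1 := by
    have hC := h.C10
    rw [Real.sqrt_le_left (by positivity)]
    have e1 := h.dia x
    have e2 := h.dia2 hρ0 hρ hd' x
    calc ‖rsc H0 B0 x x‖ * ‖rsc H0 B' x x‖ ≤ C1 * (2 * C1) :=
          mul_le_mul e1 e2 (norm_nonneg _) hC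
      _ ≤ (3 / 2 * C1) ^ 2 := by nlinarith [sq_nonneg C1]
  rw [s4]
  refine (norm_add_le _ _).trans ?_
  have t4 : ρ / th * (m / th) * √(‖rsc H0 B0 x x‖ * ‖rsc H0 B' x x‖) ≤
      ρ / th * (m / th) * (3 / 2 * C1) := mul_le_mul_of_nonneg_left t3 (by positivity)
  calc _ ≤ ρ / th * (m / th) * (3 / 2 * C1) + m / th * (ρ / th) * (3 / 2 * C1) :=
        add_le_add (t1.trans t4) (t2.trans (by rw [mul_comm (m / th)]; exact t4))
    _ = 3 * C1 * ρ / th ^ 2 * m := by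
        field_simp
        ring

/-- `(1 - R0 κ)⁻¹` -/
theorem lin_inv : ∃ T : (ι → ℂ) →ₗ[ℂ] (ι → ℂ), (∀ v, ‖T v‖ ≤ Pq * ‖v‖) ∧
    ∀ v x, T v x - ∑ y, rsc H0 (bv k c γ0) x y ^ 2 * ((k y : ℂ) * T v y) = v x := by
  set A : Matrix ι ι ℂ := 1 - had2 (rsc H0 (bv k c γ0)) * diagonal (fun y => (k y : ℂ)) with hA
  have hAv : ∀ (u : ι → ℂ) x, (A *ᵥ u) x =
      u x - ∑ y, rsc H0 (bv k c γ0) x y ^ 2 * ((k y : ℂ) * u y) := by
    intro u x
    rw [hA, Matrix.sub_mulVec, Matrix.one_mulVec, ← Matrix.mulVec_mulVec, _root_.Pi.sub_apply]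
    congr 1
    refine Finset.sum_congr rfl fun y _ => ?_
    rw [Matrix.mulVec_diagonal]
    rfl
  have hu : IsUnit A.det := by
    rw [isUnit_iff_ne_zero]
    intro h0
    obtain ⟨v, hv, hv0⟩ := Matrix.exists_mulVec_eq_zero_iff.2 h0
    apply hv
    have h1 := h.sup v 0 (fun x => by rw [← hAv, hv0]; simp)
    funext x
    have h2 := h1 x
    rw [mul_zero] at h2
    exact norm_le_zero_iff.1 h2
  refine ⟨Matrix.toLin' A⁻¹, fun v => ?_, fun v x => ?_⟩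
  · have hPi := h.Pq0
    rw [pi_norm_le_iff_of_nonneg (by positivity)]
    refine h.sup _ ‖v‖ fun x => ?_
    rw [← hAv, Matrix.toLin'_apply, Matrix.mulVec_mulVec, Matrix.mul_nonsing_inv _ hu,
      Matrix.one_mulVec]
    exact norm_le_pi_norm v x
  · rw [← hAv, Matrix.toLin'_apply, Matrix.mulVec_mulVec, Matrix.mul_nonsing_inv _ hu,
      Matrix.one_mulVec]

/-- THE RE-FREEZING LEMMA -/
theorem main (x : ι) : ‖gav H0 k c x - γ0 x‖ ≤ 2 * Pq * a := by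
  have hth := h.th0
  have hPi := h.Pq0
  have ha := h.a0
  have hC := h.C10
  set ρ : ℝ := 2 * Pq * a with hρ
  have hρ0 : 0 ≤ ρ := by positivity
  have hρ2 : 2 * ρ ≤ th := by
    have := h.sm2
    rw [hρ]
    linarith
  obtain ⟨T, hT1, hT2⟩ := h.lin_inv
  have hLip : Pq * (3 * C1 * ρ / th ^ 2) ≤ 1 / 2 := by
    have h1 := h.sm1
    rw [mul_div_assoc', div_le_div_iff₀ (by positivity) (by norm_num), hρ]
    nlinarith
  set G0 : ι → ℂ := fun x => rsc H0 (bv k c γ0) x x - γ0 x with hG0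
  have hG0n : ‖G0‖ ≤ a := (pi_norm_le_iff_of_nonneg ha).2 h.clo
  have hNN0 : NN H0 k c γ0 (0 : ι → ℂ) = 0 := by
    funext y
    simp [NN, bd0]
  have hN1 : ∀ d d' : ι → ℂ, ‖d‖ ≤ ρ → ‖d'‖ ≤ ρ →
      ‖NN H0 k c γ0 d - NN H0 k c γ0 d'‖ ≤ 3 * C1 * ρ / th ^ 2 * ‖d - d'‖ := by
    intro d d' hd hd'
    rw [pi_norm_le_iff_of_nonneg (by positivity)]
    intro x
    exact h.NN_lip hρ0 hρ2 (fun y => (norm_le_pi_norm d y).trans hd)
      (fun y => (norm_le_pi_norm d' y).trans hd') (norm_nonneg _)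
      (fun y => norm_le_pi_norm (d - d') y) x
  obtain ⟨d, hd, hfix⟩ := ball_fix (fun d : ι → ℂ => T (G0 + NN H0 k c γ0 d)) hρ0
    (fun d hd => by
      refine (hT1 _).trans ?_
      have h1 := hN1 d 0 hd (by simpa using hρ0)
      rw [hNN0, sub_zero, sub_zero] at h1
      have h2 : ‖G0 + NN H0 k c γ0 d‖ ≤ a + 3 * C1 * ρ / th ^ 2 * ρ :=
        (norm_add_le _ _).trans (add_le_add hG0n
          (h1.trans (mul_le_mul_of_nonneg_left hd (by positivity))))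
      calc Pq * ‖G0 + NN H0 k c γ0 d‖ ≤ Pq * (a + 3 * C1 * ρ / th ^ 2 * ρ) :=
            mul_le_mul_of_nonneg_left h2 (by linarith)
        _ = Pq * a + Pq * (3 * C1 * ρ / th ^ 2) * ρ := by ring
        _ ≤ Pq * a + 1 / 2 * ρ := by
            have := mul_le_mul_of_nonneg_right hLip hρ0
            linarith
        _ = ρ := by rw [hρ]; ring)
    (fun d d' hd hd' => by
      have e1 : T (G0 + NN H0 k c γ0 d) - T (G0 + NN H0 k c γ0 d') =
          T (NN H0 k c γ0 d - NN H0 k c γ0 d') := by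
        rw [← map_sub]
        congr 1
        abel
      rw [e1]
      refine (hT1 _).trans ?_
      calc Pq * ‖NN H0 k c γ0 d - NN H0 k c γ0 d'‖ ≤
            Pq * (3 * C1 * ρ / th ^ 2 * ‖d - d'‖) :=
            mul_le_mul_of_nonneg_left (hN1 d d' hd hd') (by linarith)
        _ = Pq * (3 * C1 * ρ / th ^ 2) * ‖d - d'‖ := by ring
        _ ≤ _ := mul_le_mul_of_nonneg_right hLip (norm_nonneg _))
  have hdx : ∀ y, ‖d y‖ ≤ ρ := fun y => (norm_le_pi_norm d y).trans hd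
  have hb := h.bneg (by linarith : ρ ≤ th) hdx
  have h1 : ∀ x, d x = rsc H0 (bd k c γ0 d) x x - γ0 x := by
    intro x
    have e1 := hT2 (G0 + NN H0 k c γ0 d) x
    rw [hfix] at e1
    simp only [Pi.add_apply, NN, hG0] at e1
    linear_combination e1
  have h2 : bv k c (fun y => γ0 y + d y) = bd k c γ0 d := by
    funext y
    simp only [bv, bd]
    ring
  have h3 : IsSCv H0 k c (fun y => γ0 y + d y) := by
    intro x
    have e1 : rsc H0 (bv k c (fun y => γ0 y + d y)) x x = γ0 x + d x := by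
      rw [h2, h1 x]
      ring
    refine ⟨?_, e1⟩
    show 0 < (γ0 x + d x).im
    rw [← e1, h2]
    exact rsc_im h.adm.sym hb x
  rw [gav_eq h.adm h3]
  simpa using hdx x

end RF

end Pool.Agent.GSC
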